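import Mathlib

set_option autoImplicit false
set_option linter.unusedSectionVars false
set_option linter.unusedSimpArgs false

namespace H40

open Matrix

section basics

variable {A : Type*} [Ring A]

/-- the interleaved product `y 0 x 0 y 1 x 1 ... y M` -/
def mono {M : ℕ} (x : Fin M → A) (y : Fin (M + 1) → A) : A :=
  y 0 * (List.ofFn (fun i : Fin M => x i * y i.succ)).prod

/-- the Capelli polynomial -/
def cap {M : ℕ} (x : Fin M → A) (y : Fin (M + 1) → A) : A :=
  ∑ σ : Equiv.Perm (Fin M), Equiv.Perm.sign σ • mono (fun i => x (σ i)) y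

theorem map_mono {A' : Type*} [Ring A'] (f : A →+* A') {M : ℕ} (x : Fin M → A)
    (y : Fin (M + 1) → A) : f (mono x y) = mono (fun i => f (x i)) (fun i => f (y i)) := by
  unfold mono
  rw [map_mul, map_list_prod, List.map_ofFn]
  congr 3
  funext i
  simp

theorem map_cap {A' : Type*} [Ring A'] (f : A →+* A') {M : ℕ} (x : Fin M → A)
    (y : Fin (M + 1) → A) : f (cap x y) = cap (fun i => f (x i)) (fun i => f (y i)) := by
  unfold cap
  rw [map_sum]
  refine Finset.sum_congr rfl fun σ _ => ?_
  rw [← map_mono f]
  rcases Int.units_eq_one_or (Equiv.Perm.sign σ) with h | h <;> rw [h] <;> simp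

theorem mono_cons {M : ℕ} (x : Fin (M + 1) → A) (y : Fin (M + 2) → A) :
    mono x y = y 0 * x 0 * mono (fun i => x i.succ) (fun i => y i.succ) := by
  unfold mono
  rw [List.ofFn_succ, List.prod_cons]
  simp only [mul_assoc, Fin.succ_zero_eq_one]

theorem mono_zero_of {M : ℕ} (x : Fin M → A) (y : Fin (M + 1) → A) (i : Fin M)
    (h : y i.castSucc * x i * y i.succ = 0) : mono x y = 0 := by
  induction M with
  | zero => exact i.elim0
  | succ M ih =>
    rw [mono_cons]
    revert h
    refine Fin.cases ?_ (fun i => ?_) i
    · intro h
      unfold mono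
      rw [Fin.castSucc_zero] at h
      calc y 0 * x 0 * ((fun i : Fin (M + 1) => y i.succ) 0 *
            (List.ofFn fun i : Fin M => x i.succ * y i.succ.succ).prod) =
            (y 0 * x 0 * y (Fin.succ 0)) *
            (List.ofFn fun i : Fin M => x i.succ * y i.succ.succ).prod := by
              simp only [mul_assoc]
        _ = 0 := by rw [h, zero_mul]
    · intro h
      have := ih (fun i => x i.succ) (fun i => y i.succ) i (by
        rw [Fin.castSucc_succ] at h; exact h)
      rw [this, mul_zero]

theorem mono_single {κ K : Type*} [Fintype κ] [DecidableEq κ] [Ring K] {M : ℕ}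
    (p q : Fin (M + 1) → κ) :
    mono (A := Matrix κ κ K) (fun i => single (q i.castSucc) (p i.succ) 1)
      (fun i => single (p i) (q i) 1) = single (p 0) (q (Fin.last M)) 1 := by
  induction M with
  | zero => simp [mono]
  | succ M ih =>
    rw [mono_cons]
    have := ih (fun i => p i.succ) (fun i => q i.succ)
    simp only [Fin.castSucc_zero, Fin.castSucc_succ] at this ⊢
    rw [this]
    simp [single_mul_single_same]

theorem mul_mono {M : ℕ} (r : A) (x : Fin M → A) (y : Fin (M + 1) → A) :
    r * mono x y = mono x (Function.update y 0 (r * y 0)) := by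
  unfold mono
  rw [← mul_assoc]
  congr 1

theorem mono_mul {M : ℕ} (r : A) (x : Fin M → A) (y : Fin (M + 1) → A) :
    mono x y * r = mono x (Function.update y (Fin.last M) (y (Fin.last M) * r)) := by
  induction M with
  | zero =>
    simp [mono]
  | succ M ih =>
    rw [mono_cons, mul_assoc, ih, mono_cons]
    have h0 : (0 : Fin (M + 2)) ≠ Fin.last (M + 1) := by
      intro h; have := congrArg Fin.val h; simp at this
    rw [Function.update_of_ne h0]
    congr 2
    funext i
    by_cases hi : i = Fin.last M
    · subst hi
      simp
    · rw [Function.update_of_ne hi, Function.update_of_ne]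
      intro h
      apply hi
      rw [← Fin.succ_last] at h
      exact Fin.succ_injective _ h

theorem mul_cap {M : ℕ} (r : A) (x : Fin M → A) (y : Fin (M + 1) → A) :
    r * cap x y = cap x (Function.update y 0 (r * y 0)) := by
  unfold cap
  rw [Finset.mul_sum]
  refine Finset.sum_congr rfl fun σ _ => ?_
  rw [mul_smul_comm, mul_mono]

theorem cap_mul {M : ℕ} (r : A) (x : Fin M → A) (y : Fin (M + 1) → A) :
    cap x y * r = cap x (Function.update y (Fin.last M) (y (Fin.last M) * r)) := by
  unfold cap
  rw [Finset.sum_mul]
  refine Finset.sum_congr rfl fun σ _ => ?_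
  rw [smul_mul_assoc, mono_mul]

/-- nonvanishing on matrices -/
theorem exists_cap_ne {κ K : Type*} [Fintype κ] [DecidableEq κ] [Ring K] [Nontrivial K] {M : ℕ}
    (o : κ) (e : Fin M → κ × κ) (he : Function.Injective e) :
    ∃ (x : Fin M → Matrix κ κ K) (y : Fin (M + 1) → Matrix κ κ K), cap x y ≠ 0 := by
  let q : Fin (M + 1) → κ := Fin.lastCases o (fun i => (e i).1)
  let p : Fin (M + 1) → κ := Fin.cases o (fun i => (e i).2)
  refine ⟨fun i => single (q i.castSucc) (p i.succ) 1, fun i => single (p i) (q i) 1, ?_⟩
  have hq : ∀ i : Fin M, q i.castSucc = (e i).1 := fun i => by simp [q]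
  have hp : ∀ i : Fin M, p i.succ = (e i).2 := fun i => by simp [p]
  have key : cap (fun i => single (q i.castSucc) (p i.succ) (1 : K))
      (fun i => single (p i) (q i) 1) = single (p 0) (q (Fin.last M)) 1 := by
    unfold cap
    rw [Finset.sum_eq_single 1]
    · simp only [Equiv.Perm.sign_one, one_smul, Equiv.Perm.coe_one, id_eq]
      exact mono_single p q
    · intro σ _ hσ
      have : ∃ i, σ i ≠ i := by
        by_contra hcon
        push Not at hcon
        exact hσ (Equiv.ext hcon)
      obtain ⟨i, hi⟩ := this
      rw [mono_zero_of _ _ i, smul_zero]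
      have hne : e (σ i) ≠ e i := fun h => hi (he h)
      by_cases h1 : q i.castSucc = q (σ i).castSucc
      · by_cases h2 : p (σ i).succ = p i.succ
        · exfalso
          apply hne
          rw [hq, hq] at h1
          rw [hp, hp] at h2
          exact Prod.ext h1.symm h2
        · show single (p i.castSucc) (q i.castSucc) 1 * single (q (σ i).castSucc) (p (σ i).succ) 1 *
            single (p i.succ) (q i.succ) 1 = 0
          rw [mul_assoc, single_mul_single_of_ne _ _ _ _ h2, mul_zero]
      · show single (p i.castSucc) (q i.castSucc) 1 * single (q (σ i).castSucc) (p (σ i).succ) 1 *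
            single (p i.succ) (q i.succ) 1 = 0
        rw [single_mul_single_of_ne _ _ _ _ h1, zero_mul]
    · intro h; exact absurd (Finset.mem_univ _) h
  rw [key]
  intro h
  have := congrFun (congrFun h (p 0)) (q (Fin.last M))
  rw [single_apply_same] at this
  exact one_ne_zero this

end basics

section multi

variable {K A : Type*} [CommRing K] [Ring A] [Algebra K A]

/-- multilinear in `x` -/
def monoX (K : Type*) {A : Type*} [CommRing K] [Ring A] [Algebra K A] {M : ℕ}
    (y : Fin (M + 1) → A) : MultilinearMap K (fun _ : Fin M => A) A :=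
  (LinearMap.mulLeft K (y 0)).compMultilinearMap
    ((MultilinearMap.mkPiAlgebraFin K M A).compLinearMap (fun i => LinearMap.mulRight K (y i.succ)))

theorem monoX_apply {M : ℕ} (y : Fin (M + 1) → A) (x : Fin M → A) :
    monoX K y x = mono x y := by
  simp [monoX, mono]

/-- the alternating map in `x` -/
def capX (K : Type*) {A : Type*} [CommRing K] [Ring A] [Algebra K A] {M : ℕ}
    (y : Fin (M + 1) → A) : A [⋀^Fin M]→ₗ[K] A :=
  MultilinearMap.alternatization (monoX K y)

theorem capX_apply {M : ℕ} (y : Fin (M + 1) → A) (x : Fin M → A) :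
    capX K y x = cap x y := by
  unfold capX cap
  rw [MultilinearMap.alternatization_apply]
  refine Finset.sum_congr rfl fun σ _ => ?_
  rw [MultilinearMap.domDomCongr_apply, monoX_apply]

/-- multilinear in `y` -/
def monoY (K : Type*) {A : Type*} [CommRing K] [Ring A] [Algebra K A] {M : ℕ}
    (x : Fin M → A) : MultilinearMap K (fun _ : Fin (M + 1) => A) A :=
  (MultilinearMap.mkPiAlgebraFin K (M + 1) A).compLinearMap
    (Fin.cons LinearMap.id (fun i => LinearMap.mulLeft K (x i)))

theorem monoY_apply {M : ℕ} (x : Fin M → A) (y : Fin (M + 1) → A) :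
    monoY K x y = mono x y := by
  simp [monoY, mono, List.ofFn_succ]

/-- the map in `y` -/
def capY (K : Type*) {A : Type*} [CommRing K] [Ring A] [Algebra K A] {M : ℕ}
    (x : Fin M → A) : MultilinearMap K (fun _ : Fin (M + 1) => A) A :=
  ∑ σ : Equiv.Perm (Fin M), Equiv.Perm.sign σ • monoY K (fun i => x (σ i))

theorem capY_apply {M : ℕ} (x : Fin M → A) (y : Fin (M + 1) → A) :
    capY K x y = cap x y := by
  unfold capY cap
  rw [_root_.sum_apply]
  refine Finset.sum_congr rfl fun σ _ => ?_
  rw [_root_.smul_apply, monoY_apply]

theorem multi_ext {ι N : Type*} [Fintype ι] [DecidableEq ι] [AddCommGroup N] [Module K N]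
    (f : MultilinearMap K (fun _ : ι => A) N) (P : Submodule K N) (s : Set A)
    (h : ∀ x : ι → A, (∀ i, x i ∈ s) → f x ∈ P) :
    ∀ x : ι → A, (∀ i, x i ∈ Submodule.span K s) → f x ∈ P := by
  have key : ∀ t : Finset ι, ∀ x : ι → A, (∀ i ∈ t, x i ∈ Submodule.span K s) →
      (∀ i, i ∉ t → x i ∈ s) → f x ∈ P := by
    intro t
    induction t using Finset.induction_on with
    | empty =>
      intro x _ hx
      exact h x (fun i => hx i (Finset.notMem_empty i))
    | insert j t hj ih =>
      intro x hx1 hx2
      have hxj := hx1 j (Finset.mem_insert_self j t)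
      have : ∀ v ∈ Submodule.span K s, f (Function.update x j v) ∈ P := by
        intro v hv
        refine Submodule.span_induction (p := fun v _ => f (Function.update x j v) ∈ P)
          ?_ ?_ ?_ ?_ hv
        · intro v hv
          apply ih
          · intro i hi
            rw [Function.update_of_ne (by rintro rfl; exact hj hi)]
            exact hx1 i (Finset.mem_insert_of_mem hi)
          · intro i hi
            by_cases hij : i = j
            · subst hij; simpa using hv
            · rw [Function.update_of_ne hij]
              exact hx2 i (fun h => by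
                rcases Finset.mem_insert.mp h with h | h
                · exact hij h
                · exact hi h)
        · rw [MultilinearMap.map_update_zero]; exact P.zero_mem
        · intro a b _ _ ha hb
          rw [MultilinearMap.map_update_add]; exact P.add_mem ha hb
        · intro c a _ ha
          rw [MultilinearMap.map_update_smul]; exact P.smul_mem c ha
      have := this (x j) hxj
      rwa [Function.update_eq_self] at this
  intro x hx
  exact key Finset.univ x (fun i _ => hx i) (fun i hi => absurd (Finset.mem_univ i) hi)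

theorem cap_mem_of_span {M : ℕ} (P : Submodule K A) (s : Set A)
    (h : ∀ (x : Fin M → A) (y : Fin (M + 1) → A), (∀ i, x i ∈ s) → (∀ i, y i ∈ s) →
      cap x y ∈ P) :
    ∀ (x : Fin M → A) (y : Fin (M + 1) → A), (∀ i, x i ∈ Submodule.span K s) →
      (∀ i, y i ∈ Submodule.span K s) → cap x y ∈ P := by
  intro x y hx hy
  rw [← capX_apply (K := K)]
  refine multi_ext (capX K y).toMultilinearMap P s ?_ x hx
  intro x' hx'
  show capX K y x' ∈ P
  rw [capX_apply, ← capY_apply (K := K)]
  refine multi_ext (capY K x') P s ?_ y hy
  intro y' hy'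
  rw [capY_apply]
  exact h x' y' hx' hy'

theorem cap_eq_zero_of_basis {κ : Type*} [Fintype κ] (b : Module.Basis κ K A) {M : ℕ}
    (hM : Fintype.card κ < M) (x : Fin M → A) (y : Fin (M + 1) → A) : cap x y = 0 := by
  rw [← capX_apply (K := K)]
  have : capX K y = 0 := by
    refine Module.Basis.ext_alternating b ?_
    intro v hv
    exfalso
    have := Fintype.card_le_of_injective v hv
    simp at this
    omega
  rw [this]; rfl

end multi

end H40
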