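import Pool.Agent.H40.PI

set_option autoImplicit false
set_option linter.unusedSectionVars false

namespace H40

open Module

variable {T S : Type*} [CommRing T] [Ring S] [Algebra T S]

/-- bounded integrality of `S[X]` over `T[X]` -/
def IntBdd (T S : Type*) [CommRing T] [Ring S] [Algebra T S] (M : ℕ) : Prop :=
  ∀ a : Polynomial S, ∃ c : Fin M → Polynomial T,
    a ^ M + ∑ i, (c i).map (algebraMap T S) * a ^ (i : ℕ) = 0

theorem integral_const {M : ℕ} (h : IntBdd T S M) (s : S) :
    ∃ c : Fin M → T, s ^ M + ∑ i, algebraMap T S (c i) * s ^ (i : ℕ) = 0 := by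
  obtain ⟨c, hc⟩ := h (Polynomial.C s)
  refine ⟨fun i => (c i).coeff 0, ?_⟩
  have := congrArg (fun p => Polynomial.coeff p 0) hc
  simp only [Polynomial.coeff_add, Polynomial.finsetSum_coeff, ← Polynomial.C_pow,
    Polynomial.coeff_mul_C, Polynomial.coeff_C_zero, Polynomial.coeff_map,
    Polynomial.coeff_zero] at this
  exact this

theorem crt {κ : Type*} (P : κ → Ideal S) [∀ k, (P k).IsTwoSided]
    (hP : ∀ i j, i ≠ j → P i ⊔ P j = ⊤) (i : κ) (s : Finset κ) (hi : i ∉ s) :
    ∃ x, x - 1 ∈ P i ∧ ∀ j ∈ s, x ∈ P j := by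
  classical
  revert hi
  refine Finset.induction_on s ?_ ?_
  · intro _
    exact ⟨1, by simp, by simp⟩
  · intro k s hk ih hi
    have hik : i ≠ k := fun h => hi (h ▸ Finset.mem_insert_self k s)
    obtain ⟨x, hx1, hx2⟩ := ih (fun h => hi (Finset.mem_insert_of_mem h))
    have h1 : (1 : S) ∈ P i ⊔ P k := by rw [hP i k hik]; trivial
    obtain ⟨p, hp, q, hq, hpq⟩ := Submodule.mem_sup.mp h1
    refine ⟨x * q, ?_, ?_⟩
    · have hq1 : q = 1 - p := by rw [← hpq]; abel
      have e : x * q - 1 = (x - 1) * q - p := by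
        rw [hq1]; noncomm_ring
      rw [e]
      exact (P i).sub_mem (Ideal.mul_mem_right _ _ hx1) hp
    · intro j hj
      rcases Finset.mem_insert.mp hj with rfl | hj
      · exact (P j).mul_mem_left _ hq
      · exact Ideal.mul_mem_right _ _ (hx2 j hj)

open Polynomial in
theorem card_le {M : ℕ} (hInt : IntBdd T S M) (m : Ideal T) [hm : m.IsMaximal]
    (P : Fin (M + 1) → Ideal S) [∀ k, (P k).IsTwoSided]
    (hP : ∀ i j, i ≠ j → P i ⊔ P j = ⊤) (hne : ∀ j, P j ≠ ⊤)
    (hmP : ∀ j, ∀ μ ∈ m, algebraMap T S μ ∈ P j) : False := by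
  classical
  have h1 : ∀ i, ∃ x, x - 1 ∈ P i ∧ ∀ j ∈ Finset.univ.erase i, x ∈ P j := fun i =>
    crt P hP i _ (Finset.notMem_erase i _)
  choose ε hε1 hε2 using h1
  obtain ⟨c, hc⟩ := hInt (∑ k, C (ε k) * X ^ (k : ℕ))
  let _ : Field (T ⧸ m) := Ideal.Quotient.field m
  let cb : Fin M → (T ⧸ m)[X] := fun i => (c i).map (Ideal.Quotient.mk m)
  have hroot : ∀ j : Fin (M + 1),
      (X ^ (j : ℕ)) ^ M + ∑ i, cb i * (X ^ (j : ℕ)) ^ (i : ℕ) = (0 : (T ⧸ m)[X]) := by
    intro j
    let πj : S →+* S ⧸ P j := Ideal.Quotient.mk (P j)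
    have hnt : Nontrivial (S ⧸ P j) := by
      refine ⟨⟨πj 1, 0, ?_⟩⟩
      intro h
      exact hne j ((Ideal.eq_top_iff_one _).mpr (Ideal.Quotient.eq_zero_iff_mem.mp h))
    let θ : (T ⧸ m) →+* S ⧸ P j := Ideal.Quotient.lift m (πj.comp (algebraMap T S))
      (fun μ hμ => Ideal.Quotient.eq_zero_iff_mem.mpr (hmP j μ hμ))
    have hθ : θ.comp (Ideal.Quotient.mk m) = πj.comp (algebraMap T S) := by
      ext x; simp [θ]
    have hinj : Function.Injective θ := θ.injective
    have ha : (∑ k, C (ε k) * X ^ (k : ℕ)).map πj = (X : (S ⧸ P j)[X]) ^ (j : ℕ) := by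
      rw [Polynomial.map_sum, Finset.sum_eq_single j]
      · rw [Polynomial.map_mul, Polynomial.map_C, Polynomial.map_pow, Polynomial.map_X]
        have : πj (ε j) = 1 := by
          have := Ideal.Quotient.eq_zero_iff_mem.mpr (hε1 j)
          rw [map_sub, map_one, sub_eq_zero] at this
          exact this
        rw [this, C_1, one_mul]
      · intro k _ hkj
        rw [Polynomial.map_mul, Polynomial.map_C]
        have : πj (ε k) = 0 := Ideal.Quotient.eq_zero_iff_mem.mpr
          (hε2 k j (Finset.mem_erase.mpr ⟨Ne.symm hkj, Finset.mem_univ _⟩))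
        rw [this, C_0, zero_mul]
      · intro h; exact absurd (Finset.mem_univ _) h
    have h2 := congrArg (Polynomial.map πj) hc
    rw [Polynomial.map_add, Polynomial.map_pow, ha, Polynomial.map_zero,
      Polynomial.map_sum] at h2
    apply Polynomial.map_injective θ hinj
    rw [Polynomial.map_zero, ← h2, Polynomial.map_add, Polynomial.map_sum]
    congr 1
    · simp
    · refine Finset.sum_congr rfl fun i _ => ?_
      simp only [Polynomial.map_mul, Polynomial.map_pow, ha, Polynomial.map_X]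
      congr 1
      simp only [cb, Polynomial.map_map, hθ]
  -- polynomial with too many roots
  let p : ((T ⧸ m)[X])[X] := X ^ M + ∑ i : Fin M, C (cb i) * X ^ (i : ℕ)
  have hpdeg : p.natDegree ≤ M := by
    refine (natDegree_add_le _ _).trans (max_le (natDegree_X_pow_le M) ?_)
    refine natDegree_sum_le_of_forall_le _ _ fun i _ => ?_
    exact (natDegree_C_mul_X_pow_le _ _).trans i.2.le
  have hcoeff : p.coeff M = 1 := by
    simp only [p, coeff_add, coeff_X_pow, if_true, finsetSum_coeff, coeff_C_mul]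
    rw [Finset.sum_eq_zero, add_zero]
    intro i _
    rw [if_neg (by have := i.2; omega), mul_zero]
  have hp0 : p = 0 := by
    refine eq_zero_of_natDegree_lt_card_of_eval_eq_zero p
      (f := fun j : Fin (M + 1) => (X : (T ⧸ m)[X]) ^ (j : ℕ)) ?_ ?_ ?_
    · intro a b hab
      have := congrArg natDegree hab
      simp only [natDegree_X_pow] at this
      exact Fin.ext this
    · intro j
      simp only [p, eval_add, eval_pow, eval_X, eval_finsetSum, eval_mul, eval_C]
      exact hroot j
    · rw [Fintype.card_fin]; omega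
  rw [hp0, coeff_zero] at hcoeff
  exact zero_ne_one hcoeff

/-- an element invertible modulo every maximal left ideal over `m` has a left inverse up to an
element outside `m` -/
theorem exists_left_inv {M : ℕ} (hInt : IntBdd T S M) (m : Ideal T) [hm : m.IsMaximal] (a : S)
    (ha : ∀ z : Ideal S, z.IsMaximal → (∀ μ ∈ m, algebraMap T S μ ∈ z) → ∃ b, b * a - 1 ∈ z) :
    ∃ a' : S, ∃ σ : T, σ ∉ m ∧ a' * a = algebraMap T S σ := by
  by_contra hcon
  push Not at hcon
  obtain ⟨z, hz1, hz2⟩ := zorn_le_nonempty₀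
    {z : Ideal S | a ∈ z ∧ ∀ σ, σ ∉ m → algebraMap T S σ ∉ z} (by
      intro c hc hchain y hy
      refine ⟨sSup c, ⟨?_, ?_⟩, fun z hz => le_sSup hz⟩
      · exact le_sSup hy (hc hy).1
      · intro σ hσ hmem
        rw [Submodule.mem_sSup_of_directed ⟨y, hy⟩ hchain.directedOn] at hmem
        obtain ⟨w, hw, hw2⟩ := hmem
        exact (hc hw).2 σ hσ hw2) (Ideal.span {a}) (by
      refine ⟨Ideal.subset_span rfl, ?_⟩
      intro σ hσ hmem
      obtain ⟨a', ha'⟩ := Ideal.mem_span_singleton'.mp hmem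
      exact hcon a' σ hσ ha')
  have hza : a ∈ z := hz2.prop.1
  have hzσ : ∀ σ, σ ∉ m → algebraMap T S σ ∉ z := hz2.prop.2
  have h1m : (1 : T) ∉ m := fun h => hm.ne_top ((Ideal.eq_top_iff_one _).mpr h)
  -- bigger ideals meet the complement
  have hbig : ∀ z' : Ideal S, z < z' → ∃ σ, σ ∉ m ∧ algebraMap T S σ ∈ z' := by
    intro z' hlt
    by_contra hno
    push Not at hno
    exact hlt.not_ge (hz2.le_of_ge ⟨hlt.le hza, hno⟩ hlt.le)
  have hcomm : ∀ (t : T) (s : S), algebraMap T S t * s = s * algebraMap T S t :=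
    fun t s => Algebra.commutes t s
  -- `m ⊆ z`
  have hmz : ∀ μ ∈ m, algebraMap T S μ ∈ z := by
    intro μ hμ
    by_contra hμz
    have hlt : z < z ⊔ Ideal.span {algebraMap T S μ} := by
      refine lt_of_le_of_ne le_sup_left ?_
      intro h
      apply hμz
      rw [h]
      exact Submodule.mem_sup_right (Ideal.subset_span rfl)
    obtain ⟨σ, hσ, hmem⟩ := hbig _ hlt
    obtain ⟨ζ, hζ, y, hy, hsum⟩ := Submodule.mem_sup.mp hmem
    obtain ⟨c, hc⟩ := Ideal.mem_span_singleton'.mp hy
    -- `c * μ ≡ σ mod z`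
    have hcμ : c * algebraMap T S μ - algebraMap T S σ ∈ z := by
      rw [hc, ← hsum]
      have : y - (ζ + y) = -ζ := by abel
      rw [this]; exact z.neg_mem hζ
    have hpow : ∀ k : ℕ, algebraMap T S μ ^ k * c ^ k - algebraMap T S σ ^ k ∈ z := by
      intro k
      induction k with
      | zero => simp
      | succ k ih =>
        have e : algebraMap T S μ ^ (k + 1) * c ^ (k + 1) - algebraMap T S σ ^ (k + 1) =
            (c * algebraMap T S μ) * (algebraMap T S μ ^ k * c ^ k - algebraMap T S σ ^ k) +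
            algebraMap T S σ ^ k * (c * algebraMap T S μ - algebraMap T S σ) := by
          have c1 : algebraMap T S μ ^ (k + 1) * c ^ (k + 1) =
              (c * algebraMap T S μ) * (algebraMap T S μ ^ k * c ^ k) := by
            rw [← map_pow, ← map_pow, pow_succ' c k, pow_succ' μ k, map_mul]
            rw [← hcomm μ c]
            rw [mul_assoc, mul_assoc, ← mul_assoc (algebraMap T S (μ ^ k)) c,
              hcomm (μ ^ k) c, mul_assoc c]
          have c2 : algebraMap T S σ ^ k * (c * algebraMap T S μ) =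
              (c * algebraMap T S μ) * algebraMap T S σ ^ k := by
            rw [← map_pow, hcomm]
          rw [mul_sub, mul_sub, ← c1, c2, pow_succ (algebraMap T S σ) k]
          abel
        rw [e]
        exact z.add_mem (z.mul_mem_left _ ih) (z.mul_mem_left _ hcμ)
    obtain ⟨t, ht⟩ := integral_const hInt c
    -- multiply by `μ ^ M`
    have e1 : algebraMap T S μ ^ M * (c ^ M + ∑ i, algebraMap T S (t i) * c ^ (i : ℕ)) = 0 := by
      rw [ht, mul_zero]
    have e2 : algebraMap T S μ ^ M * (c ^ M + ∑ i, algebraMap T S (t i) * c ^ (i : ℕ)) -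
        algebraMap T S (σ ^ M + ∑ i : Fin M, t i * μ ^ (M - (i : ℕ)) * σ ^ (i : ℕ)) ∈ z := by
      have e3 : algebraMap T S μ ^ M * (c ^ M + ∑ i, algebraMap T S (t i) * c ^ (i : ℕ)) -
        algebraMap T S (σ ^ M + ∑ i : Fin M, t i * μ ^ (M - (i : ℕ)) * σ ^ (i : ℕ)) =
        (algebraMap T S μ ^ M * c ^ M - algebraMap T S σ ^ M) +
        ∑ i : Fin M, (algebraMap T S (t i * μ ^ (M - (i : ℕ)))) *
          (algebraMap T S μ ^ (i : ℕ) * c ^ (i : ℕ) - algebraMap T S σ ^ (i : ℕ)) := by
        rw [mul_add, Finset.mul_sum, map_add, map_sum, map_pow, add_sub_add_comm,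
          ← Finset.sum_sub_distrib]
        congr 1
        refine Finset.sum_congr rfl fun i _ => ?_
        rw [mul_sub]
        congr 1
        · have hi : algebraMap T S μ ^ M =
              algebraMap T S μ ^ (M - (i : ℕ)) * algebraMap T S μ ^ (i : ℕ) := by
            rw [← pow_add, Nat.sub_add_cancel i.2.le]
          rw [hi, ← map_pow, ← map_pow, ← mul_assoc, ← mul_assoc, ← map_mul, ← map_mul,
            ← map_mul]
          congr 2
          ring
        · rw [map_mul, map_pow]
      rw [e3]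
      exact z.add_mem (hpow M) (z.sum_mem fun i _ => z.mul_mem_left _ (hpow i))
    rw [e1, zero_sub, Submodule.neg_mem_iff] at e2
    refine hzσ _ ?_ e2
    intro hmem
    have hsum : ∑ i : Fin M, t i * μ ^ (M - (i : ℕ)) * σ ^ (i : ℕ) ∈ m := by
      refine m.sum_mem fun i _ => ?_
      apply Ideal.mul_mem_right
      apply Ideal.mul_mem_left
      have : M - (i : ℕ) = (M - (i : ℕ) - 1) + 1 := by have := i.2; omega
      rw [this, pow_succ]
      exact m.mul_mem_left _ hμ
    have : σ ^ M ∈ m := by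
      have := m.sub_mem hmem hsum
      rwa [add_sub_cancel_right] at this
    exact hσ (hm.isPrime.mem_of_pow_mem M this)
  -- `z` is maximal
  have hzmax : z.IsMaximal := by
    rw [Ideal.isMaximal_def]
    refine ⟨?_, ?_⟩
    · intro h
      apply hzσ 1 h1m
      rw [h]; trivial
    · intro z' hlt
      obtain ⟨σ, hσ, hmem⟩ := hbig z' hlt
      obtain ⟨σ', hσ'⟩ := hm.exists_inv hσ
      obtain ⟨μ, hμ, he⟩ := hσ'
      rw [Ideal.eq_top_iff_one]
      have h1 : algebraMap T S (σ' * σ + μ) = 1 := by rw [he, map_one]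
      rw [← h1, map_add, map_mul]
      exact z'.add_mem (z'.mul_mem_left _ hmem) (hlt.le (hmz μ hμ))
  obtain ⟨b, hb⟩ := ha z hzmax hmz
  apply hzσ 1 h1m
  rw [map_one]
  have := z.sub_mem (z.mul_mem_left b hza) hb
  rwa [sub_sub_cancel] at this

end H40
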