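import Pool.Agent.H40.Cap
import Pool.Agent.H40.Local

set_option autoImplicit false
set_option linter.unusedSectionVars false
set_option linter.unusedSimpArgs false

namespace H40

open Matrix Polynomial

section det

variable {ι k : Type*} [Fintype ι] [DecidableEq ι] [CommRing k]

theorem charpoly_coeff_mul_det (N P : Matrix ι ι k) (j : ℕ) :
    N.charpoly.coeff j * P.det =
      ∑ s ∈ (Finset.univ : Finset (Finset ι)).filter (fun s => s.card = j),
        Matrix.det (Matrix.of (s.piecewise (fun c r => P r c) (fun c r => -((N * P) r c)))) := by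
  have h1 : N.charpoly * C P.det =
      ∑ s : Finset ι, X ^ s.card *
        C (Matrix.det (Matrix.of (s.piecewise (fun c r => P r c) (fun c r => -((N * P) r c))))) := by
    have e1 : C P.det = (P.map C).det := by
      rw [RingHom.map_det]; rfl
    let u0 : ι → ι → k[X] := fun c r => C (P r c)
    let u : ι → ι → k[X] := fun c => (X : k[X]) • u0 c
    let w : ι → ι → k[X] := fun c r => -(C ((N * P) r c))
    have e2 : (charmatrix N * P.map C)ᵀ = Matrix.of (u + w) := by
      ext1 a b
      rw [Matrix.transpose_apply, Matrix.mul_apply]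
      simp only [charmatrix_apply, sub_mul, Finset.sum_sub_distrib, Matrix.map_apply]
      rw [← sub_eq_zero]
      simp only [Matrix.of_apply, Pi.add_apply, u, u0, w, Pi.smul_apply, smul_eq_mul,
        Matrix.diagonal_apply, ite_mul, zero_mul, Finset.sum_ite_eq, Finset.mem_univ, if_true,
        Matrix.mul_apply, map_sum, map_mul]
      ring
    rw [e1, Matrix.charpoly, ← det_mul, ← det_transpose, e2]
    have e3 := (Matrix.detRowAlternating (n := ι) (R := k[X])).toMultilinearMap.map_add_univ u w
    refine e3.trans ?_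
    refine Finset.sum_congr rfl fun s _ => ?_
    have e4 : s.piecewise u w = s.piecewise (fun c => (X : k[X]) • (s.piecewise u0 w) c)
        (s.piecewise u0 w) := by
      funext c
      by_cases hc : c ∈ s
      · rw [Finset.piecewise_eq_of_mem _ _ _ hc, Finset.piecewise_eq_of_mem _ _ _ hc,
          Finset.piecewise_eq_of_mem _ _ _ hc]
      · rw [Finset.piecewise_eq_of_notMem _ _ _ hc, Finset.piecewise_eq_of_notMem _ _ _ hc,
          Finset.piecewise_eq_of_notMem _ _ _ hc]
    rw [e4]
    have e5 := (Matrix.detRowAlternating (n := ι) (R := k[X])).toMultilinearMap.map_piecewise_smul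
      (fun _ => (X : k[X])) (s.piecewise u0 w) s
    refine e5.trans ?_
    rw [Finset.prod_const, smul_eq_mul]
    congr 1
    have e6 : Matrix.of (s.piecewise u0 w) =
        (C : k →+* k[X]).mapMatrix
          (Matrix.of (s.piecewise (fun c r => P r c) (fun c r => -((N * P) r c)))) := by
      ext1 a b
      rw [RingHom.mapMatrix_apply, Matrix.map_apply, Matrix.of_apply, Matrix.of_apply]
      by_cases hc : a ∈ s
      · rw [Finset.piecewise_eq_of_mem _ _ _ hc, Finset.piecewise_eq_of_mem _ _ _ hc]
      · rw [Finset.piecewise_eq_of_notMem _ _ _ hc, Finset.piecewise_eq_of_notMem _ _ _ hc]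
        simp [w]
    rw [RingHom.map_det, ← e6]
    rfl
  have h2 := congrArg (fun p => coeff p j) h1
  simp only [coeff_mul_C, finsetSum_coeff] at h2
  rw [h2, Finset.sum_filter]
  refine Finset.sum_congr rfl fun s _ => ?_
  rw [coeff_X_pow]
  split_ifs with h3 h4 h4
  · rw [one_mul]
  · exact absurd h3.symm h4
  · exact absurd h4.symm h3
  · rw [zero_mul]

theorem charpoly_coeff_smul_alt {A : Type*} [AddCommGroup A] [Module k A]
    (e : Module.Basis ι k A) (f : A [⋀^ι]→ₗ[k] k) (L : A →ₗ[k] A) (x : ι → A) (j : ℕ) :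
    (LinearMap.toMatrix e e L).charpoly.coeff j * f x =
      ∑ s ∈ (Finset.univ : Finset (Finset ι)).filter (fun s => s.card = j),
        f (s.piecewise x (fun i => -(L (x i)))) := by
  have hf : ∀ v : ι → A, f v = f e * Matrix.det (Matrix.of (fun c r => e.repr (v c) r)) := by
    intro v
    have h1 := congrArg (fun g : A [⋀^ι]→ₗ[k] k => g v) (f.eq_smul_basis_det e)
    simp only [AlternatingMap.smul_apply, smul_eq_mul] at h1
    rw [h1, Module.Basis.det_apply, ← det_transpose]
    rfl
  rw [hf x, mul_left_comm, ← det_transpose, charpoly_coeff_mul_det, Finset.mul_sum]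
  refine Finset.sum_congr rfl fun s _ => ?_
  rw [hf (s.piecewise x (fun i => -(L (x i))))]
  congr 1
  apply congrArg Matrix.det
  ext1 a b
  rw [Matrix.of_apply, Matrix.of_apply]
  by_cases ha : a ∈ s
  · rw [Finset.piecewise_eq_of_mem _ _ _ ha, Finset.piecewise_eq_of_mem _ _ _ ha]
    rfl
  · rw [Finset.piecewise_eq_of_notMem _ _ _ ha, Finset.piecewise_eq_of_notMem _ _ _ ha]
    have := congrFun (LinearMap.toMatrix_mulVec_repr e e L (x a)) b
    rw [map_neg, Finsupp.neg_apply, ← this]
    rfl

end det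

section gen

variable {m : ℕ} {k : Type*} [CommRing k]

/-- the basis of matrix units -/
noncomputable def mbasis (m : ℕ) (k : Type*) [CommRing k] :
    Module.Basis (Fin (m * m)) k (Matrix (Fin m) (Fin m) k) :=
  (Matrix.stdBasis k (Fin m) (Fin m)).reindex finProdFinEquiv

/-- characteristic polynomial of the left multiplication -/
noncomputable def Dpol (a : Matrix (Fin m) (Fin m) k) : k[X] :=
  (LinearMap.toMatrix (mbasis m k) (mbasis m k) (LinearMap.mulLeft k a)).charpoly

theorem Dpol_coeff_smul_cap (a : Matrix (Fin m) (Fin m) k)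
    (x : Fin (m * m) → Matrix (Fin m) (Fin m) k) (y : Fin (m * m + 1) → Matrix (Fin m) (Fin m) k)
    (j : ℕ) :
    (Dpol a).coeff j • cap x y =
      ∑ s ∈ (Finset.univ : Finset (Finset (Fin (m * m)))).filter (fun s => s.card = j),
        cap (s.piecewise x (fun i => -(a * x i))) y := by
  ext p q
  let f : (Matrix (Fin m) (Fin m) k) [⋀^Fin (m * m)]→ₗ[k] k :=
    (Matrix.entryLinearMap k k p q).compAlternatingMap (capX k y)
  have hf : ∀ x, f x = cap x y p q := by
    intro x
    show (capX k y x) p q = _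
    rw [capX_apply]
  have key := charpoly_coeff_smul_alt (mbasis m k) f (LinearMap.mulLeft k a) x j
  simp only [hf] at key
  rw [Matrix.smul_apply, smul_eq_mul, Dpol, key, Matrix.sum_apply]
  rfl

theorem Dpol_monic (a : Matrix (Fin m) (Fin m) k) : (Dpol a).Monic := Matrix.charpoly_monic _

theorem Dpol_natDegree [Nontrivial k] (a : Matrix (Fin m) (Fin m) k) :
    (Dpol a).natDegree = m * m := by
  rw [Dpol, Matrix.charpoly_natDegree_eq_dim, Fintype.card_fin]

theorem Dpol_aeval (a : Matrix (Fin m) (Fin m) k) : aeval a (Dpol a) = 0 := by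
  have h1 : aeval (LinearMap.toMatrix (mbasis m k) (mbasis m k) (LinearMap.mulLeft k a))
      (Dpol a) = 0 := Matrix.aeval_self_charpoly _
  have h2 : aeval (LinearMap.mulLeft k a) (Dpol a) = 0 := by
    have e : LinearMap.toMatrix (mbasis m k) (mbasis m k) (LinearMap.mulLeft k a) =
      (LinearMap.toMatrixAlgEquiv (mbasis m k)) (LinearMap.mulLeft k a) := rfl
    rw [e, Polynomial.aeval_algHom_apply] at h1
    exact (LinearMap.toMatrixAlgEquiv (mbasis m k)).injective (by rw [h1, map_zero])
  have h3 : LinearMap.mulLeft k a = Algebra.lmul k (Matrix (Fin m) (Fin m) k) a := rfl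
  rw [h3, Polynomial.aeval_algHom_apply] at h2
  have := congrArg (fun g : Module.End k (Matrix (Fin m) (Fin m) k) => g 1) h2
  simpa using this

theorem Dpol_sum (a : Matrix (Fin m) (Fin m) k) :
    a ^ (m * m) + ∑ i : Fin (m * m), (Dpol a).coeff i • a ^ (i : ℕ) = 0 := by
  rcases subsingleton_or_nontrivial k with h | h
  · exact Subsingleton.elim _ _
  · have h1 := Dpol_aeval a
    rw [(Dpol_monic a).as_sum, Dpol_natDegree, map_add, map_pow, aeval_X, map_sum] at h1
    rw [← h1, Finset.sum_range]
    congr 1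
    refine Finset.sum_congr rfl fun i _ => ?_
    rw [map_mul, aeval_C, map_pow, aeval_X, Algebra.smul_def]

/-- the key membership -/
theorem Dpol_coeff_smul_mem (S' : Set (Matrix (Fin m) (Fin m) k))
    (hmul : ∀ a ∈ S', ∀ b ∈ S', -(a * b) ∈ S') (I' : AddSubgroup (Matrix (Fin m) (Fin m) k))
    (hcap : ∀ (x : Fin (m * m) → Matrix (Fin m) (Fin m) k)
      (y : Fin (m * m + 1) → Matrix (Fin m) (Fin m) k), (∀ i, x i ∈ S') → (∀ i, y i ∈ S') →
      cap x y ∈ I') (a : Matrix (Fin m) (Fin m) k) (ha : a ∈ S')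
    (x : Fin (m * m) → Matrix (Fin m) (Fin m) k) (y : Fin (m * m + 1) → Matrix (Fin m) (Fin m) k)
    (hx : ∀ i, x i ∈ S') (hy : ∀ i, y i ∈ S') (j : ℕ) : (Dpol a).coeff j • cap x y ∈ I' := by
  rw [Dpol_coeff_smul_cap]
  refine I'.sum_mem fun s _ => ?_
  apply hcap _ _ _ hy
  intro i
  by_cases hi : i ∈ s
  · rw [Finset.piecewise_eq_of_mem _ _ _ hi]; exact hx i
  · rw [Finset.piecewise_eq_of_notMem _ _ _ hi]; exact hmul _ ha _ (hx i)

end gen

section poly

variable {A : Type*} [Ring A]

theorem mono_monomial {M : ℕ} (l : Fin M → ℕ) (z : Fin M → A) (l' : Fin (M + 1) → ℕ)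
    (z' : Fin (M + 1) → A) :
    mono (fun i => monomial (l i) (z i)) (fun i => monomial (l' i) (z' i)) =
      monomial (∑ i, l i + ∑ i, l' i) (mono z z') := by
  induction M with
  | zero => simp [mono]
  | succ M ih =>
    rw [mono_cons, ih, mono_cons, monomial_mul_monomial, monomial_mul_monomial]
    have : l' 0 + l 0 + (∑ i : Fin M, l i.succ + ∑ i : Fin (M + 1), l' i.succ) =
        ∑ i, l i + ∑ i, l' i := by
      rw [Fin.sum_univ_succ l, Fin.sum_univ_succ l']; ring
    rw [this]

theorem cap_monomial {M : ℕ} (l : Fin M → ℕ) (z : Fin M → A) (l' : Fin (M + 1) → ℕ)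
    (z' : Fin (M + 1) → A) :
    cap (fun i => monomial (l i) (z i)) (fun i => monomial (l' i) (z' i)) =
      monomial (∑ i, l i + ∑ i, l' i) (cap z z') := by
  unfold cap
  rw [map_sum]
  refine Finset.sum_congr rfl fun σ _ => ?_
  rw [mono_monomial (fun i => l (σ i)) (fun i => z (σ i)), Equiv.sum_comp σ l]
  rcases Int.units_eq_one_or (Equiv.Perm.sign σ) with h | h <;> rw [h] <;> simp

/-- polynomials with all coefficients in `I` -/
def polyAdd (I : AddSubgroup A) : AddSubgroup A[X] where
  carrier := {p | ∀ l, p.coeff l ∈ I}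
  add_mem' := fun ha hb l => by rw [coeff_add]; exact I.add_mem (ha l) (hb l)
  zero_mem' := fun l => by rw [coeff_zero]; exact I.zero_mem
  neg_mem' := fun ha l => by rw [coeff_neg]; exact I.neg_mem (ha l)

theorem mem_polyAdd {I : AddSubgroup A} {p : A[X]} : p ∈ polyAdd I ↔ ∀ l, p.coeff l ∈ I :=
  Iff.rfl

theorem cap_mem_poly {M : ℕ} (S' : AddSubgroup A) (I : AddSubgroup A)
    (hcap : ∀ (x : Fin M → A) (y : Fin (M + 1) → A), (∀ i, x i ∈ S') → (∀ i, y i ∈ S') →
      cap x y ∈ I) (x : Fin M → A[X]) (y : Fin (M + 1) → A[X]) (hx : ∀ i, x i ∈ polyAdd S')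
    (hy : ∀ i, y i ∈ polyAdd S') : cap x y ∈ polyAdd I := by
  have hspan : ∀ p ∈ polyAdd S', p ∈ Submodule.span ℤ {q : A[X] | ∃ l, ∃ z ∈ S', q = monomial l z} := by
    intro p hp
    rw [p.as_sum_support]
    refine Submodule.sum_mem _ fun l _ => ?_
    exact Submodule.subset_span ⟨l, p.coeff l, hp l, rfl⟩
  have := cap_mem_of_span (K := ℤ) (AddSubgroup.toIntSubmodule (polyAdd I))
    {q : A[X] | ∃ l, ∃ z ∈ S', q = monomial l z} ?_ x y (fun i => hspan _ (hx i))
    (fun i => hspan _ (hy i))
  · exact this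
  · intro x' y' hx' hy'
    choose l z hz hxz using hx'
    choose l' z' hz' hyz using hy'
    have e1 : x' = fun i => monomial (l i) (z i) := funext hxz
    have e2 : y' = fun i => monomial (l' i) (z' i) := funext hyz
    rw [e1, e2, cap_monomial]
    show monomial _ _ ∈ polyAdd I
    intro n
    rw [coeff_monomial]
    split_ifs
    · exact hcap z z' hz hz'
    · exact I.zero_mem

end poly

section main

variable {m : ℕ} {B : Type*} [CommRing B]

theorem intBdd_of (T : Subring B) (S : Subalgebra T (Matrix (Fin m) (Fin m) B))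
    (I : AddSubgroup (Matrix (Fin m) (Fin m) B))
    (hcap : ∀ (x : Fin (m * m) → Matrix (Fin m) (Fin m) B)
      (y : Fin (m * m + 1) → Matrix (Fin m) (Fin m) B), (∀ i, x i ∈ S) → (∀ i, y i ∈ S) →
      cap x y ∈ I)
    (hT : ∀ b : B, (∀ (x : Fin (m * m) → Matrix (Fin m) (Fin m) B)
      (y : Fin (m * m + 1) → Matrix (Fin m) (Fin m) B), (∀ i, x i ∈ S) → (∀ i, y i ∈ S) →
      b • cap x y ∈ I) → b ∈ T) : IntBdd T S (m * m) := by
  intro a
  let θ : S[X] →+* (Matrix (Fin m) (Fin m) B)[X] := Polynomial.mapRingHom S.val.toRingHom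
  let E : Matrix (Fin m) (Fin m) B[X] ≃ₐ[B] (Matrix (Fin m) (Fin m) B)[X] := matPolyEquiv
  have hθ : Function.Injective θ := Polynomial.map_injective _ Subtype.val_injective
  set ah : Matrix (Fin m) (Fin m) B[X] := E.symm (θ a) with hah
  let S' : AddSubgroup (Matrix (Fin m) (Fin m) B) := S.toSubring.toAddSubgroup
  have hS' : ∀ z, z ∈ S' ↔ z ∈ S := fun z => Iff.rfl
  have hθS : ∀ p : S[X], θ p ∈ polyAdd S' := by
    intro p l
    show (Polynomial.map _ p).coeff l ∈ S'
    rw [coeff_map]
    exact (p.coeff l).2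
  have hmem : ∀ (j l : ℕ), ((Dpol ah).coeff j).coeff l ∈ T := by
    intro j l
    apply hT
    intro x y hx hy
    -- constants
    have key := Dpol_coeff_smul_mem (k := B[X]) {z | E z ∈ polyAdd S'} ?_
      ((polyAdd I).comap (E : Matrix (Fin m) (Fin m) B[X] ≃ₐ[B] (Matrix (Fin m) (Fin m) B)[X]).toAddEquiv.toAddMonoidHom)
      ?_ ah ?_ (fun i => E.symm (C (x i))) (fun i => E.symm (C (y i))) ?_ ?_ j
    · have k2 : E ((Dpol ah).coeff j • cap (fun i => E.symm (C (x i))) (fun i => E.symm (C (y i))))
          ∈ polyAdd I := key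
      have k3 : cap (fun i => E.symm (C (x i))) (fun i => E.symm (C (y i))) =
          E.symm (C (cap x y)) := by
        have h1 := map_cap ((E.symm.toAlgHom.toRingHom).comp C) x y
        exact h1.symm
      rw [k3] at k2
      have k4 := k2 l
      have k5 : E ((Dpol ah).coeff j • E.symm (C (cap x y))) =
          ((Dpol ah).coeff j).map (algebraMap B _) * C (cap x y) := by
        have := matPolyEquiv_map_smul ((Dpol ah).coeff j) (E.symm (C (cap x y)))
        refine this.trans ?_
        congr 1
        exact E.apply_symm_apply _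
      rw [k5, coeff_mul_C, coeff_map, ← Algebra.smul_def] at k4
      exact k4
    · intro u hu v hv
      show E (-(u * v)) ∈ polyAdd S'
      rw [map_neg, map_mul]
      apply (polyAdd S').neg_mem
      intro n
      rw [coeff_mul]
      refine S'.sum_mem fun c _ => ?_
      exact S.mul_mem (hu _) (hv _)
    · intro x' y' hx' hy'
      show E (cap x' y') ∈ polyAdd I
      have h1 := map_cap (E.toAlgHom.toRingHom) x' y'
      have h2 : E (cap x' y') = cap (fun i => E (x' i)) (fun i => E (y' i)) := h1
      rw [h2]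
      exact cap_mem_poly S' I hcap _ _ hx' hy'
    · show E ah ∈ polyAdd S'
      rw [hah, E.apply_symm_apply]
      exact hθS a
    · intro i
      show E (E.symm (C (x i))) ∈ polyAdd S'
      rw [E.apply_symm_apply]
      intro n
      rw [coeff_C]
      split_ifs
      · exact hx i
      · exact S'.zero_mem
    · intro i
      show E (E.symm (C (y i))) ∈ polyAdd S'
      rw [E.apply_symm_apply]
      intro n
      rw [coeff_C]
      split_ifs
      · exact hy i
      · exact S'.zero_mem
  have hlift : ∀ j, ∃ c : T[X], Polynomial.map T.subtype c = (Dpol ah).coeff j := by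
    intro j
    refine ⟨((Dpol ah).coeff j).toSubring T ?_, ?_⟩
    · intro z hz
      obtain ⟨l, hl, rfl⟩ := Finset.mem_coe.mp hz |> Polynomial.mem_coeffs_iff.mp
      exact hmem j l
    · exact Polynomial.map_toSubring _ _ _
  choose c hc using hlift
  refine ⟨fun i => c i, ?_⟩
  apply hθ
  apply E.symm.injective
  rw [map_zero, map_zero, map_add, map_sum, map_add, map_sum, map_pow, map_pow, ← hah,
    ← Dpol_sum ah]
  congr 1
  refine Finset.sum_congr rfl fun i _ => ?_
  rw [map_mul, map_mul, map_pow, map_pow, ← hah]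
  have h1 : E.symm (θ ((c i).map (algebraMap T S))) = (Dpol ah).coeff i • 1 := by
    rw [E.symm_apply_eq]
    have h2 : E ((Dpol ah).coeff i • 1) = ((Dpol ah).coeff i).map (algebraMap B _) :=
      matPolyEquiv_smul_one _
    rw [h2, ← hc i]
    show Polynomial.map _ (Polynomial.map _ _) = _
    rw [Polynomial.map_map, Polynomial.map_map]
    rfl
  rw [h1, smul_mul_assoc, one_mul]

end main

end H40
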