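import Mathlib

set_option autoImplicit false
set_option linter.unusedSectionVars false

namespace H40

open Matrix

variable {ι : Type*} [Fintype ι] [DecidableEq ι] {S : Type*} [Ring S]

theorem vmv_sq {p q : ι → S} (h : q ⬝ᵥ p = 0) : vecMulVec p q * vecMulVec p q = 0 := by
  rw [vecMulVec_mul_vecMulVec, h]; simp

/-- the unipotent unit `1 + p q` with `q p = 0` -/
def unip (p q : ι → S) (h : q ⬝ᵥ p = 0) : (Matrix ι ι S)ˣ where
  val := 1 + vecMulVec p q
  inv := 1 - vecMulVec p q
  val_inv := by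
    have := vmv_sq h
    calc (1 + vecMulVec p q) * (1 - vecMulVec p q) = 1 - vecMulVec p q * vecMulVec p q := by
          noncomm_ring
      _ = 1 := by rw [this]; simp
  inv_val := by
    have := vmv_sq h
    calc (1 - vecMulVec p q) * (1 + vecMulVec p q) = 1 - vecMulVec p q * vecMulVec p q := by
          noncomm_ring
      _ = 1 := by rw [this]; simp

@[simp] theorem unip_val (p q : ι → S) (h : q ⬝ᵥ p = 0) :
    ((unip p q h : (Matrix ι ι S)ˣ) : Matrix ι ι S) = 1 + vecMulVec p q := rfl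

@[simp] theorem unip_inv_val (p q : ι → S) (h : q ⬝ᵥ p = 0) :
    (((unip p q h)⁻¹ : (Matrix ι ι S)ˣ) : Matrix ι ι S) = 1 - vecMulVec p q := rfl

theorem unip_ext {p q p' q' : ι → S} {h : q ⬝ᵥ p = 0} {h' : q' ⬝ᵥ p' = 0}
    (e : vecMulVec p q = vecMulVec p' q') : unip p q h = unip p' q' h' := by
  ext1; simp [e]

theorem unip_add_left {p p' q : ι → S} (h : q ⬝ᵥ p = 0) (h' : q ⬝ᵥ p' = 0)
    (h'' : q ⬝ᵥ (p + p') = 0) : unip (p + p') q h'' = unip p q h * unip p' q h' := by
  ext1
  have h1 : vecMulVec p q * vecMulVec p' q = 0 := by rw [vecMulVec_mul_vecMulVec, h']; simp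
  simp only [unip_val, Units.val_mul, add_vecMulVec]
  calc _ = 1 + vecMulVec p q + vecMulVec p' q + 0 := by abel
    _ = 1 + vecMulVec p q + vecMulVec p' q + vecMulVec p q * vecMulVec p' q := by rw [h1]
    _ = _ := by noncomm_ring

theorem unip_add_right {p q q' : ι → S} (h : q ⬝ᵥ p = 0) (h' : q' ⬝ᵥ p = 0)
    (h'' : (q + q') ⬝ᵥ p = 0) : unip p (q + q') h'' = unip p q h * unip p q' h' := by
  ext1
  have h1 : vecMulVec p q * vecMulVec p q' = 0 := by rw [vecMulVec_mul_vecMulVec, h]; simp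
  simp only [unip_val, Units.val_mul, vecMulVec_add]
  calc _ = 1 + vecMulVec p q + vecMulVec p q' + 0 := by abel
    _ = 1 + vecMulVec p q + vecMulVec p q' + vecMulVec p q * vecMulVec p q' := by rw [h1]
    _ = _ := by noncomm_ring

theorem unip_zero_left {q : ι → S} (h : q ⬝ᵥ (0 : ι → S) = 0) : unip 0 q h = 1 := by
  ext1; simp

theorem unip_zero_right {p : ι → S} (h : (0 : ι → S) ⬝ᵥ p = 0) : unip p 0 h = 1 := by
  ext1; simp

theorem unip_neg_left {p q : ι → S} (h : q ⬝ᵥ p = 0) (h' : q ⬝ᵥ (-p) = 0) :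
    unip (-p) q h' = (unip p q h)⁻¹ := by
  ext1; simp [neg_vecMulVec, sub_eq_add_neg]

/-- finite sums on the right -/
theorem unip_sum_right_mem {κ : Type*} (H : Subgroup (Matrix ι ι S)ˣ) (p : ι → S)
    (s : Finset κ) (f : κ → ι → S) (hz : ∀ k ∈ s, f k ⬝ᵥ p = 0)
    (hm : ∀ k (hk : k ∈ s), unip p (f k) (hz k hk) ∈ H)
    (h : (∑ k ∈ s, f k) ⬝ᵥ p = 0) : unip p (∑ k ∈ s, f k) h ∈ H := by
  classical
  revert hz hm h
  refine Finset.induction_on s ?_ ?_
  · intro hz hm h
    have : unip p (∑ k ∈ (∅ : Finset κ), f k) h = 1 := by ext1; simp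
    rw [this]; exact H.one_mem
  · intro a s ha ih hz hm h
    have hza : f a ⬝ᵥ p = 0 := hz a (Finset.mem_insert_self a s)
    have hzs : (∑ k ∈ s, f k) ⬝ᵥ p = 0 := by
      rw [sum_dotProduct]
      exact Finset.sum_eq_zero fun k hk => hz k (Finset.mem_insert_of_mem hk)
    have hh : unip p (∑ k ∈ insert a s, f k) h = unip p (f a) hza * unip p (∑ k ∈ s, f k) hzs := by
      rw [← unip_add_right hza hzs (by rw [add_dotProduct, hza, hzs, add_zero])]
      apply unip_ext
      rw [Finset.sum_insert ha]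
    rw [hh]
    exact H.mul_mem (hm a (Finset.mem_insert_self a s))
      (ih (fun k hk => hz k (Finset.mem_insert_of_mem hk))
        (fun k hk => hm k (Finset.mem_insert_of_mem hk)) hzs)

/-- finite sums on the left -/
theorem unip_sum_left_mem {κ : Type*} (H : Subgroup (Matrix ι ι S)ˣ) (q : ι → S)
    (s : Finset κ) (f : κ → ι → S) (hz : ∀ k ∈ s, q ⬝ᵥ f k = 0)
    (hm : ∀ k (hk : k ∈ s), unip (f k) q (hz k hk) ∈ H)
    (h : q ⬝ᵥ (∑ k ∈ s, f k) = 0) : unip (∑ k ∈ s, f k) q h ∈ H := by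
  classical
  revert hz hm h
  refine Finset.induction_on s ?_ ?_
  · intro hz hm h
    have : unip (∑ k ∈ (∅ : Finset κ), f k) q h = 1 := by ext1; simp
    rw [this]; exact H.one_mem
  · intro a s ha ih hz hm h
    have hza : q ⬝ᵥ f a = 0 := hz a (Finset.mem_insert_self a s)
    have hzs : q ⬝ᵥ (∑ k ∈ s, f k) = 0 := by
      rw [dotProduct_sum]
      exact Finset.sum_eq_zero fun k hk => hz k (Finset.mem_insert_of_mem hk)
    have hh : unip (∑ k ∈ insert a s, f k) q h = unip (f a) q hza * unip (∑ k ∈ s, f k) q hzs := by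
      rw [← unip_add_left hza hzs (by rw [dotProduct_add, hza, hzs, add_zero])]
      apply unip_ext
      rw [Finset.sum_insert ha]
    rw [hh]
    exact H.mul_mem (hm a (Finset.mem_insert_self a s))
      (ih (fun k hk => hz k (Finset.mem_insert_of_mem hk))
        (fun k hk => hm k (Finset.mem_insert_of_mem hk)) hzs)

/-- The group generated by elementary transvections with entry in `A`. -/
def EA (ι : Type*) [Fintype ι] [DecidableEq ι] {S : Type*} [Ring S] (A : AddSubgroup S) :
    Subgroup (Matrix ι ι S)ˣ :=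
  Subgroup.closure {g | ∃ i j : ι, i ≠ j ∧ ∃ r ∈ A, (g : Matrix ι ι S) = 1 + single i j r}

theorem vmv_single (i j : ι) (a b : S) :
    vecMulVec (Pi.single i a) (Pi.single j b) = single i j (a * b) := by
  ext k l
  simp only [vecMulVec_apply, Pi.single_apply, single_apply]
  by_cases h1 : k = i <;> by_cases h2 : l = j <;> simp [h1, h2, eq_comm]
  · exact fun h => absurd h.symm h2
  · exact fun h => absurd h.symm h1
  · exact fun h => absurd h.symm h1

theorem gen_mem_EA (A : AddSubgroup S) {i j : ι} (hij : i ≠ j) {a b : S} (h : a * b ∈ A)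
    (h0 : Pi.single j b ⬝ᵥ Pi.single i a = 0) :
    unip (Pi.single i a : ι → S) (Pi.single j b) h0 ∈ EA ι A :=
  Subgroup.subset_closure ⟨i, j, hij, a * b, h, by rw [unip_val, vmv_single]⟩

theorem EA_mono {A B : AddSubgroup S} (h : A ≤ B) : EA ι A ≤ EA ι B := by
  apply Subgroup.closure_mono
  rintro g ⟨i, j, hij, r, hr, hg⟩
  exact ⟨i, j, hij, r, h hr, hg⟩

theorem disj_dot {p q : ι → S} (hd : ∀ k, p k = 0 ∨ q k = 0) : q ⬝ᵥ p = 0 := by
  unfold dotProduct
  refine Finset.sum_eq_zero fun k _ => ?_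
  rcases hd k with h | h <;> simp [h]

/-- disjointly supported unipotents are elementary -/
theorem unip_disj_mem (A : AddSubgroup S) {p q : ι → S} (hd : ∀ k, p k = 0 ∨ q k = 0)
    (hA : ∀ k l, p k * q l ∈ A) (h : q ⬝ᵥ p = 0) : unip p q h ∈ EA ι A := by
  have hp : p = ∑ k, Pi.single k (p k) := by
    ext l; simp [Finset.sum_apply, Pi.single_apply]
  have hq : q = ∑ k, Pi.single k (q k) := by
    ext l; simp [Finset.sum_apply, Pi.single_apply]
  have hz : ∀ k ∈ (Finset.univ : Finset ι), q ⬝ᵥ (Pi.single k (p k) : ι → S) = 0 := by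
    intro k _
    rw [dotProduct_single]
    rcases hd k with h | h <;> simp [h]
  have key : unip (∑ k, (Pi.single k (p k) : ι → S)) q (by rw [← hp]; exact h) ∈ EA ι A := by
    refine unip_sum_left_mem (EA ι A) q Finset.univ _ hz ?_ _
    intro k hk
    have hz2 : ∀ l ∈ (Finset.univ : Finset ι),
        (Pi.single l (q l) : ι → S) ⬝ᵥ (Pi.single k (p k) : ι → S) = 0 := by
      intro l _
      rw [dotProduct_single]
      by_cases hkl : k = l
      · subst hkl; rcases hd k with h | h <;> simp [h]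
      · rw [Pi.single_apply, if_neg hkl, zero_mul]
    have key2 : unip (Pi.single k (p k) : ι → S) (∑ l, (Pi.single l (q l) : ι → S))
        (by rw [← hq]; exact hz k hk) ∈ EA ι A := by
      refine unip_sum_right_mem (EA ι A) _ Finset.univ _ hz2 ?_ _
      intro l hl
      by_cases hkl : k = l
      · subst hkl
        have : unip (Pi.single k (p k) : ι → S) (Pi.single k (q k)) (hz2 k hl) = 1 := by
          ext1
          rw [unip_val, vmv_single]
          rcases hd k with h | h <;> simp [h]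
        rw [this]; exact Subgroup.one_mem _
      · exact gen_mem_EA A hkl (hA k l) _
    convert key2 using 2
  convert key using 2

/-- the commutator identity -/
theorem unip_comm {p q : ι → S} {h : ι} (hqp : q ⬝ᵥ p = 0) (hp : p h = 0) (hq : q h = 0)
    (h1 : (Pi.single h 1 : ι → S) ⬝ᵥ p = 0) (h2 : q ⬝ᵥ (Pi.single h 1 : ι → S) = 0) :
    unip p q hqp = unip p (Pi.single h 1) h1 * unip (Pi.single h 1) q h2 *
      (unip p (Pi.single h 1) h1)⁻¹ * (unip (Pi.single h 1) q h2)⁻¹ := by
  ext1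
  simp only [Units.val_mul, unip_val, unip_inv_val]
  set X := vecMulVec p (Pi.single h 1 : ι → S) with hX
  set Y := vecMulVec (Pi.single h 1 : ι → S) q with hY
  have hXY : X * Y = vecMulVec p q := by
    rw [hX, hY, vecMulVec_mul_vecMulVec]; simp
  have hXX : X * X = 0 := vmv_sq h1
  have hYY : Y * Y = 0 := vmv_sq h2
  have hYX : Y * X = 0 := by
    rw [hX, hY, vecMulVec_mul_vecMulVec, hqp]; simp
  rw [← hXY]
  have e : (1 + X) * (1 + Y) * (1 - X) * (1 - Y)
      = 1 + X * Y - X * X - Y * Y - Y * X + Y*X*Y + X*X*Y - X*Y*X - X*Y*Y + X*(Y*X)*Y := by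
    noncomm_ring
  rw [e, mul_assoc X Y X, mul_assoc X Y Y, hXX, hYY, hYX]
  simp

/-- commutator membership: `1 + p q ∈ E(A)` if `q p = 0`, both vanish at `h`, and all entries
of `p`, `q` are in `A`. -/
theorem unip_mem_of_vanish (A : AddSubgroup S) {p q p' q' : ι → S} {h : ι} (hqp : q ⬝ᵥ p = 0)
    (e : vecMulVec p q = vecMulVec p' q') (hqp' : q' ⬝ᵥ p' = 0)
    (hp : p' h = 0) (hq : q' h = 0) (hpA : ∀ k, p' k ∈ A) (hqA : ∀ k, q' k ∈ A) :
    unip p q hqp ∈ EA ι A := by
  rw [unip_ext (h' := hqp') e]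
  have h1 : (Pi.single h 1 : ι → S) ⬝ᵥ p' = 0 := by simp [single_dotProduct, hp]
  have h2 : q' ⬝ᵥ (Pi.single h 1 : ι → S) = 0 := by simp [hq]
  rw [unip_comm hqp' hp hq h1 h2]
  have m1 : unip p' (Pi.single h 1) h1 ∈ EA ι A := by
    apply unip_disj_mem
    · intro k
      by_cases hk : k = h
      · left; rw [hk]; exact hp
      · right; rw [Pi.single_apply, if_neg hk]
    · intro k l
      by_cases hl : l = h
      · subst hl; simpa using hpA k
      · rw [Pi.single_apply, if_neg hl, mul_zero]; exact A.zero_mem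
  have m2 : unip (Pi.single h 1) q' h2 ∈ EA ι A := by
    apply unip_disj_mem
    · intro k
      by_cases hk : k = h
      · right; rw [hk]; exact hq
      · left; rw [Pi.single_apply, if_neg hk]
    · intro k l
      by_cases hk : k = h
      · subst hk; simpa using hqA l
      · rw [Pi.single_apply, if_neg hk, zero_mul]; exact A.zero_mem
  exact Subgroup.mul_mem _ (Subgroup.mul_mem _ (Subgroup.mul_mem _ m1 m2)
    (Subgroup.inv_mem _ m1)) (Subgroup.inv_mem _ m2)

end H40
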