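import Pool.Agent.H40.WGroup

set_option autoImplicit false
set_option linter.unusedSectionVars false
set_option linter.unusedSimpArgs false

namespace H40

open Matrix
open scoped commutatorElement

section group

variable {G : Type*} [Group G]

theorem conj_mem_of_perf (E : Subgroup G) (hperf : E ≤ ⁅E, E⁆) (g : G)
    (h : ∀ x ∈ E, ∀ y ∈ E, g * ⁅x, y⁆ * g⁻¹ ∈ E) : ∀ x ∈ E, g * x * g⁻¹ ∈ E := by
  intro x hx
  have hx' := hperf hx
  rw [Subgroup.commutator_def] at hx'
  refine Subgroup.closure_induction (p := fun x _ => g * x * g⁻¹ ∈ E) ?_ ?_ ?_ ?_ hx'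
  · rintro z ⟨a, ha, b, hb, rfl⟩
    exact h a ha b hb
  · rw [mul_one, mul_inv_cancel]; exact E.one_mem
  · intro x y _ _ hx hy
    have : g * (x * y) * g⁻¹ = (g * x * g⁻¹) * (g * y * g⁻¹) := by group
    rw [this]; exact E.mul_mem hx hy
  · intro x _ hx
    have : g * x⁻¹ * g⁻¹ = (g * x * g⁻¹)⁻¹ := by group
    rw [this]; exact E.inv_mem hx

/-- gluing lemma -/
theorem glue (Es E K : Subgroup G) [hEs : Es.Normal] [hK : K.Normal] (h1 : Es ≤ E)
    (h2 : ∀ e ∈ E, ∀ k ∈ K, k * e * k⁻¹ * e⁻¹ ∈ Es) (hperf : E ≤ ⁅E, E⁆)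
    (h : ∀ g : G, ∀ e ∈ E, ∃ e' ∈ E, ∃ k ∈ K, g * e * g⁻¹ = e' * k) : E.Normal := by
  constructor
  intro x hx g
  refine conj_mem_of_perf E hperf g ?_ x hx
  intro x hx y hy
  obtain ⟨e1, he1, k1, hk1, hx1⟩ := h g x hx
  obtain ⟨e2, he2, k2, hk2, hy1⟩ := h g y hy
  let π := QuotientGroup.mk' Es
  have hc : ∀ a b : G, b * a * b⁻¹ * a⁻¹ ∈ Es → Commute (π a) (π b) := by
    intro a b hab
    have : π (b * a * b⁻¹ * a⁻¹) = 1 := (QuotientGroup.eq_one_iff _).mpr hab
    simp only [map_mul, map_inv] at this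
    have h3 : π b * π a = π a * π b := by
      calc π b * π a = (π b * π a * (π b)⁻¹ * (π a)⁻¹) * (π a * π b) := by group
        _ = π a * π b := by rw [this, one_mul]
    exact h3.symm
  have hEK : ∀ e ∈ E, ∀ k ∈ K, Commute (π e) (π k) := fun e he k hk => hc e k (h2 e he k hk)
  have hE'K : ∀ e ∈ E, ∀ k ∈ K, Commute (π (g * e * g⁻¹)) (π k) := by
    intro e he k hk
    apply hc
    have hk' : g⁻¹ * k * g ∈ K := by
      have := hK.conj_mem k hk g⁻¹
      rwa [inv_inv] at this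
    have := hEs.conj_mem _ (h2 e he _ hk') g
    convert this using 1
    group
  have c1 := hEK e1 he1 k2 hk2
  have c2 := hEK e2 he2 k1 hk1
  have c11 := hEK e1 he1 k1 hk1
  have c22 := hEK e2 he2 k2 hk2
  have c3 : Commute (π k1) (π k2) := by
    have h4 := hE'K x hx k2 hk2
    rw [hx1, map_mul] at h4
    have : π k1 = (π e1)⁻¹ * (π e1 * π k1) := by group
    rw [this]
    exact (c1.inv_left).mul_left h4
  have key : π (g * ⁅x, y⁆ * g⁻¹) = π ⁅e1, e2⁆ := by
    have : g * ⁅x, y⁆ * g⁻¹ = ⁅g * x * g⁻¹, g * y * g⁻¹⁆ := by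
      simp only [commutatorElement_def]; group
    rw [this, hx1, hy1]
    simp only [commutatorElement_def, map_mul, map_inv]
    have a1 : π e1 * π k1 * (π e2 * π k2) = (π e1 * π e2) * (π k1 * π k2) := by
      rw [mul_assoc, ← mul_assoc (π k1), c2.symm.eq]; simp only [mul_assoc]
    have a2 : (π e1 * π k1)⁻¹ * (π e2 * π k2)⁻¹ = (π k1 * π k2)⁻¹ * ((π e1)⁻¹ * (π e2)⁻¹) := by
      rw [← _root_.mul_inv_rev, ← _root_.mul_inv_rev, ← _root_.mul_inv_rev]
      congr 1
      calc π e2 * π k2 * (π e1 * π k1) = π e2 * (π k2 * π e1) * π k1 := by group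
        _ = π e2 * (π e1 * π k2) * π k1 := by rw [c1.eq]
        _ = π e2 * π e1 * (π k2 * π k1) := by group
        _ = π e2 * π e1 * (π k1 * π k2) := by rw [c3.eq]
    calc π e1 * π k1 * (π e2 * π k2) * (π e1 * π k1)⁻¹ * (π e2 * π k2)⁻¹
        = (π e1 * π k1 * (π e2 * π k2)) * ((π e1 * π k1)⁻¹ * (π e2 * π k2)⁻¹) := by group
      _ = ((π e1 * π e2) * (π k1 * π k2)) * ((π k1 * π k2)⁻¹ * ((π e1)⁻¹ * (π e2)⁻¹)) := by
          rw [a1, a2]
      _ = _ := by group
  have hmem : ⁅e1, e2⁆ ∈ E := by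
    rw [commutatorElement_def]
    exact E.mul_mem (E.mul_mem (E.mul_mem he1 he2) (E.inv_mem he1)) (E.inv_mem he2)
  have h5 : (⁅e1, e2⁆)⁻¹ * (g * ⁅x, y⁆ * g⁻¹) ∈ Es := QuotientGroup.eq.mp key.symm
  have h6 : g * ⁅x, y⁆ * g⁻¹ = ⁅e1, e2⁆ * ((⁅e1, e2⁆)⁻¹ * (g * ⁅x, y⁆ * g⁻¹)) := by group
  rw [h6]
  exact E.mul_mem hmem (h1 h5)

/-- the second gluing lemma, for a normalizing family with commutators in `E` -/
theorem glue2 (E : Subgroup G) (D : Set G) (hperf : E ≤ ⁅E, E⁆)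
    (hD : ∀ δ ∈ D, ∀ e ∈ E, δ * e * δ⁻¹ ∈ E)
    (hDD : ∀ δ ∈ D, ∀ ε ∈ D, δ * ε * δ⁻¹ * ε⁻¹ ∈ E)
    (h : ∀ g : G, ∀ e ∈ E, ∃ e' ∈ E, ∃ δ ∈ D, g * e * g⁻¹ = e' * δ) : E.Normal := by
  constructor
  intro x hx g
  refine conj_mem_of_perf E hperf g ?_ x hx
  intro x hx y hy
  obtain ⟨e1, he1, k1, hk1, hx1⟩ := h g x hx
  obtain ⟨e2, he2, k2, hk2, hy1⟩ := h g y hy
  have : g * ⁅x, y⁆ * g⁻¹ = ⁅g * x * g⁻¹, g * y * g⁻¹⁆ := by
    simp only [commutatorElement_def]; group
  rw [this, hx1, hy1]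
  have e : ⁅e1 * k1, e2 * k2⁆ = e1 * (k1 * e2 * k1⁻¹) * (k1 * k2 * k1⁻¹ * k2⁻¹) *
      (k2 * e1⁻¹ * k2⁻¹) * e2⁻¹ := by
    simp only [commutatorElement_def]; group
  rw [e]
  exact E.mul_mem (E.mul_mem (E.mul_mem (E.mul_mem he1 (hD k1 hk1 e2 he2)) (hDD k1 hk1 k2 hk2))
    (hD k2 hk2 _ (E.inv_mem he1))) (E.inv_mem he2)

end group

variable {ι : Type*} [Fintype ι] [DecidableEq ι]

theorem te_mem_EA {S : Type*} [Ring S] {A : AddSubgroup S} {i j : ι} (hij : i ≠ j) {r : S}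
    (hr : r ∈ A) : te i j hij r ∈ EA ι A :=
  Subgroup.subset_closure ⟨i, j, hij, r, hr, te_val i j hij r⟩

theorem te_comm {S : Type*} [Ring S] {i j h : ι} (hij : i ≠ j) (hih : i ≠ h) (hhj : h ≠ j)
    (r : S) : te i j hij r = ⁅te i h hih (1 : S), te h j hhj r⁆ := by
  rw [commutatorElement_def]
  exact unip_comm (single_dot_single hij 1 r) (by rw [Pi.single_apply, if_neg hih.symm])
    (by rw [Pi.single_apply, if_neg hhj]) (single_dot_single hih 1 1)
    (single_dot_single hhj 1 r)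

theorem EA_perf {S : Type*} [Ring S] (h3 : ∀ i l : ι, ∃ h : ι, h ≠ i ∧ h ≠ l) :
    EA ι (⊤ : AddSubgroup S) ≤ ⁅EA ι (⊤ : AddSubgroup S), EA ι (⊤ : AddSubgroup S)⁆ := by
  conv_lhs => unfold EA
  rw [Subgroup.closure_le]
  rintro g ⟨i, j, hij, r, -, hg⟩
  have : g = te i j hij r := by ext1; rw [hg, te_val]
  rw [this]
  obtain ⟨h, hhi, hhj⟩ := h3 i j
  rw [te_comm hij hhi.symm hhj r]
  exact Subgroup.commutator_mem_commutator (te_mem_EA _ (AddSubgroup.mem_top _))
    (te_mem_EA _ (AddSubgroup.mem_top _))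

section maps

variable {R R' : Type*} [Ring R] [Ring R']

/-- the induced map on invertible matrices -/
def FM (ι : Type*) [Fintype ι] [DecidableEq ι] {R R' : Type*} [Ring R] [Ring R'] (f : R →+* R') :
    (Matrix ι ι R)ˣ →* (Matrix ι ι R')ˣ :=
  Units.map (f.mapMatrix : Matrix ι ι R →+* Matrix ι ι R').toMonoidHom

theorem FM_apply (f : R →+* R') (g : (Matrix ι ι R)ˣ) (a b : ι) :
    ((FM ι f g : (Matrix ι ι R')ˣ) : Matrix ι ι R') a b = f ((g : Matrix ι ι R) a b) := rfl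

theorem FM_te (f : R →+* R') {i j : ι} (hij : i ≠ j) (r : R) :
    FM ι f (te i j hij r) = te i j hij (f r) := by
  ext a b
  rw [FM_apply, te_val, te_val]
  simp only [Matrix.add_apply, map_add, Matrix.single_apply, Matrix.one_apply]
  split_ifs <;> simp

theorem FM_EA (f : R →+* R') {A : AddSubgroup R} {B : AddSubgroup R'} (h : ∀ a ∈ A, f a ∈ B)
    {x : (Matrix ι ι R)ˣ} (hx : x ∈ EA ι A) : FM ι f x ∈ EA ι B := by
  unfold EA at hx
  refine Subgroup.closure_induction (p := fun x _ => FM ι f x ∈ EA ι B) ?_ ?_ ?_ ?_ hx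
  · rintro x ⟨i, j, hij, r, hr, hx⟩
    have : x = te i j hij r := by ext1; rw [hx, te_val]
    rw [this, FM_te]
    exact te_mem_EA hij (h r hr)
  · rw [map_one]; exact Subgroup.one_mem _
  · intro x y _ _ hx hy
    rw [map_mul]; exact Subgroup.mul_mem _ hx hy
  · intro x _ hx
    rw [map_inv]; exact Subgroup.inv_mem _ hx

theorem exists_FM_EA (f : R →+* R') {A : AddSubgroup R} {B : AddSubgroup R'}
    (h : ∀ b ∈ B, ∃ a ∈ A, f a = b)
    {x : (Matrix ι ι R')ˣ} (hx : x ∈ EA ι B) : ∃ y ∈ EA ι A, FM ι f y = x := by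
  unfold EA at hx
  refine Subgroup.closure_induction (p := fun x _ => ∃ y ∈ EA ι A, FM ι f y = x) ?_ ?_ ?_ ?_ hx
  · rintro x ⟨i, j, hij, r, hr, hx⟩
    have : x = te i j hij r := by ext1; rw [hx, te_val]
    obtain ⟨a, ha, rfl⟩ := h r hr
    exact ⟨te i j hij a, te_mem_EA hij ha, by rw [this, FM_te]⟩
  · exact ⟨1, Subgroup.one_mem _, map_one _⟩
  · rintro x y _ _ ⟨x', hx', rfl⟩ ⟨y', hy', rfl⟩
    exact ⟨x' * y', Subgroup.mul_mem _ hx' hy', map_mul _ _ _⟩
  · rintro x _ ⟨x', hx', rfl⟩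
    exact ⟨x'⁻¹, Subgroup.inv_mem _ hx', map_inv _ _⟩

theorem exists_mul_ker (f : R →+* R') (hf : Function.Surjective f)
    (hN : (EA ι (⊤ : AddSubgroup R')).Normal) (g : (Matrix ι ι R)ˣ) {e : (Matrix ι ι R)ˣ}
    (he : e ∈ EA ι (⊤ : AddSubgroup R)) :
    ∃ e' ∈ EA ι (⊤ : AddSubgroup R), ∃ k : (Matrix ι ι R)ˣ, FM ι f k = 1 ∧
      g * e * g⁻¹ = e' * k := by
  have h1 : FM ι f (g * e * g⁻¹) ∈ EA ι (⊤ : AddSubgroup R') := by
    rw [map_mul, map_mul, map_inv]
    exact hN.conj_mem _ (FM_EA f (fun _ _ => AddSubgroup.mem_top _) he) _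
  obtain ⟨e', he', hee⟩ := exists_FM_EA f (A := (⊤ : AddSubgroup R))
    (fun b _ => by obtain ⟨a, ha⟩ := hf b; exact ⟨a, trivial, ha⟩) h1
  refine ⟨e', he', e'⁻¹ * (g * e * g⁻¹), ?_, by group⟩
  rw [map_mul, map_inv, hee, inv_mul_cancel]

end maps

section diag

variable {R : Type*} [Ring R]

/-- invertible diagonal matrices -/
def dg (ι : Type*) [Fintype ι] [DecidableEq ι] (R : Type*) [Ring R] :
    (ι → Rˣ) →* (Matrix ι ι R)ˣ where
  toFun u :=
    { val := diagonal (fun i => (u i : R))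
      inv := diagonal (fun i => ((u i)⁻¹ : Rˣ))
      val_inv := by rw [diagonal_mul_diagonal]; simp
      inv_val := by rw [diagonal_mul_diagonal]; simp }
  map_one' := by ext1; simp
  map_mul' := by intro u v; ext1; simp [diagonal_mul_diagonal]

theorem dg_val (u : ι → Rˣ) :
    ((dg ι R u : (Matrix ι ι R)ˣ) : Matrix ι ι R) = diagonal (fun i => (u i : R)) := rfl

theorem dg_te (u : ι → Rˣ) {i j : ι} (hij : i ≠ j) (r : R) :
    dg ι R u * te i j hij r * (dg ι R u)⁻¹ = te i j hij (u i * r * ((u j)⁻¹ : Rˣ)) := by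
  rw [mul_inv_eq_iff_eq_mul]
  ext a b
  simp only [Units.val_mul, te_val, dg_val]
  rw [diagonal_mul, mul_diagonal]
  simp only [Matrix.add_apply, Matrix.single_apply, Matrix.one_apply]
  by_cases h1 : a = b
  · subst h1
    by_cases h2 : i = a
    · subst h2
      simp [hij.symm]
    · simp [h2]
  · by_cases h2 : i = a ∧ j = b
    · obtain ⟨rfl, rfl⟩ := h2
      simp [hij, mul_assoc]
    · simp [h1, h2]

theorem dg_conj_EA (u : ι → Rˣ) {e : (Matrix ι ι R)ˣ} (he : e ∈ EA ι (⊤ : AddSubgroup R)) :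
    dg ι R u * e * (dg ι R u)⁻¹ ∈ EA ι (⊤ : AddSubgroup R) := by
  unfold EA at he
  refine Subgroup.closure_induction (p := fun x _ => dg ι R u * x * (dg ι R u)⁻¹ ∈
    EA ι (⊤ : AddSubgroup R)) ?_ ?_ ?_ ?_ he
  · rintro x ⟨i, j, hij, r, hr, hx⟩
    have : x = te i j hij r := by ext1; rw [hx, te_val]
    rw [this, dg_te]
    exact te_mem_EA hij (AddSubgroup.mem_top _)
  · rw [mul_one, mul_inv_cancel]; exact Subgroup.one_mem _
  · intro x y _ _ hx hy
    have : dg ι R u * (x * y) * (dg ι R u)⁻¹ =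
        (dg ι R u * x * (dg ι R u)⁻¹) * (dg ι R u * y * (dg ι R u)⁻¹) := by group
    rw [this]; exact Subgroup.mul_mem _ hx hy
  · intro x _ hx
    have : dg ι R u * x⁻¹ * (dg ι R u)⁻¹ = (dg ι R u * x * (dg ι R u)⁻¹)⁻¹ := by group
    rw [this]; exact Subgroup.inv_mem _ hx

theorem wval {i j : ι} (hij : i ≠ j) (a : Rˣ) :
    ((te i j hij (a : R) * te j i hij.symm (-((a⁻¹ : Rˣ) : R)) * te i j hij (a : R) :
      (Matrix ι ι R)ˣ) : Matrix ι ι R) =
    1 + single i j (a : R) - single j i ((a⁻¹ : Rˣ) : R) - single i i 1 - single j j 1 := by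
  simp only [Units.val_mul, te_val]
  have e : single j i (-((a⁻¹ : Rˣ) : R)) = - single j i ((a⁻¹ : Rˣ) : R) := by
    rw [single_neg]
  rw [e]
  set X : Matrix ι ι R := single i j (a : R) with hX
  set Y : Matrix ι ι R := single j i ((a⁻¹ : Rˣ) : R) with hY
  have h1 : X * Y = single i i 1 := by rw [hX, hY, single_mul_single_same]; simp
  have h2 : Y * X = single j j 1 := by rw [hX, hY, single_mul_single_same]; simp
  have h3 : X * X = 0 := by rw [hX, single_mul_single_of_ne]; exact hij.symm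
  have h4 : X * Y * X = X := by
    rw [h1, hX, single_mul_single_same, one_mul]
  rw [← h1, ← h2]
  calc (1 + X) * (1 + -Y) * (1 + X) = 1 + X - Y - X * Y - Y * X + (X + X * X) - X * Y * X := by
        noncomm_ring
    _ = _ := by rw [h3, h4]; abel

theorem whitehead {i j : ι} (hij : i ≠ j) (a : Rˣ) :
    dg ι R (Pi.mulSingle i a * (Pi.mulSingle j a)⁻¹) ∈ EA ι (⊤ : AddSubgroup R) := by
  have key : dg ι R (Pi.mulSingle i a * (Pi.mulSingle j a)⁻¹) =
      (te i j hij (a : R) * te j i hij.symm (-((a⁻¹ : Rˣ) : R)) * te i j hij (a : R)) *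
      (te i j hij (((-1 : Rˣ)) : R) * te j i hij.symm (-(((-1 : Rˣ)⁻¹ : Rˣ) : R)) *
        te i j hij (((-1 : Rˣ)) : R)) := by
    ext1
    rw [Units.val_mul, wval hij a, wval hij (-1), dg_val]
    have e1 : (diagonal (fun k => (((Pi.mulSingle i a * (Pi.mulSingle j a)⁻¹ : ι → Rˣ) k : Rˣ) : R))
        : Matrix ι ι R) = 1 + single i i ((a : R) - 1) + single j j (((a⁻¹ : Rˣ) : R) - 1) := by
      ext k l
      simp only [diagonal_apply, Matrix.add_apply, Matrix.one_apply, single_apply, Pi.mul_apply,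
        Pi.inv_apply]
      by_cases hkl : k = l
      · subst hkl
        by_cases hk : k = i
        · subst hk
          simp [hij, hij.symm]
        · by_cases hk' : k = j
          · subst hk'
            simp [hij, hij.symm, hk]
          · simp [hk, hk', Ne.symm hk, Ne.symm hk', Pi.mulSingle_eq_of_ne]
      · have h1 : ¬ (i = k ∧ i = l) := fun h => hkl (h.1.symm.trans h.2)
        have h2 : ¬ (j = k ∧ j = l) := fun h => hkl (h.1.symm.trans h.2)
        simp [hkl, h1, h2]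
    rw [e1]
    have f1 : single i i ((a : R) - 1) = (single i i (a : R) : Matrix ι ι R) - single i i 1 := by
      rw [sub_eq_add_neg, single_add, ← single_neg, ← sub_eq_add_neg]
    have f2 : single j j (((a⁻¹ : Rˣ) : R) - 1) =
        (single j j ((a⁻¹ : Rˣ) : R) : Matrix ι ι R) - single j j 1 := by
      rw [sub_eq_add_neg, single_add, ← single_neg, ← sub_eq_add_neg]
    rw [f1, f2]
    have g1 : (((-1 : Rˣ)) : R) = -1 := by simp
    have g2 : ((((-1 : Rˣ))⁻¹ : Rˣ) : R) = -1 := by simp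
    have g3 : single i j ((((-1 : Rˣ)) : R)) = - (single i j 1 : Matrix ι ι R) := by
      rw [g1, single_neg]
    have g4 : single j i ((((-1 : Rˣ))⁻¹ : Rˣ) : R) = - (single j i 1 : Matrix ι ι R) := by
      rw [g2, single_neg]
    rw [g3, g4]
    have tXX1 : (single i j (a : R) : Matrix ι ι R) * single i j 1 = 0 :=
      single_mul_single_of_ne _ _ _ _ hij.symm _
    have tXY1 : (single i j (a : R) : Matrix ι ι R) * single j i 1 = single i i (a : R) := by
      rw [single_mul_single_same, mul_one]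
    have tXP : (single i j (a : R) : Matrix ι ι R) * single i i 1 = 0 :=
      single_mul_single_of_ne _ _ _ _ hij.symm _
    have tXQ : (single i j (a : R) : Matrix ι ι R) * single j j 1 = single i j (a : R) := by
      rw [single_mul_single_same, mul_one]
    have tYX1 : (single j i ((a⁻¹ : Rˣ) : R) : Matrix ι ι R) * single i j 1 =
        single j j ((a⁻¹ : Rˣ) : R) := by
      rw [single_mul_single_same, mul_one]
    have tYY1 : (single j i ((a⁻¹ : Rˣ) : R) : Matrix ι ι R) * single j i 1 = 0 :=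
      single_mul_single_of_ne _ _ _ _ hij _
    have tYP : (single j i ((a⁻¹ : Rˣ) : R) : Matrix ι ι R) * single i i 1 =
        single j i ((a⁻¹ : Rˣ) : R) := by
      rw [single_mul_single_same, mul_one]
    have tYQ : (single j i ((a⁻¹ : Rˣ) : R) : Matrix ι ι R) * single j j 1 = 0 :=
      single_mul_single_of_ne _ _ _ _ hij _
    have tPX1 : (single i i (1 : R) : Matrix ι ι R) * single i j 1 = single i j 1 := by
      rw [single_mul_single_same, mul_one]
    have tPY1 : (single i i (1 : R) : Matrix ι ι R) * single j i 1 = 0 :=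
      single_mul_single_of_ne _ _ _ _ hij _
    have tPP : (single i i (1 : R) : Matrix ι ι R) * single i i 1 = single i i 1 := by
      rw [single_mul_single_same, mul_one]
    have tPQ : (single i i (1 : R) : Matrix ι ι R) * single j j 1 = 0 :=
      single_mul_single_of_ne _ _ _ _ hij _
    have tQX1 : (single j j (1 : R) : Matrix ι ι R) * single i j 1 = 0 :=
      single_mul_single_of_ne _ _ _ _ hij.symm _
    have tQY1 : (single j j (1 : R) : Matrix ι ι R) * single j i 1 = single j i 1 := by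
      rw [single_mul_single_same, mul_one]
    have tQP : (single j j (1 : R) : Matrix ι ι R) * single i i 1 = 0 :=
      single_mul_single_of_ne _ _ _ _ hij.symm _
    have tQQ : (single j j (1 : R) : Matrix ι ι R) * single j j 1 = single j j 1 := by
      rw [single_mul_single_same, mul_one]
    rw [show ∀ X Y P Q X1 Y1 : Matrix ι ι R, (1 + X - Y - P - Q) * (1 + -X1 - -Y1 - P - Q) =
      1 - X1 + Y1 - P - Q + X - X*X1 + X*Y1 - X*P - X*Q - Y + Y*X1 - Y*Y1 + Y*P + Y*Q - P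
        + P*X1 - P*Y1 + P*P + P*Q - Q + Q*X1 - Q*Y1 + Q*P + Q*Q from
        fun X Y P Q X1 Y1 => by noncomm_ring]
    rw [tXX1, tXY1, tXP, tXQ, tYX1, tYY1, tYP, tYQ, tPX1, tPY1, tPP, tPQ, tQX1, tQY1, tQP, tQQ]
    abel
  rw [key]
  have ht : ∀ {i j : ι} (hij : i ≠ j) (r : R), te i j hij r ∈ EA ι (⊤ : AddSubgroup R) :=
    fun hij r => te_mem_EA hij (AddSubgroup.mem_top _)
  exact Subgroup.mul_mem _ (Subgroup.mul_mem _ (Subgroup.mul_mem _ (ht _ _)
    (ht _ _)) (ht _ _)) (Subgroup.mul_mem _ (Subgroup.mul_mem _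
    (ht _ _) (ht _ _)) (ht _ _))

theorem dg_comm_mem (h3 : ∀ i l : ι, ∃ h : ι, h ≠ i ∧ h ≠ l) (u v : ι → Rˣ) :
    dg ι R u * dg ι R v * (dg ι R u)⁻¹ * (dg ι R v)⁻¹ ∈ EA ι (⊤ : AddSubgroup R) := by
  have e : dg ι R u * dg ι R v * (dg ι R u)⁻¹ * (dg ι R v)⁻¹ = dg ι R (u * v * u⁻¹ * v⁻¹) := by
    simp only [map_mul, map_inv]
  rw [e]
  have : (u * v * u⁻¹ * v⁻¹) ∈ (EA ι (⊤ : AddSubgroup R)).comap (dg ι R) := by
    apply Subgroup.pi_mem_of_mulSingle_mem
    intro i
    obtain ⟨j, hji, -⟩ := h3 i i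
    obtain ⟨h, hhi, hhj⟩ := h3 i j
    have e2 : (Pi.mulSingle i ((u * v * u⁻¹ * v⁻¹) i) : ι → Rˣ) =
        (Pi.mulSingle i (u i) * (Pi.mulSingle j (u i))⁻¹) *
        (Pi.mulSingle i (v i) * (Pi.mulSingle h (v i))⁻¹) *
        (Pi.mulSingle i (u i) * (Pi.mulSingle j (u i))⁻¹)⁻¹ *
        (Pi.mulSingle i (v i) * (Pi.mulSingle h (v i))⁻¹)⁻¹ := by
      funext k
      simp only [Pi.mul_apply, Pi.inv_apply]
      by_cases hk : k = i
      · subst hk
        simp [hji.symm, hhi.symm]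
      · by_cases hk2 : k = j
        · subst hk2
          simp [hk, hhj.symm]
        · by_cases hk3 : k = h
          · subst hk3
            simp [hk, hk2]
          · simp [hk, hk2, hk3]
    rw [e2]
    exact Subgroup.mul_mem _ (Subgroup.mul_mem _ (Subgroup.mul_mem _
      (whitehead hji.symm (u i)) (whitehead hhi.symm (v i)))
      (Subgroup.inv_mem _ (whitehead hji.symm (u i)))) (Subgroup.inv_mem _
      (whitehead hhi.symm (v i)))
  exact this

end diag

section jac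

variable {R R' : Type*} [Ring R] [Ring R']

theorem elim (f : R →+* R') (hker : ∀ x, f x = 0 → IsUnit (1 + x)) (k : (Matrix ι ι R)ˣ)
    (hk : FM ι f k = 1) (s : Finset ι) :
    ∃ e ∈ EA ι (⊤ : AddSubgroup R), FM ι f (e * k) = 1 ∧
      ∀ i ∈ s, ∀ l, l ≠ i → ((e * k : (Matrix ι ι R)ˣ) : Matrix ι ι R) l i = 0 := by
  induction s using Finset.induction_on with
  | empty => exact ⟨1, Subgroup.one_mem _, by rw [one_mul]; exact hk, by simp⟩
  | insert j s hj ih =>
    obtain ⟨e, he, h1, h2⟩ := ih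
    set k' := e * k with hk'
    have hf1 : ∀ a b, f ((k' : Matrix ι ι R) a b) = (1 : Matrix ι ι R') a b := by
      intro a b
      rw [← FM_apply, h1]; rfl
    have hu : IsUnit ((k' : Matrix ι ι R) j j) := by
      have := hker ((k' : Matrix ι ι R) j j - 1) (by rw [map_sub, hf1]; simp)
      rwa [add_sub_cancel] at this
    obtain ⟨c, hc⟩ := hu
    let t : ι → R := fun l => if l = j then 0 else -((k' : Matrix ι ι R) l j) * ((c⁻¹ : Rˣ) : R)
    have hd : (Pi.single j 1 : ι → R) ⬝ᵥ t = 0 := by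
      rw [single_dotProduct]; simp [t]
    have hft : ∀ a, f (t a) = 0 := by
      intro a
      by_cases ha : a = j
      · simp [t, ha]
      · simp only [t, if_neg ha]
        rw [map_mul, map_neg, hf1, one_apply_ne ha]; simp
    let e' : (Matrix ι ι R)ˣ := unip t (Pi.single j 1) hd
    have he' : e' ∈ EA ι (⊤ : AddSubgroup R) := by
      apply unip_disj_mem
      · intro l
        by_cases hl : l = j
        · left; simp [t, hl]
        · right; rw [Pi.single_apply, if_neg hl]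
      · intro _ _; trivial
    have hval : ∀ a b, ((e' * k' : (Matrix ι ι R)ˣ) : Matrix ι ι R) a b =
        (k' : Matrix ι ι R) a b + t a * (k' : Matrix ι ι R) j b := by
      intro a b
      rw [Units.val_mul]
      show ((1 + vecMulVec t (Pi.single j 1)) * (k' : Matrix ι ι R)) a b = _
      rw [add_mul, one_mul, Matrix.add_apply, vecMulVec_mul, vecMulVec_apply]
      simp
    refine ⟨e' * e, Subgroup.mul_mem _ he' he, ?_, ?_⟩
    · rw [mul_assoc, ← hk']
      ext a b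
      rw [FM_apply, hval, map_add, map_mul, hft, zero_mul, add_zero, hf1]
      rfl
    · intro i hi l hl
      rw [mul_assoc, ← hk', hval]
      rcases Finset.mem_insert.mp hi with rfl | his
      · simp only [t, if_neg hl]
        rw [← hc, mul_assoc, Units.inv_mul, mul_one, add_neg_cancel]
      · have hji : j ≠ i := fun h => hj (h ▸ his)
        rw [h2 i his l hl, h2 i his j hji, mul_zero, add_zero]

theorem eq_dg (k : (Matrix ι ι R)ˣ) (hk : ∀ i l, l ≠ i → (k : Matrix ι ι R) l i = 0) :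
    ∃ u : ι → Rˣ, k = dg ι R u := by
  have h0 : (k : Matrix ι ι R) = diagonal (fun i => (k : Matrix ι ι R) i i) := by
    ext a b
    by_cases hab : a = b
    · subst hab; simp
    · rw [diagonal_apply_ne _ hab]; exact hk b a hab
  have h1 : ∀ a, (k : Matrix ι ι R) a a * ((k⁻¹ : (Matrix ι ι R)ˣ) : Matrix ι ι R) a a = 1 := by
    intro a
    have := congrFun (congrFun (Units.mul_inv k) a) a
    rw [h0, diagonal_mul, one_apply_eq] at this
    simpa using this
  have h2 : ∀ a, ((k⁻¹ : (Matrix ι ι R)ˣ) : Matrix ι ι R) a a * (k : Matrix ι ι R) a a = 1 := by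
    intro a
    have := congrFun (congrFun (Units.inv_mul k) a) a
    rw [h0, mul_diagonal, one_apply_eq] at this
    simpa using this
  refine ⟨fun a => ⟨_, _, h1 a, h2 a⟩, ?_⟩
  ext1
  rw [dg_val]
  exact h0

theorem jac_lift (h3 : ∀ i l : ι, ∃ h : ι, h ≠ i ∧ h ≠ l) (f : R →+* R')
    (hf : Function.Surjective f) (hker : ∀ x, f x = 0 → IsUnit (1 + x))
    (hN : (EA ι (⊤ : AddSubgroup R')).Normal) : (EA ι (⊤ : AddSubgroup R)).Normal := by
  refine glue2 (EA ι (⊤ : AddSubgroup R)) (Set.range (dg ι R)) (EA_perf h3) ?_ ?_ ?_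
  · rintro _ ⟨u, rfl⟩ e he
    exact dg_conj_EA u he
  · rintro _ ⟨u, rfl⟩ _ ⟨v, rfl⟩
    exact dg_comm_mem h3 u v
  · intro g e he
    obtain ⟨e', he', k, hk, hgk⟩ := exists_mul_ker f hf hN g he
    obtain ⟨e2, he2, -, hk2⟩ := elim f hker k hk Finset.univ
    obtain ⟨u, hu⟩ := eq_dg (e2 * k) (fun i l hl => hk2 i (Finset.mem_univ i) l hl)
    refine ⟨e' * e2⁻¹, Subgroup.mul_mem _ he' (Subgroup.inv_mem _ he2), dg ι R u, ⟨u, rfl⟩, ?_⟩
    rw [hgk, ← hu]; group

end jac

end H40
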