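import Pool.Agent.H40.Local

set_option autoImplicit false
set_option linter.unusedSectionVars false

namespace H40

open Module

variable {T S : Type*} [CommRing T] [Ring S] [Algebra T S]

open Classical in
/-- making a combination act bijectively on one simple module -/
theorem exists_bij_comb {V : Type*} [AddCommGroup V] [Module S V] [IsSimpleModule S V]
    [Module.Finite (Module.End S V) V] {ι : Type*} [Fintype ι] [DecidableEq ι]
    (v u : ι → S) (huv : ∑ k, u k * v k = 1) (i : ι) :
    ∃ t : ι → S, Function.Bijective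
      (fun x : V => (v i + ∑ k ∈ Finset.univ.erase i, t k * v k) • x) := by
  let f : V →ₗ[Module.End S V] V := Module.toModuleEnd (Module.End S V) (S := S) V (v i)
  let g : V →ₗ[Module.End S V] (ι → V) :=
    LinearMap.pi (fun k => if k = i then 0 else
      Module.toModuleEnd (Module.End S V) (S := S) V (v k))
  have hg : ∀ x k, k ≠ i → g x k = v k • x := by
    intro x k hk
    simp only [g, LinearMap.pi_apply, if_neg hk]
    rfl
  have hgi : ∀ x, g x i = 0 := by
    intro x
    simp [g]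
  obtain ⟨φ, hφ⟩ := exists_bij f g (by
    intro x hfx hgx
    have h1 : ∀ k, v k • x = 0 := by
      intro k
      by_cases hk : k = i
      · rw [hk]; exact hfx
      · rw [← hg x k hk, hgx]; rfl
    calc x = (∑ k, u k * v k) • x := by rw [huv, one_smul]
      _ = 0 := by
        rw [Finset.sum_smul]
        exact Finset.sum_eq_zero fun k _ => by rw [mul_smul, h1, smul_zero])
  have h2 : ∀ k, ∃ t : S, ∀ y : V, t • y = φ (Pi.single k y) := by
    intro k
    obtain ⟨t, ht⟩ := Module.Finite.toModuleEnd_moduleEnd_surjective (R := S) (M := V)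
      (φ ∘ₗ LinearMap.single (Module.End S V) (fun _ : ι => V) k)
    refine ⟨t, fun y => ?_⟩
    exact congrArg (fun g => g y) ht
  choose t ht using h2
  refine ⟨t, ?_⟩
  have h3 : (fun x : V => (v i + ∑ k ∈ Finset.univ.erase i, t k * v k) • x) = ⇑(f + φ ∘ₗ g) := by
    funext x
    rw [add_smul, Finset.sum_smul]
    show _ = f x + φ (g x)
    congr 1
    have h4 : g x = ∑ k, Pi.single k (g x k) := (Finset.univ_sum_single (g x)).symm
    rw [h4, map_sum, ← Finset.sum_erase_add _ _ (Finset.mem_univ i), hgi, Pi.single_zero, map_zero,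
      add_zero]
    refine Finset.sum_congr rfl fun k hk => ?_
    rw [mul_smul, ht, hg x k (Finset.ne_of_mem_erase hk)]
  rw [h3]; exact hφ

theorem mem_of_mem_ann {z : Ideal S} {x : S} (h : x ∈ Module.annihilator S (S ⧸ z)) : x ∈ z := by
  rw [Module.mem_annihilator] at h
  have := h (Submodule.Quotient.mk 1)
  rw [← Submodule.Quotient.mk_smul, smul_eq_mul, mul_one, Submodule.Quotient.mk_eq_zero] at this
  exact this

theorem central_mem_ann {z : Ideal S} {t : T} (h : algebraMap T S t ∈ z) :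
    algebraMap T S t ∈ Module.annihilator S (S ⧸ z) := by
  rw [Module.mem_annihilator]
  intro x
  obtain ⟨y, rfl⟩ := Submodule.Quotient.mk_surjective z x
  rw [← Submodule.Quotient.mk_smul, smul_eq_mul, Algebra.commutes, Submodule.Quotient.mk_eq_zero]
  exact z.mul_mem_left _ h

open Classical in
/-- the main local statement: existence of pivots -/
theorem exists_pivot {d : ℕ} (hd : 0 < d) {c : Equiv.Perm (Fin d) → ℤ} (hc : c 1 = 1)
    (hS : MulId S d c) {M : ℕ} (hInt : IntBdd T S M) (m : Ideal T) [hm : m.IsMaximal]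
    {ι : Type*} [Fintype ι] [DecidableEq ι] (v u : ι → S) (huv : ∑ k, u k * v k = 1) (i : ι) :
    ∃ (t : ι → S) (as : S) (τ : T), τ ∉ m ∧
      (v i + ∑ k ∈ Finset.univ.erase i, t k * v k) * as = algebraMap T S τ ∧
      as * (v i + ∑ k ∈ Finset.univ.erase i, t k * v k) = algebraMap T S τ := by
  -- the set of annihilators over `m`
  let PSet : Set (Ideal S) := {P | ∃ z : Ideal S, z.IsMaximal ∧ (∀ μ ∈ m, algebraMap T S μ ∈ z) ∧
    P = Module.annihilator S (S ⧸ z)}
  have hts : ∀ P ∈ PSet, P.IsTwoSided := by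
    rintro P ⟨z, _, _, rfl⟩; infer_instance
  have hmem : ∀ P ∈ PSet, ∀ μ ∈ m, algebraMap T S μ ∈ P := by
    rintro P ⟨z, _, hz, rfl⟩ μ hμ
    exact central_mem_ann (hz μ hμ)
  have hne : ∀ P ∈ PSet, P ≠ ⊤ := by
    rintro P ⟨z, hz, _, rfl⟩ h
    apply hz.ne_top
    rw [Ideal.eq_top_iff_one]
    apply mem_of_mem_ann
    rw [h]; trivial
  have hmax : ∀ P ∈ PSet, ∀ Q : Ideal S, Q.IsTwoSided → P ≤ Q → P ≠ Q → Q = ⊤ := by
    rintro P ⟨z, hz, _, rfl⟩ Q hQ hPQ hne
    have : IsSimpleModule S (S ⧸ z) := isSimpleModule_iff_isCoatom.mpr hz.out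
    have : Module.Finite (Module.End S (S ⧸ z)) (S ⧸ z) := finite_of_PI hd hc hS
    apply ann_maximal (V := S ⧸ z) Q hPQ
    by_contra hcon
    push Not at hcon
    exact hne (le_antisymm hPQ hcon)
  have hcop : ∀ P ∈ PSet, ∀ Q ∈ PSet, P ≠ Q → P ⊔ Q = ⊤ := by
    intro P hP Q hQ hPQ
    have := hts P hP
    have := hts Q hQ
    have htwo : (P ⊔ Q).IsTwoSided := by
      constructor
      intro a b ha
      obtain ⟨p, hp, q, hq, rfl⟩ := Submodule.mem_sup.mp ha
      rw [add_mul]
      exact Submodule.add_mem_sup (Ideal.mul_mem_right _ _ hp) (Ideal.mul_mem_right _ _ hq)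
    by_cases h : P = P ⊔ Q
    · have hQP : Q ≤ P := by rw [h]; exact le_sup_right
      have := hmax Q hQ P (hts P hP) hQP (Ne.symm hPQ)
      exact absurd this (hne P hP)
    · exact hmax P hP _ htwo le_sup_left h
  -- finiteness
  have hfin : PSet.Finite := by
    by_contra hinf
    have hinf' : PSet.Infinite := hinf
    obtain ⟨F, hF1, hF2⟩ := hinf'.exists_subset_card_eq (M + 1)
    let e : Fin (M + 1) ≃ F := (Fintype.equivFinOfCardEq (by simp [hF2])).symm
    have he : ∀ j, ((e j : F) : Ideal S) ∈ PSet := fun j => hF1 (e j).2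
    have : ∀ k, ((e k : F) : Ideal S).IsTwoSided := fun k => hts _ (he k)
    exact card_le hInt m (fun j => ((e j : F) : Ideal S))
      (fun a b hab => hcop _ (he a) _ (he b) (fun h => hab (e.injective (Subtype.ext h))))
      (fun j => hne _ (he j)) (fun j => hmem _ (he j))
  let s := hfin.toFinset
  have hs : ∀ P, P ∈ s ↔ P ∈ PSet := fun P => hfin.mem_toFinset
  -- local choices
  have hloc : ∀ P ∈ PSet, ∃ t : ι → S, ∃ b : S,
      b * (v i + ∑ k ∈ Finset.univ.erase i, t k * v k) - 1 ∈ P ∧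
      (v i + ∑ k ∈ Finset.univ.erase i, t k * v k) * b - 1 ∈ P := by
    rintro P ⟨z, hz, _, rfl⟩
    have : IsSimpleModule S (S ⧸ z) := isSimpleModule_iff_isCoatom.mpr hz.out
    have : Module.Finite (Module.End S (S ⧸ z)) (S ⧸ z) := finite_of_PI hd hc hS
    obtain ⟨t, ht⟩ := exists_bij_comb (V := S ⧸ z) v u huv i
    obtain ⟨b, hb⟩ := unit_mod_ann ht
    refine ⟨t, b, ?_, ?_⟩
    · rw [Module.mem_annihilator]
      intro x
      rw [sub_smul, mul_smul, one_smul, (hb x).1, sub_self]
    · rw [Module.mem_annihilator]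
      intro x
      rw [sub_smul, mul_smul, one_smul, (hb x).2, sub_self]
  choose! tP bP hb1 hb2 using hloc
  have hε : ∀ P ∈ PSet, ∃ x, x - 1 ∈ P ∧ ∀ Q ∈ PSet, Q ≠ P → x ∈ Q := by
    intro P hP
    have : ∀ k : PSet, ((k : PSet) : Ideal S).IsTwoSided := fun k => hts _ k.2
    haveI : Fintype PSet := hfin.fintype
    obtain ⟨x, hx1, hx2⟩ := crt (fun k : PSet => (k : Ideal S))
      (fun a b hab => hcop _ a.2 _ b.2 (fun h => hab (Subtype.ext h))) ⟨P, hP⟩
      (Finset.univ.erase ⟨P, hP⟩) (Finset.notMem_erase _ _)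
    refine ⟨x, hx1, fun Q hQ hQP => hx2 ⟨Q, hQ⟩ (Finset.mem_erase.mpr ⟨?_, Finset.mem_univ _⟩)⟩
    intro h
    exact hQP (congrArg Subtype.val h)
  choose! ε hε1 hε2 using hε
  let t : ι → S := fun k => ∑ P ∈ s, ε P * tP P k
  set a : S := v i + ∑ k ∈ Finset.univ.erase i, t k * v k with ha
  have htP : ∀ P ∈ PSet, ∀ k, t k - tP P k ∈ P := by
    intro P hP k
    have := hts P hP
    have e : t k - tP P k = (ε P - 1) * tP P k + ∑ Q ∈ s.erase P, ε Q * tP Q k := by
      simp only [t]
      rw [← Finset.add_sum_erase s _ ((hs P).mpr hP)]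
      noncomm_ring
    rw [e]
    refine P.add_mem (Ideal.mul_mem_right _ _ (hε1 P hP)) (P.sum_mem fun Q hQ => ?_)
    apply Ideal.mul_mem_right
    have hQ' : Q ∈ PSet := (hs Q).mp (Finset.mem_of_mem_erase hQ)
    exact hε2 Q hQ' P hP (Ne.symm (Finset.ne_of_mem_erase hQ))
  have haP : ∀ P ∈ PSet, a - (v i + ∑ k ∈ Finset.univ.erase i, tP P k * v k) ∈ P := by
    intro P hP
    have := hts P hP
    have e : a - (v i + ∑ k ∈ Finset.univ.erase i, tP P k * v k) =
        ∑ k ∈ Finset.univ.erase i, (t k - tP P k) * v k := by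
      rw [ha, add_sub_add_left_eq_sub, ← Finset.sum_sub_distrib]
      exact Finset.sum_congr rfl fun k _ => by rw [sub_mul]
    rw [e]
    exact P.sum_mem fun k _ => Ideal.mul_mem_right _ _ (htP P hP k)
  have hu1 : ∀ P ∈ PSet, bP P * a - 1 ∈ P := by
    intro P hP
    have e : bP P * a - 1 = bP P * (a - (v i + ∑ k ∈ Finset.univ.erase i, tP P k * v k)) +
      (bP P * (v i + ∑ k ∈ Finset.univ.erase i, tP P k * v k) - 1) := by
      rw [mul_sub]; abel
    rw [e]
    exact P.add_mem (P.mul_mem_left _ (haP P hP)) (hb1 P hP)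
  have hu2 : ∀ P ∈ PSet, a * bP P - 1 ∈ P := by
    intro P hP
    have := hts P hP
    have e : a * bP P - 1 = (a - (v i + ∑ k ∈ Finset.univ.erase i, tP P k * v k)) * bP P +
      ((v i + ∑ k ∈ Finset.univ.erase i, tP P k * v k) * bP P - 1) := by
      rw [sub_mul]; abel
    rw [e]
    exact P.add_mem (Ideal.mul_mem_right _ _ (haP P hP)) (hb2 P hP)
  -- left inverse up to `σ`
  obtain ⟨a', σ, hσ, haσ⟩ := exists_left_inv hInt m a (by
    intro z hz hzm
    have hP : Module.annihilator S (S ⧸ z) ∈ PSet := ⟨z, hz, hzm, rfl⟩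
    exact ⟨_, mem_of_mem_ann (hu1 _ hP)⟩)
  obtain ⟨σ', μ, hμ, hσ'⟩ := hm.exists_inv hσ
  have hσσ : algebraMap T S σ' * algebraMap T S σ + algebraMap T S μ = 1 := by
    rw [← map_mul, ← map_add, hσ', map_one]
  obtain ⟨a'', σ2, hσ2, haσ2⟩ := exists_left_inv hInt m a' (by
    intro z hz hzm
    have hP : Module.annihilator S (S ⧸ z) ∈ PSet := ⟨z, hz, hzm, rfl⟩
    set P := Module.annihilator S (S ⧸ z) with hPdef
    refine ⟨algebraMap T S σ' * a, mem_of_mem_ann ?_⟩
    rw [← hPdef]
    -- a * a' ≡ σ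
    have h1 : a' - algebraMap T S σ * bP P ∈ P := by
      have e : a' - algebraMap T S σ * bP P = -(a' * (a * bP P - 1)) := by
        rw [← haσ]; noncomm_ring
      rw [e]
      exact P.neg_mem (P.mul_mem_left _ (hu2 P hP))
    have h2 : algebraMap T S σ' * a * a' - 1 =
        algebraMap T S σ' * a * (a' - algebraMap T S σ * bP P) +
        (algebraMap T S σ' * algebraMap T S σ * (a * bP P - 1) - algebraMap T S μ) := by
      have h3 : algebraMap T S σ' * a * (algebraMap T S σ * bP P) =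
          algebraMap T S σ' * algebraMap T S σ * (a * bP P) := by
        rw [mul_assoc, ← mul_assoc a, ← Algebra.commutes σ a]; noncomm_ring
      rw [mul_sub, h3, mul_sub, mul_one]
      have h4 : algebraMap T S μ = 1 - algebraMap T S σ' * algebraMap T S σ := by
        rw [← hσσ]; abel
      rw [h4]; abel
    rw [h2]
    exact P.add_mem (P.mul_mem_left _ h1)
      (P.sub_mem (P.mul_mem_left _ (hu2 P hP)) (hmem P hP μ hμ)))
  refine ⟨t, algebraMap T S σ2 * a', σ * σ2, ?_, ?_, ?_⟩
  · intro h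
    rcases hm.isPrime.mem_or_mem h with h | h
    · exact hσ h
    · exact hσ2 h
  · -- a * (σ2 a') = σ σ2
    rw [← ha]
    calc a * (algebraMap T S σ2 * a') = algebraMap T S σ2 * a * a' := by
          rw [← mul_assoc, ← Algebra.commutes σ2 a]
      _ = a'' * a' * a * a' := by rw [haσ2]
      _ = a'' * (a' * a) * a' := by noncomm_ring
      _ = a'' * algebraMap T S σ * a' := by rw [haσ]
      _ = algebraMap T S σ * (a'' * a') := by rw [← Algebra.commutes σ a'', mul_assoc]
      _ = algebraMap T S (σ * σ2) := by rw [haσ2, map_mul]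
  · rw [← ha, mul_assoc, haσ, ← map_mul, mul_comm]

end H40
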