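import Pool.Agent.H40.RelMain
import Pool.Agent.H27.Split

set_option autoImplicit false
set_option linter.unusedSectionVars false
set_option linter.unusedSimpArgs false

namespace H40

open Matrix

/-- satisfies a proper multilinear identity -/
def GoodPI (R : Type) [Ring R] : Prop :=
  ∃ (d : ℕ) (_ : 0 < d) (c : Equiv.Perm (Fin d) → ℤ), c 1 = 1 ∧ MulId R d c

/-- Capelli values in the radical -/
def CapId (m : ℕ) (R : Type) [Ring R] : Prop :=
  ∀ (x : Fin (m * m + 1) → R) (y : Fin (m * m + 1 + 1) → R), cap x y ∈ Ring.jacobson R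

/-- split of degree `k` -/
def HasSplit (R : Type) [Ring R] (k : ℕ) (V : Type) [AddCommGroup V] [Module R V] : Prop :=
  ∃ (K : Type) (_ : Field K) (ψ : R →+* Matrix (Fin k) (Fin k) K),
    (∀ r, ψ r = 0 ↔ ∀ v : V, r • v = 0) ∧ Submodule.span K (Set.range ψ) = ⊤

section split

variable {R : Type} [Ring R] {V : Type} [AddCommGroup V] [Module R V]

theorem cap_kill {k M : ℕ} (h : HasSplit R k V) (hM : k * k < M) (x : Fin M → R)
    (y : Fin (M + 1) → R) (v : V) : cap x y • v = 0 := by
  obtain ⟨K, _, ψ, h1, -⟩ := h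
  refine (h1 (cap x y)).mp ?_ v
  rw [map_cap]
  exact cap_eq_zero_of_basis (mbasis k K) (by simpa using hM) _ _

theorem cap_nonkill {k M : ℕ} (h : HasSplit R k V) (hk : 0 < k) (hM : M ≤ k * k) :
    ∃ (x : Fin M → R) (y : Fin (M + 1) → R) (v : V), cap x y • v ≠ 0 := by
  by_contra hcon
  push Not at hcon
  obtain ⟨K, _, ψ, h1, h2⟩ := h
  have hne : ∃ (x : Fin M → Matrix (Fin k) (Fin k) K) (y : Fin (M + 1) → Matrix (Fin k) (Fin k) K),
      cap x y ≠ 0 :=
    exists_cap_ne (⟨0, hk⟩ : Fin k) (fun i => finProdFinEquiv.symm (Fin.castLE hM i))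
      (finProdFinEquiv.symm.injective.comp (Fin.castLE_injective hM))
  obtain ⟨x, y, hxy⟩ := hne
  apply hxy
  have := cap_mem_of_span (K := K) (⊥ : Submodule K (Matrix (Fin k) (Fin k) K)) (Set.range ψ) ?_ x y
    (fun i => by rw [h2]; trivial) (fun i => by rw [h2]; trivial)
  · exact (Submodule.mem_bot K).mp this
  · intro x' y' hx' hy'
    choose a ha using hx'
    choose b hb using hy'
    have e1 : x' = fun i => ψ (a i) := funext fun i => (ha i).symm
    have e2 : y' = fun i => ψ (b i) := funext fun i => (hb i).symm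
    rw [e1, e2, ← map_cap, Submodule.mem_bot]
    exact (h1 _).mpr (hcon a b)

end split

theorem hasSplit_of_maximal {R : Type} [Ring R] {d : ℕ} (hd : 0 < d)
    {c : Equiv.Perm (Fin d) → ℤ} (hc : c 1 = 1) (hR : MulId R d c) (z : Ideal R)
    (hz : z.IsMaximal) : ∃ k, 0 < k ∧ k < d ∧ HasSplit R k (R ⧸ z) := by
  have : IsSimpleModule R (R ⧸ z) := isSimpleModule_iff_isCoatom.mpr hz.out
  obtain ⟨K, fK, k, hk0, hkd, ψ, h1, h2⟩ :=
    Pool.Agent.H27.Split.exists_split (V := R ⧸ z) hd hc hR
  exact ⟨k, hk0, hkd, K, fK, ψ, h1, h2⟩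

theorem mem_of_kill {R : Type} [Ring R] (z : Ideal R) (r : R)
    (h : ∀ v : R ⧸ z, r • v = 0) : r ∈ z := by
  have := h (Submodule.Quotient.mk 1)
  rw [← Submodule.Quotient.mk_smul, Submodule.Quotient.mk_eq_zero, smul_eq_mul, mul_one] at this
  exact this

theorem capId_of_goodPI {R : Type} [Ring R] (h : GoodPI R) : ∃ m, CapId m R := by
  obtain ⟨d, hd, c, hc, hR⟩ := h
  refine ⟨d - 1, fun x y => ?_⟩
  rw [Ring.jacobson_eq_sInf_isMaximal, Submodule.mem_sInf]
  intro z hz
  obtain ⟨k, hk0, hkd, hs⟩ := hasSplit_of_maximal hd hc hR z hz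
  apply mem_of_kill
  intro v
  apply cap_kill hs
  have : k ≤ d - 1 := by omega
  exact Nat.lt_succ_of_le (Nat.mul_le_mul this this)

theorem goodPI_of_surj {R R' : Type} [Ring R] [Ring R'] (f : R →+* R')
    (hf : Function.Surjective f) (h : GoodPI R) : GoodPI R' := by
  obtain ⟨d, hd, c, hc, hR⟩ := h
  refine ⟨d, hd, c, hc, fun x => ?_⟩
  choose g hg using hf
  have := congrArg f (hR (fun i => g (x i)))
  rw [map_zero, map_sum] at this
  rw [← this]
  refine Finset.sum_congr rfl fun σ _ => ?_
  rw [map_mul, map_intCast, map_list_prod, List.map_ofFn]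
  congr 3
  funext i
  simp [hg]

variable {ι : Type} [Fintype ι] [DecidableEq ι]

/-- the diagonal combination of the splittings -/
def phi {R Z : Type} [Ring R] {m : ℕ} (K : Z → Type) [∀ z, Field (K z)]
    (ψ : ∀ z, R →+* Matrix (Fin m) (Fin m) (K z)) : R →+* Matrix (Fin m) (Fin m) (∀ z, K z) where
  toFun r := Matrix.of (fun i j z => ψ z r i j)
  map_one' := by
    ext i j z
    simp only [map_one, Matrix.of_apply, Matrix.one_apply]
    split_ifs <;> simp
  map_mul' := by
    intro a b
    ext i j z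
    simp [Matrix.mul_apply, Finset.sum_apply]
  map_zero' := by
    ext i j z
    simp
  map_add' := by
    intro a b
    ext i j z
    simp

theorem semiprim (h3 : ∀ i l : ι, ∃ h : ι, h ≠ i ∧ h ≠ l) (m : ℕ)
    (hQ : ∀ (R' : Type) [Ring R'], GoodPI R' → CapId m R' →
      (EA ι (⊤ : AddSubgroup R')).Normal)
    (R : Type) [Ring R] (hJ : Ring.jacobson R = ⊥) (hPI : GoodPI R) (hcap : CapId (m + 1) R) :
    (EA ι (⊤ : AddSubgroup R)).Normal := by
  classical
  have hPI' := hPI
  obtain ⟨d, hd, c, hc, hS⟩ := hPI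
  -- all splittings have degree at most `m + 1`
  have hsplit : ∀ z : Ideal R, z.IsMaximal → ∃ k, 0 < k ∧ k ≤ m + 1 ∧ HasSplit R k (R ⧸ z) := by
    intro z hz
    obtain ⟨k, hk0, hkd, hs⟩ := hasSplit_of_maximal hd hc hS z hz
    refine ⟨k, hk0, ?_, hs⟩
    by_contra hcon
    push Not at hcon
    have hM : (m + 1) * (m + 1) + 1 ≤ k * k := by
      have : (m + 2) * (m + 2) ≤ k * k := Nat.mul_le_mul hcon hcon
      nlinarith
    obtain ⟨x, y, v, hv⟩ := cap_nonkill hs hk0 hM
    apply hv
    have := hcap x y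
    rw [hJ] at this
    rw [(Submodule.mem_bot R).mp this, zero_smul]
  have hJ2 : ∀ r : R, (∀ z : Ideal R, z.IsMaximal → r ∈ z) → r = 0 := by
    intro r hr
    have : r ∈ Ring.jacobson R := by
      rw [Ring.jacobson_eq_sInf_isMaximal, Submodule.mem_sInf]
      exact hr
    rw [hJ] at this
    exact (Submodule.mem_bot R).mp this
  set M := (m + 1) * (m + 1) with hMdef
  have hIRkill : ∀ (z : Ideal R) (k : ℕ), k ≤ m → HasSplit R k (R ⧸ z) →
      ∀ r ∈ IRg M R, ∀ v : R ⧸ z, r • v = 0 := by
    intro z k hk hs r hr v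
    refine AddSubgroup.closure_induction (p := fun r _ => r • v = 0) ?_ ?_ ?_ ?_ hr
    · rintro _ ⟨x, y, rfl⟩
      apply cap_kill hs
      have : k * k ≤ m * m := Nat.mul_le_mul hk hk
      rw [hMdef]; nlinarith
    · exact zero_smul R v
    · intro a b _ _ ha hb
      rw [add_smul, ha, hb, add_zero]
    · intro a _ ha
      rw [neg_smul, ha, neg_zero]
  -- the splittings of degree `m + 1`
  let Z := {z : Ideal R // z.IsMaximal ∧ HasSplit R (m + 1) (R ⧸ z)}
  choose K fK ψ hψ1 hψ2 using fun z : Z => z.2.2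
  let φ := phi K ψ
  have hinj : ∀ r ∈ IRg M R, φ r = 0 → r = 0 := by
    intro r hr hφ
    apply hJ2
    intro z hz
    apply mem_of_kill
    by_cases hZ : HasSplit R (m + 1) (R ⧸ z)
    · have h1 : ψ ⟨z, hz, hZ⟩ r = 0 := by
        ext i j
        have := congrFun (congrFun (congrFun hφ i) j) ⟨z, hz, hZ⟩
        exact this
      exact (hψ1 ⟨z, hz, hZ⟩ r).mp h1
    · obtain ⟨k, hk0, hkm, hs⟩ := hsplit z hz
      have hkm' : k ≤ m := by
        rcases Nat.lt_or_ge m k with h | h
        · exfalso
          have : k = m + 1 := by omega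
          subst this
          exact hZ hs
        · exact h
      exact hIRkill z k hkm' hs r hr
  obtain ⟨Es, hEsN, hEsE, hEsC⟩ := rel_main (ι := ι) h3 φ hinj
  have hJJl : ∀ s x : R, x ∈ JJ (IRg M R) → s * x ∈ JJ (IRg M R) := JJ_mul_left IRg_left
  have hJJr : ∀ s x : R, x ∈ JJ (IRg M R) → x * s ∈ JJ (IRg M R) := JJ_mul_right IRg_right
  have htwo : (toId (JJ (IRg M R)) hJJl).IsTwoSided := toId_two _ hJJl hJJr
  let q := Ideal.Quotient.mk (toId (JJ (IRg M R)) hJJl)
  have hq : Function.Surjective q := Ideal.Quotient.mk_surjective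
  have hcap2 : CapId m (R ⧸ toId (JJ (IRg M R)) hJJl) := by
    intro x y
    choose g hg using hq
    have hx : x = fun i => q (g (x i)) := funext fun i => (hg _).symm
    have hy : y = fun i => q (g (y i)) := funext fun i => (hg _).symm
    rw [hx, hy, ← map_cap, Ring.jacobson_eq_sInf_isMaximal, Submodule.mem_sInf]
    suffices hmain : ∀ z' : Ideal (R ⧸ toId (JJ (IRg M R)) hJJl), z'.IsMaximal →
        q (cap (fun i => g (x i)) (fun i => g (y i))) ∈ z' from fun z' hz' => hmain z' hz'
    intro z' hz'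
    set z : Ideal R := Ideal.comap q z' with hz
    have hzmax : z.IsMaximal := Ideal.comap_isMaximal_of_surjective q Ideal.Quotient.mk_surjective
    show cap _ _ ∈ z
    have hJJz : ∀ u ∈ JJ (IRg M R), u ∈ z := by
      intro u hu
      show q u ∈ z'
      have : q u = 0 := Ideal.Quotient.eq_zero_iff_mem.mpr hu
      rw [this]; exact z'.zero_mem
    obtain ⟨k, hk0, hkm, hs⟩ := hsplit z hzmax
    have hkm' : k ≤ m := by
      rcases Nat.lt_or_ge m k with h | h
      · exfalso
        have hk : k = m + 1 := by omega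
        subst hk
        obtain ⟨x0, y0, v, hv⟩ := cap_nonkill (M := M) hs hk0 le_rfl
        set a := cap x0 y0 with ha
        have haI : a ∈ IRg M R := AddSubgroup.subset_closure ⟨x0, y0, rfl⟩
        have hsimple : IsSimpleModule R (R ⧸ z) := isSimpleModule_iff_isCoatom.mpr hzmax.out
        -- `R • (a • v) = ⊤`
        have htop : Submodule.span R {a • v} = ⊤ := by
          rcases eq_bot_or_eq_top (Submodule.span R {a • v}) with h | h
          · rw [Submodule.span_singleton_eq_bot] at h
            exact absurd h hv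
          · exact h
        have hmem : (Submodule.Quotient.mk 1 : R ⧸ z) ∈ Submodule.span R {a • v} := by
          rw [htop]; trivial
        obtain ⟨r, hr⟩ := Submodule.mem_span_singleton.mp hmem
        have hIz : ∀ b ∈ IRg M R, b ∈ z := by
          intro b hb
          have h1 : b • (Submodule.Quotient.mk 1 : R ⧸ z) = 0 := by
            rw [← hr, ← mul_smul, ← mul_smul]
            have h2 : b * r * a ∈ JJ (IRg M R) := mul_mem_JJ (IRg_right _ _ hb) haI
            obtain ⟨s, hs⟩ := Submodule.Quotient.mk_surjective z v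
            rw [← hs, ← Submodule.Quotient.mk_smul, Submodule.Quotient.mk_eq_zero, smul_eq_mul]
            exact hJJz _ (hJJr _ _ h2)
          rw [← Submodule.Quotient.mk_smul, Submodule.Quotient.mk_eq_zero, smul_eq_mul,
            mul_one] at h1
          exact h1
        apply hv
        obtain ⟨s, hs⟩ := Submodule.Quotient.mk_surjective z v
        rw [← hs, ← Submodule.Quotient.mk_smul, Submodule.Quotient.mk_eq_zero, smul_eq_mul]
        exact hIz _ (IRg_right _ _ haI)
      · exact h
    apply mem_of_kill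
    intro v
    apply cap_kill hs
    exact Nat.lt_succ_of_le (Nat.mul_le_mul hkm' hkm')
  have hN2 := hQ _ (goodPI_of_surj q hq hPI') hcap2
  refine glue Es (EA ι (⊤ : AddSubgroup R)) (FM ι q).ker hEsE ?_ (EA_perf h3) ?_
  · intro e he k hk
    exact hEsC e he k ((congOne_of_ker _ hJJl k).mp hk)
  · intro g e he
    obtain ⟨e', he', k, hk, hgk⟩ := exists_mul_ker q hq hN2 g he
    exact ⟨e', he', k, hk, hgk⟩

theorem unit_of_jac {R : Type} [Ring R] (x : R) (hx : x ∈ Ring.jacobson R) : IsUnit (1 + x) := by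
  have hleft : ∀ x ∈ Ring.jacobson R, ∃ y : R, y * (1 + x) = 1 := by
    intro x hx
    by_contra hcon
    push Not at hcon
    have hne : Ideal.span {1 + x} ≠ (⊤ : Ideal R) := by
      intro h
      have h1 : (1 : R) ∈ Ideal.span {1 + x} := by rw [h]; trivial
      obtain ⟨y, hy⟩ := Submodule.mem_span_singleton.mp h1
      exact hcon y hy
    obtain ⟨z, hz, hle⟩ := Ideal.exists_le_maximal _ hne
    have h1 : 1 + x ∈ z := hle (Submodule.mem_span_singleton_self _)
    have h2 : x ∈ z := by
      rw [Ring.jacobson_eq_sInf_isMaximal, Submodule.mem_sInf] at hx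
      exact hx z hz
    apply hz.ne_top
    rw [Ideal.eq_top_iff_one]
    have := z.sub_mem h1 h2
    rwa [add_sub_cancel_right] at this
  obtain ⟨y, hy⟩ := hleft x hx
  have h1 : y = 1 + (-(y * x)) := by
    have : y + y * x = 1 := by rw [mul_add, mul_one] at hy; exact hy
    rw [← this]; abel
  obtain ⟨w, hw⟩ := hleft (-(y * x)) (neg_mem ((Ring.jacobson R).smul_mem y hx))
  rw [← h1] at hw
  have h2 : w = 1 + x := by
    calc w = w * (y * (1 + x)) := by rw [hy, mul_one]
      _ = (w * y) * (1 + x) := by rw [mul_assoc]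
      _ = 1 + x := by rw [hw, one_mul]
  rw [h2] at hw
  exact ⟨⟨1 + x, y, hw, hy⟩, rfl⟩

theorem all_m (h3 : ∀ i l : ι, ∃ h : ι, h ≠ i ∧ h ≠ l) (m : ℕ) :
    ∀ (R : Type) [Ring R], GoodPI R → CapId m R → (EA ι (⊤ : AddSubgroup R)).Normal := by
  induction m with
  | zero =>
    intro R _ hPI hcap
    have h1 : (1 : R) ∈ Ring.jacobson R := by
      have := hcap (fun _ => 1) (fun _ => 1)
      have e : cap (fun _ : Fin (0 * 0 + 1) => (1 : R)) (fun _ => 1) = 1 := by
        unfold cap mono
        simp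
      rw [e] at this
      exact this
    have h2 : Subsingleton R := by
      by_contra hcon
      rw [not_subsingleton_iff_nontrivial] at hcon
      have : IsUnit (1 + (-1 : R)) := unit_of_jac _ (neg_mem h1)
      rw [add_neg_cancel] at this
      exact not_isUnit_zero this
    constructor
    intro x hx g
    have : g * x * g⁻¹ = x := by ext a b; exact Subsingleton.elim _ _
    rw [this]; exact hx
  | succ m ih =>
    intro R _ hPI hcap
    have hf : Function.Surjective (Ideal.Quotient.mk (Ring.jacobson R)) :=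
      Ideal.Quotient.mk_surjective
    refine jac_lift h3 (Ideal.Quotient.mk (Ring.jacobson R)) hf ?_ ?_
    · intro x hx
      exact unit_of_jac x (Ideal.Quotient.eq_zero_iff_mem.mp hx)
    · apply semiprim h3 m ih
      · exact Ring.jacobson_quotient_jacobson R
      · exact goodPI_of_surj _ hf hPI
      · intro x y
        choose g hg using hf
        have hx : x = fun i => Ideal.Quotient.mk (Ring.jacobson R) (g (x i)) :=
          funext fun i => (hg _).symm
        have hy : y = fun i => Ideal.Quotient.mk (Ring.jacobson R) (g (y i)) :=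
          funext fun i => (hg _).symm
        rw [hx, hy, ← map_cap]
        have := hcap (fun i => g (x i)) (fun i => g (y i))
        rw [Ideal.Quotient.eq_zero_iff_mem.mpr this]
        exact Submodule.zero_mem _

theorem main {R : Type} [Ring R] (hPI : GoodPI R) (n : ℕ) (hn : 3 ≤ n) :
    (EA (Fin n) (⊤ : AddSubgroup R)).Normal := by
  obtain ⟨m, hm⟩ := capId_of_goodPI hPI
  refine all_m ?_ m R hPI hm
  intro i l
  by_contra hcon
  push Not at hcon
  have h1 : (Finset.univ : Finset (Fin n)) ⊆ {i, l} := by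
    intro h _
    by_cases hh : h = i
    · simp [hh]
    · simp [hcon h hh]
  have h2 := Finset.card_le_card h1
  have h3 : ({i, l} : Finset (Fin n)).card ≤ 2 := Finset.card_le_two
  rw [Finset.card_univ, Fintype.card_fin] at h2
  omega

end H40
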