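import Mathlib

set_option autoImplicit false
set_option linter.unusedSectionVars false

namespace H40

open Module

/-- multilinear identity with integer coefficients -/
def MulId (S : Type*) [Ring S] (d : ℕ) (c : Equiv.Perm (Fin d) → ℤ) : Prop :=
  ∀ x : Fin d → S,
    ∑ σ : Equiv.Perm (Fin d), ((c σ : ℤ) : S) * (List.ofFn (fun i => x (σ i))).prod = 0

theorem exists_linearMap_of_indep {D V W κ : Type*} [DivisionRing D] [AddCommGroup V]
    [Module D V] [AddCommGroup W] [Module D W] {v : κ → V} (hv : LinearIndependent D v)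
    (w : κ → W) : ∃ f : V →ₗ[D] W, ∀ k, f (v k) = w k := by
  let b : Basis κ D (Submodule.span D (Set.range v)) := Basis.span hv
  obtain ⟨g, hg⟩ := LinearMap.exists_extend (b.constr ℕ w)
  refine ⟨g, fun k => ?_⟩
  have h1 : (b k : V) = v k := congrArg Subtype.val (Basis.span_apply hv k)
  have h2 : g (b k : V) = w k := by
    have := congrArg (fun f => f (b k)) hg
    simpa using this
  rw [← h1, h2]

section simple

variable {S V : Type*} [Ring S] [AddCommGroup V] [Module S V]

theorem prod_act {d : ℕ} (x : Fin d → S) (u : ℕ → V)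
    (hx : ∀ k j : Fin d, x k • u (j + 1) = if j = k then u k else 0) :
    ∀ n : ℕ, ∀ hn : n ≤ d, ∀ f : Fin n → Fin d,
      (List.ofFn (fun i => x (f i))).prod • u d =
        if (∀ i : Fin n, ((f i : Fin d) : ℕ) = d - n + i) then u (d - n) else 0 := by
  intro n
  induction n with
  | zero => intro hn f; simp
  | succ n ih =>
    intro hn f
    rw [List.ofFn_succ, List.prod_cons, mul_smul]
    rw [ih (by omega) (fun i => f i.succ)]
    by_cases h : ∀ i : Fin n, ((f i.succ : Fin d) : ℕ) = d - n + i
    · rw [if_pos h]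
      have hd : d - n = (⟨d - (n + 1), by omega⟩ : Fin d) + 1 := by
        simp only; omega
      rw [hd, hx]
      by_cases h0 : (⟨d - (n + 1), by omega⟩ : Fin d) = f 0
      · rw [if_pos h0, if_pos]
        · rw [← h0]
        · intro i
          refine Fin.cases ?_ (fun i => ?_) i
          · rw [← h0]; simp
          · rw [h i]; simp only [Fin.val_succ]; omega
      · rw [if_neg h0, if_neg]
        intro hc
        apply h0
        have := hc 0
        ext
        simp only [this]
        simp
    · rw [if_neg h, smul_zero, if_neg]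
      intro hc
      apply h
      intro i
      have := hc i.succ
      rw [this]; simp only [Fin.val_succ]; omega

open Classical in
theorem no_indep [IsSimpleModule S V] {d : ℕ} (hd : 0 < d) {c : Equiv.Perm (Fin d) → ℤ}
    (hc : c 1 = 1) (hS : MulId S d c) (v : Fin d → V)
    (hv : LinearIndependent (Module.End S V) v) : False := by
  -- the sequence `u`
  let u : ℕ → V := fun k => if h : k - 1 < d then v ⟨k - 1, h⟩ else 0
  have hu : ∀ j : Fin d, u (j + 1) = v j := by
    intro j
    simp [u]
  have hx : ∀ k : Fin d, ∃ s : S, ∀ j : Fin d, s • u (j + 1) = if j = k then u k else 0 := by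
    intro k
    obtain ⟨f, hf⟩ := exists_linearMap_of_indep hv (fun j => if j = k then u k else 0)
    obtain ⟨s, hs⟩ := jacobson_density f (Finset.univ.image v)
    refine ⟨s, fun j => ?_⟩
    rw [hu, ← hs (v j) (Finset.mem_image_of_mem _ (Finset.mem_univ j)), hf]
  choose x hx using hx
  have key := hS x
  have h0 : u 0 = 0 := by
    have h1 := congrArg (fun s : S => s • u d) key
    simp only [zero_smul, Finset.sum_smul, mul_smul] at h1
    rw [Finset.sum_eq_single 1] at h1
    · rw [prod_act x u hx d le_rfl (fun i => (1 : Equiv.Perm (Fin d)) i)] at h1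
      rw [if_pos (by intro i; simp), hc] at h1
      simpa using h1
    · intro σ _ hσ
      rw [prod_act x u hx d le_rfl (fun i => σ i), if_neg, smul_zero]
      intro hh
      apply hσ
      ext i
      have := hh i
      simp only [Equiv.Perm.coe_one, id_eq]
      omega
    · intro h; exact absurd (Finset.mem_univ _) h
  have h2 : u 0 = v ⟨0, hd⟩ := by simp [u, hd]
  exact hv.ne_zero ⟨0, hd⟩ (by rw [← h2, h0])

open Classical in
theorem rank_lt [IsSimpleModule S V] {d : ℕ} (hd : 0 < d) {c : Equiv.Perm (Fin d) → ℤ}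
    (hc : c 1 = 1) (hS : MulId S d c) : Module.rank (Module.End S V) V < d := by
  by_contra hcon
  push Not at hcon
  obtain ⟨s, hs, hli⟩ := le_rank_iff_exists_linearIndependent_finset.mp hcon
  let e : Fin d ≃ s := (Fintype.equivFinOfCardEq (by simp [hs])).symm
  exact no_indep hd hc hS (fun i => ((e i : s) : V)) (hli.comp (fun i => (⟨(e i : V), (e i).2⟩ : ↥(s : Set V))) (by
    intro a b hab
    apply e.injective
    apply Subtype.ext
    exact congrArg (fun z : ↥(s : Set V) => (z : V)) hab))

open Classical in
theorem finite_of_PI [IsSimpleModule S V] {d : ℕ} (hd : 0 < d) {c : Equiv.Perm (Fin d) → ℤ}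
    (hc : c 1 = 1) (hS : MulId S d c) : Module.Finite (Module.End S V) V := by
  have h := rank_lt (S := S) (V := V) hd hc hS
  exact Module.rank_lt_aleph0_iff.mp (h.trans (Cardinal.natCast_lt_aleph0))

open Classical in
/-- an element acting bijectively on a simple module is a unit modulo the annihilator -/
theorem unit_mod_ann [IsSimpleModule S V] [Module.Finite (Module.End S V) V] {a : S}
    (ha : Function.Bijective (fun x : V => a • x)) :
    ∃ b : S, ∀ x : V, b • a • x = x ∧ a • b • x = x := by
  let f : V →ₗ[Module.End S V] V := Module.toModuleEnd (Module.End S V) (S := S) V a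
  have hf : Function.Bijective f := ha
  let e := LinearEquiv.ofBijective f hf
  obtain ⟨b, hb⟩ := Module.Finite.toModuleEnd_moduleEnd_surjective (R := S) (M := V)
    (e.symm : V →ₗ[Module.End S V] V)
  have hb' : ∀ x : V, b • x = e.symm x := fun x => congrArg (fun g => g x) hb
  have he : ∀ x : V, e x = a • x := fun x => rfl
  refine ⟨b, fun x => ⟨?_, ?_⟩⟩
  · rw [hb', ← he, LinearEquiv.symm_apply_apply]
  · rw [hb', ← he, LinearEquiv.apply_symm_apply]

open Classical in
/-- the annihilator of a simple module is a maximal two-sided ideal -/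
theorem ann_maximal [IsSimpleModule S V] [Module.Finite (Module.End S V) V] (Q : Ideal S)
    [Q.IsTwoSided] (hQ : Module.annihilator S V ≤ Q) (hne : ∃ q ∈ Q, q ∉ Module.annihilator S V) :
    Q = ⊤ := by
  obtain ⟨q, hq, hqn⟩ := hne
  rw [Module.mem_annihilator] at hqn
  push Not at hqn
  obtain ⟨v0, hv0⟩ := hqn
  let b := Module.finBasis (Module.End S V) V
  have h1 : ∀ i, ∃ s : S, ∀ j, s • b j = if j = i then v0 else 0 := by
    intro i
    obtain ⟨f, hf⟩ := exists_linearMap_of_indep b.linearIndependent
      (fun j => if j = i then v0 else 0)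
    obtain ⟨s, hs⟩ := jacobson_density f (Finset.univ.image b)
    refine ⟨s, fun j => ?_⟩
    rw [← hs (b j) (Finset.mem_image_of_mem _ (Finset.mem_univ j)), hf]
  choose s' hs' using h1
  have h2 : ∀ i, ∃ s : S, s • (q • v0) = b i := by
    intro i
    have := isSimpleModule_iff_toSpanSingleton_surjective.mp (inferInstance : IsSimpleModule S V)
    obtain ⟨s, hs⟩ := this.2 (q • v0) hv0 (b i)
    exact ⟨s, hs⟩
  choose s hs using h2
  let y : S := ∑ i, s i * q * s' i
  have hyQ : y ∈ Q := by
    refine Q.sum_mem fun i _ => ?_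
    exact Ideal.mul_mem_right _ _ (Q.mul_mem_left _ hq)
  have hyb : ∀ j, y • b j = b j := by
    intro j
    simp only [y, Finset.sum_smul, mul_smul]
    rw [Finset.sum_eq_single j]
    · rw [hs' j j, if_pos rfl, hs]
    · intro i _ hij
      rw [hs' i j, if_neg (Ne.symm hij), smul_zero, smul_zero]
    · intro h; exact absurd (Finset.mem_univ _) h
  have hy1 : Module.toModuleEnd (Module.End S V) (S := S) V y = LinearMap.id :=
    b.ext fun j => hyb j
  have hy2 : ∀ x : V, y • x = x := fun x => congrArg (fun g => g x) hy1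
  have hy3 : 1 - y ∈ Q := hQ (by
    rw [Module.mem_annihilator]
    intro m
    rw [sub_smul, one_smul, hy2, sub_self])
  rw [Ideal.eq_top_iff_one]
  have := Q.add_mem hyQ hy3
  rwa [add_sub_cancel] at this

end simple

/-- completing to a bijection -/
theorem exists_bij {D V W : Type*} [DivisionRing D] [AddCommGroup V] [Module D V]
    [Module.Finite D V] [AddCommGroup W] [Module D W] (f : V →ₗ[D] V) (g : V →ₗ[D] W)
    (h : ∀ x, f x = 0 → g x = 0 → x = 0) :
    ∃ φ : W →ₗ[D] V, Function.Bijective (f + φ ∘ₗ g) := by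
  obtain ⟨C, hC⟩ := (LinearMap.range f).exists_isCompl
  have hfr : Module.finrank D (LinearMap.ker f) = Module.finrank D C := by
    have h1 := LinearMap.finrank_range_add_finrank_ker f
    have h2 := Submodule.finrank_add_eq_of_isCompl hC
    omega
  let θ : LinearMap.ker f ≃ₗ[D] C := LinearEquiv.ofFinrankEq _ _ hfr
  have hinj : LinearMap.ker (g ∘ₗ (LinearMap.ker f).subtype) = ⊥ := by
    rw [LinearMap.ker_eq_bot']
    intro x hx
    apply Subtype.ext
    exact h x.1 x.2 hx
  obtain ⟨l, hl⟩ := LinearMap.exists_leftInverse_of_injective _ hinj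
  refine ⟨C.subtype ∘ₗ (θ : LinearMap.ker f →ₗ[D] C) ∘ₗ l, ?_⟩
  set F := f + (C.subtype ∘ₗ (θ : LinearMap.ker f →ₗ[D] C) ∘ₗ l) ∘ₗ g with hF
  have hFi : Function.Injective F := by
    rw [← LinearMap.ker_eq_bot, LinearMap.ker_eq_bot']
    intro x hx
    have e1 : f x + (θ (l (g x)) : V) = 0 := hx
    have m1 : f x ∈ LinearMap.range f := ⟨x, rfl⟩
    have m2 : f x ∈ C := by
      rw [eq_neg_of_add_eq_zero_left e1]
      exact C.neg_mem (θ (l (g x))).2
    have e2 : f x = 0 := by
      have := hC.disjoint.le_bot ⟨m1, m2⟩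
      simpa using this
    have e3 : θ (l (g x)) = 0 := by
      rw [e2, zero_add] at e1
      exact Subtype.ext e1
    have e4 : l (g x) = 0 := by simpa using e3
    have e5 : l (g x) = ⟨x, e2⟩ := congrArg (fun k => k ⟨x, e2⟩) hl
    rw [e4] at e5
    exact (congrArg Subtype.val e5).symm
  exact ⟨hFi, LinearMap.injective_iff_surjective.mp hFi⟩

end H40
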