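import Mathlib

/-! Gram vectors of the Cauchy matrix and the multiplier of the squared positive part. -/

namespace Pool.H40.PL

open Finset

/-- Finite Gram vectors of the Cauchy matrix `1/(r+s)`. -/
theorem cauchy_gram (S : Finset ℝ) (hS : ∀ r ∈ S, 0 < r) :
    ∃ (k : ℕ) (g : ℝ → Fin k → ℝ), ∀ r ∈ S, ∀ s ∈ S, ∑ i, g r i * g s i = 1 / (r + s) := by
  classical
  induction S using Finset.induction_on with
  | empty => exact ⟨0, fun _ _ => 0, by simp⟩
  | @insert a S ha ih =>
    obtain ⟨k, g, hg⟩ := ih (fun r hr => hS r (Finset.mem_insert_of_mem hr))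
    have ha0 : 0 < a := hS a (Finset.mem_insert_self a S)
    refine ⟨k + 1, fun r => Fin.cons (Real.sqrt (2 * a) / (r + a))
      (fun i => (r - a) / (r + a) * g r i), ?_⟩
    intro r hr s hs
    have hr0 : 0 < r := hS r hr
    have hs0 : 0 < s := hS s hs
    have h2 : Real.sqrt (2 * a) * Real.sqrt (2 * a) = 2 * a :=
      Real.mul_self_sqrt (by linarith)
    have hra : r + a ≠ 0 := by positivity
    have hsa : s + a ≠ 0 := by positivity
    have hrs : r + s ≠ 0 := by positivity
    rw [Fin.sum_univ_succ]
    simp only [Fin.cons_zero, Fin.cons_succ]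
    have e1 : Real.sqrt (2 * a) / (r + a) * (Real.sqrt (2 * a) / (s + a))
        = 2 * a / ((r + a) * (s + a)) := by
      rw [div_mul_div_comm, h2]
    have e2 : ∑ i, (r - a) / (r + a) * g r i * ((s - a) / (s + a) * g s i)
        = (r - a) / (r + a) * ((s - a) / (s + a)) * ∑ i, g r i * g s i := by
      rw [Finset.mul_sum]
      refine Finset.sum_congr rfl fun i _ => by ring
    rw [e1, e2]
    rcases Finset.mem_insert.1 hr with rfl | hr'
    · field_simp
      ring
    rcases Finset.mem_insert.1 hs with rfl | hs'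
    · field_simp
      ring
    rw [hg r hr' s hs']
    field_simp
    ring

/-- The positive part squared is Lipschitz with a factorised divided difference. -/
theorem sq_plus_mul {X : Type} [Fintype X] (y : X → ℝ) {R : ℝ} (hR : 0 < R)
    (hy : ∀ x, |y x| ≤ R) :
    ∃ (F : Type) (_ : Fintype F) (a b : X → F → ℝ),
      (∀ x, ∑ f, a x f ^ 2 ≤ 3 * R) ∧ (∀ x, ∑ f, b x f ^ 2 ≤ 3 * R) ∧
      ∀ x x', (max (y x) 0) ^ 2 - (max (y x') 0) ^ 2
        = (∑ f, a x f * b x' f) * (y x - y x') := by
  classical
  set p : X → ℝ := fun x => max (y x) 0 with hp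
  set n : X → ℝ := fun x => max (-(y x)) 0 with hn
  obtain ⟨k, g, hg⟩ := cauchy_gram
    (((Finset.univ.image p) ∪ (Finset.univ.image n)).filter (fun r => 0 < r))
    (fun r hr => (Finset.mem_filter.1 hr).2)
  have hpS : ∀ x, 0 < p x → p x ∈ (((Finset.univ.image p) ∪ (Finset.univ.image n)).filter
      (fun r => 0 < r)) := fun x hx => Finset.mem_filter.2
        ⟨Finset.mem_union_left _ (Finset.mem_image_of_mem _ (Finset.mem_univ x)), hx⟩
  have hnS : ∀ x, 0 < n x → n x ∈ (((Finset.univ.image p) ∪ (Finset.univ.image n)).filter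
      (fun r => 0 < r)) := fun x hx => Finset.mem_filter.2
        ⟨Finset.mem_union_right _ (Finset.mem_image_of_mem _ (Finset.mem_univ x)), hx⟩
  have hp0 : ∀ x, 0 ≤ p x := fun x => le_max_right _ _
  have hn0 : ∀ x, 0 ≤ n x := fun x => le_max_right _ _
  have hpR : ∀ x, p x ≤ R := fun x => max_le ((le_abs_self _).trans (hy x)) hR.le
  have hnR : ∀ x, n x ≤ R := fun x => max_le ((neg_le_abs _).trans (hy x)) hR.le
  have hyp : ∀ x, y x = p x - n x := by
    intro x
    simp only [hp, hn]
    rcases le_total (y x) 0 with h | h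
    · rw [max_eq_right h, max_eq_left (by linarith)]; ring
    · rw [max_eq_left h, max_eq_right (by linarith)]; ring
  have hpn : ∀ x, p x * n x = 0 := by
    intro x
    simp only [hp, hn]
    rcases le_total (y x) 0 with h | h
    · rw [max_eq_right h]; ring
    · rw [max_eq_right (show -(y x) ≤ 0 by linarith)]; ring
  -- squared norms
  have hgp : ∀ x, ∑ i, (p x * g (p x) i) ^ 2 = p x / 2 := by
    intro x
    rcases (hp0 x).eq_or_lt with h | h
    · rw [← h]; simp
    · have h1 := hg _ (hpS x h) _ (hpS x h)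
      have : ∑ i, (p x * g (p x) i) ^ 2 = p x ^ 2 * ∑ i, g (p x) i * g (p x) i := by
        rw [Finset.mul_sum]
        exact Finset.sum_congr rfl fun i _ => by ring
      rw [this, h1]
      field_simp
      ring
  have hgn : ∀ x, ∑ i, (n x * g (n x) i) ^ 2 = n x / 2 := by
    intro x
    rcases (hn0 x).eq_or_lt with h | h
    · rw [← h]; simp
    · have h1 := hg _ (hnS x h) _ (hnS x h)
      have : ∑ i, (n x * g (n x) i) ^ 2 = n x ^ 2 * ∑ i, g (n x) i * g (n x) i := by
        rw [Finset.mul_sum]
        exact Finset.sum_congr rfl fun i _ => by ring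
      rw [this, h1]
      field_simp
      ring
  have hcross : ∀ x x', ∑ i, (p x * g (p x) i) * (n x' * g (n x') i)
      = p x * n x' / (p x + n x') := by
    intro x x'
    have e : ∑ i, (p x * g (p x) i) * (n x' * g (n x') i)
        = p x * n x' * ∑ i, g (p x) i * g (n x') i := by
      rw [Finset.mul_sum]
      exact Finset.sum_congr rfl fun i _ => by ring
    rw [e]
    rcases (hp0 x).eq_or_lt with h | h
    · rw [← h]; simp
    rcases (hn0 x').eq_or_lt with h' | h'
    · rw [← h']; simp
    rw [hg _ (hpS x h) _ (hnS x' h')]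
    ring
  have hcross2 : ∀ x x', ∑ i, (n x * g (n x) i) * (p x' * g (p x') i)
      = n x * p x' / (n x + p x') := by
    intro x x'
    have := hcross x' x
    rw [show n x * p x' / (n x + p x') = p x' * n x / (p x' + n x) by
      rw [mul_comm (n x), add_comm (n x)], ← this]
    exact Finset.sum_congr rfl fun i _ => by ring
  have hsR : Real.sqrt R * Real.sqrt R = R := Real.mul_self_sqrt hR.le
  have hs0 : Real.sqrt R ≠ 0 := (Real.sqrt_pos.2 hR).ne'
  refine ⟨Fin 2 ⊕ (Fin k ⊕ Fin k), inferInstance,
    fun x => Sum.elim ![p x / Real.sqrt R, Real.sqrt R]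
      (Sum.elim (fun i => p x * g (p x) i) (fun i => n x * g (n x) i)),
    fun x => Sum.elim ![Real.sqrt R, p x / Real.sqrt R]
      (Sum.elim (fun i => - (n x * g (n x) i)) (fun i => - (p x * g (p x) i))), ?_, ?_, ?_⟩
  · intro x
    simp only [Fintype.sum_sum_type, Sum.elim_inl, Sum.elim_inr, Fin.sum_univ_two,
      Matrix.cons_val_zero, Matrix.cons_val_one]
    rw [hgp, hgn, div_pow, Real.sq_sqrt hR.le]
    have : p x ^ 2 / R ≤ R := by
      rw [div_le_iff₀ hR]
      nlinarith [hp0 x, hpR x]
    nlinarith [hpR x, hnR x]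
  · intro x
    simp only [Fintype.sum_sum_type, Sum.elim_inl, Sum.elim_inr, Fin.sum_univ_two,
      Matrix.cons_val_zero, Matrix.cons_val_one, neg_sq]
    rw [hgp, hgn, div_pow, Real.sq_sqrt hR.le]
    have : p x ^ 2 / R ≤ R := by
      rw [div_le_iff₀ hR]
      nlinarith [hp0 x, hpR x]
    nlinarith [hpR x, hnR x]
  · intro x x'
    simp only [Fintype.sum_sum_type, Sum.elim_inl, Sum.elim_inr, Fin.sum_univ_two,
      Matrix.cons_val_zero, Matrix.cons_val_one]
    have e1 : ∑ i, p x * g (p x) i * -(n x' * g (n x') i)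
        = - (p x * n x' / (p x + n x')) := by
      rw [← hcross x x', ← Finset.sum_neg_distrib]
      exact Finset.sum_congr rfl fun i _ => by ring
    have e2 : ∑ i, n x * g (n x) i * -(p x' * g (p x') i)
        = - (n x * p x' / (n x + p x')) := by
      rw [← hcross2 x x', ← Finset.sum_neg_distrib]
      exact Finset.sum_congr rfl fun i _ => by ring
    rw [e1, e2]
    have e3 : p x / Real.sqrt R * Real.sqrt R = p x := by field_simp
    have e4 : Real.sqrt R * (p x' / Real.sqrt R) = p x' := by field_simp
    have e5 : y x - y x' = (p x - n x) - (p x' - n x') := by rw [hyp x, hyp x']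
    rw [e3, e4, e5]
    change p x ^ 2 - p x' ^ 2 = _
    rcases mul_eq_zero.1 (hpn x) with h | h
    · rcases mul_eq_zero.1 (hpn x') with h' | h'
      · rw [h, h']; ring
      · rw [h, h']
        rcases (hn0 x).eq_or_lt with h2 | h2
        · rw [← h2]
          rcases (hp0 x').eq_or_lt with h3 | h3
          · rw [← h3]; ring
          · field_simp; ring
        · have h4 : n x + p x' ≠ 0 := by have := hp0 x'; positivity
          field_simp
          ring
    · rcases mul_eq_zero.1 (hpn x') with h' | h'
      · rw [h, h']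
        rcases (hp0 x).eq_or_lt with h2 | h2
        · rw [← h2]
          rcases (hn0 x').eq_or_lt with h3 | h3
          · rw [← h3]; ring
          · field_simp; ring
        · have h4 : p x + n x' ≠ 0 := by have := hn0 x'; positivity
          field_simp
          ring
      · rw [h, h']
        ring

end Pool.H40.PL
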