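import Mathlib
import Pool.Agent.H40.PLCauchy

namespace Pool.H40.PL

open Finset

/-- The cost of a kernel `K` on `A × B` is at most `c`. -/
def KC {i : Type} [Fintype i] (A B : Set (i → Bool)) (K : (i → Bool) → (i → Bool) → ℝ)
    (c : ℝ) : Prop :=
  ∃ (E : Type) (_ : Fintype E) (u v : (i → Bool) → i → E → ℝ),
    (∀ x ∈ A, ∑ j, ∑ e, (u x j e) ^ 2 ≤ c) ∧ (∀ y ∈ B, ∑ j, ∑ e, (v y j e) ^ 2 ≤ c) ∧
    ∀ x ∈ A, ∀ y ∈ B, ∑ j, ∑ e, (if x j = y j then 0 else u x j e * v y j e) = K x y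

theorem KC.congr {i : Type} [Fintype i] {A B : Set (i → Bool)}
    {K K' : (i → Bool) → (i → Bool) → ℝ} {c : ℝ} (h : KC A B K c)
    (hK : ∀ x ∈ A, ∀ y ∈ B, K x y = K' x y) : KC A B K' c := by
  obtain ⟨E, iE, u, v, hu, hv, h1⟩ := h
  exact ⟨E, iE, u, v, hu, hv, fun x hx y hy => (h1 x hx y hy).trans (hK x hx y hy)⟩

/-- Entrywise product with a factorised kernel. -/
theorem KC.mul {i : Type} [Fintype i] {A B : Set (i → Bool)}
    {K : (i → Bool) → (i → Bool) → ℝ} {c m : ℝ} (h : KC A B K c)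
    {F : Type} [Fintype F] (a b : (i → Bool) → F → ℝ)
    (ha : ∀ x ∈ A, ∑ f, a x f ^ 2 ≤ m) (hb : ∀ y ∈ B, ∑ f, b y f ^ 2 ≤ m) :
    KC A B (fun x y => (∑ f, a x f * b y f) * K x y) (m * c) := by
  obtain ⟨E, iE, u, v, hu, hv, h1⟩ := h
  refine ⟨F × E, inferInstance, fun x j p => a x p.1 * u x j p.2,
    fun y j p => b y p.1 * v y j p.2, ?_, ?_, ?_⟩
  · intro x hx
    have e : ∑ j, ∑ p : F × E, (a x p.1 * u x j p.2) ^ 2
        = (∑ f, a x f ^ 2) * ∑ j, ∑ e, (u x j e) ^ 2 := by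
      rw [Finset.mul_sum]
      refine Finset.sum_congr rfl fun j _ => ?_
      rw [Fintype.sum_prod_type, Finset.sum_mul_sum]
      exact Finset.sum_congr rfl fun f _ => Finset.sum_congr rfl fun e _ => by ring
    rw [e]
    have h0 : 0 ≤ ∑ f, a x f ^ 2 := Finset.sum_nonneg fun f _ => sq_nonneg _
    have h2 : 0 ≤ ∑ j, ∑ e, (u x j e) ^ 2 :=
      Finset.sum_nonneg fun j _ => Finset.sum_nonneg fun e _ => sq_nonneg _
    exact mul_le_mul (ha x hx) (hu x hx) h2 (h0.trans (ha x hx))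
  · intro x hx
    have e : ∑ j, ∑ p : F × E, (b x p.1 * v x j p.2) ^ 2
        = (∑ f, b x f ^ 2) * ∑ j, ∑ e, (v x j e) ^ 2 := by
      rw [Finset.mul_sum]
      refine Finset.sum_congr rfl fun j _ => ?_
      rw [Fintype.sum_prod_type, Finset.sum_mul_sum]
      exact Finset.sum_congr rfl fun f _ => Finset.sum_congr rfl fun e _ => by ring
    rw [e]
    have h0 : 0 ≤ ∑ f, b x f ^ 2 := Finset.sum_nonneg fun f _ => sq_nonneg _
    have h2 : 0 ≤ ∑ j, ∑ e, (v x j e) ^ 2 :=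
      Finset.sum_nonneg fun j _ => Finset.sum_nonneg fun e _ => sq_nonneg _
    exact mul_le_mul (hb x hx) (hv x hx) h2 (h0.trans (hb x hx))
  · intro x hx y hy
    change _ = (∑ f, a x f * b y f) * K x y
    rw [← h1 x hx y hy, Finset.mul_sum]
    refine Finset.sum_congr rfl fun j _ => ?_
    rw [Fintype.sum_prod_type, Finset.sum_mul_sum]
    refine Finset.sum_congr rfl fun f _ => Finset.sum_congr rfl fun e _ => ?_
    by_cases hxy : x j = y j
    · simp [hxy]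
    · simp only [hxy, if_false]; ring

/-- Functional calculus for the squared positive part. -/
theorem KC.sq_plus {i : Type} [Fintype i] {L R : ℝ} {y : (i → Bool) → ℝ} (hR : 0 < R)
    (hy : ∀ x, |y x| ≤ R) (h : KC Set.univ Set.univ (fun x x' => y x - y x') L) :
    KC Set.univ Set.univ (fun x x' => (max (y x) 0) ^ 2 - (max (y x') 0) ^ 2)
      (3 * R * L) := by
  classical
  obtain ⟨F, iF, a, b, ha, hb, h1⟩ := sq_plus_mul y hR hy
  refine (h.mul a b (fun x _ => ha x) (fun x _ => hb x)).congr fun x _ x' _ => ?_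
  exact (h1 x x').symm

end Pool.H40.PL
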