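import Mathlib

namespace Pool.H40.PL

open Finset

/-- Minimisers of a positive diagonal quadratic form on an affine subspace. -/
theorem soft_min {P Y : Type} [Fintype P] (ω : Y → P → ℝ) (B : Set Y) (w0 : P → ℝ)
    (h0 : ∀ y ∈ B, ∑ p, ω y p * w0 p = 1) (m : P → ℝ) (hm : ∀ p, 0 < m p) :
    ∃ w : P → ℝ, (∀ y ∈ B, ∑ p, ω y p * w p = 1) ∧
      ∀ w' : P → ℝ, (∀ y ∈ B, ∑ p, ω y p * w' p = 1) →
        ∑ p, m p * w p * (w' p - w p) = 0 := by
  classical
  -- the direction space, scaled
  let K : Submodule ℝ (EuclideanSpace ℝ P) :=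
    { carrier := {z | ∀ y ∈ B, ∑ p, ω y p * (z p / Real.sqrt (m p)) = 0}
      zero_mem' := by intro y _; simp
      add_mem' := by
        intro a b ha hb y hy
        have e : ∑ p, ω y p * ((a + b) p / Real.sqrt (m p))
            = ∑ p, ω y p * (a p / Real.sqrt (m p)) + ∑ p, ω y p * (b p / Real.sqrt (m p)) := by
          rw [← Finset.sum_add_distrib]
          refine Finset.sum_congr rfl fun p _ => ?_
          rw [PiLp.add_apply]; ring
        rw [e, ha y hy, hb y hy, add_zero]
      smul_mem' := by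
        intro r a ha y hy
        have e : ∑ p, ω y p * ((r • a) p / Real.sqrt (m p))
            = r * ∑ p, ω y p * (a p / Real.sqrt (m p)) := by
          rw [Finset.mul_sum]
          refine Finset.sum_congr rfl fun p _ => ?_
          rw [PiLp.smul_apply, smul_eq_mul]; ring
        rw [e, ha y hy, mul_zero] }
  have hs : ∀ p, Real.sqrt (m p) ≠ 0 := fun p => (Real.sqrt_pos.2 (hm p)).ne'
  have hss : ∀ p, Real.sqrt (m p) * Real.sqrt (m p) = m p := fun p =>
    Real.mul_self_sqrt (hm p).le
  obtain ⟨a, ha, z, hz, haz⟩ := K.exists_add_mem_mem_orthogonal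
    (WithLp.toLp 2 (fun p => Real.sqrt (m p) * w0 p) : EuclideanSpace ℝ P)
  have hazp : ∀ p, Real.sqrt (m p) * w0 p = a p + z p := by
    intro p
    have := congrArg (fun v : EuclideanSpace ℝ P => v p) haz
    simpa using this
  refine ⟨fun p => z p / Real.sqrt (m p), ?_, ?_⟩
  · intro y hy
    have h1 : ∑ p, ω y p * (a p / Real.sqrt (m p)) = 0 := ha y hy
    rw [← h0 y hy, ← sub_eq_zero, ← Finset.sum_sub_distrib]
    rw [← neg_eq_zero, ← Finset.sum_neg_distrib, ← h1]
    refine Finset.sum_congr rfl fun p _ => ?_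
    have e : w0 p = a p / Real.sqrt (m p) + z p / Real.sqrt (m p) := by
      rw [← add_div, ← hazp p]; field_simp [hs p]
    rw [e]; ring
  · intro w' hw'
    -- the vector √m (w' - w) lies in K
    have hK : (WithLp.toLp 2 (fun p => Real.sqrt (m p) * w' p - z p) : EuclideanSpace ℝ P)
        ∈ K := by
      intro y hy
      have h1 : ∑ p, ω y p * (a p / Real.sqrt (m p)) = 0 := ha y hy
      have h2 := h0 y hy
      have h3 := hw' y hy
      have : ∑ p, ω y p * ((Real.sqrt (m p) * w' p - z p) / Real.sqrt (m p))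
          = ∑ p, ω y p * w' p - ∑ p, ω y p * w0 p + ∑ p, ω y p * (a p / Real.sqrt (m p)) := by
        rw [← Finset.sum_sub_distrib, ← Finset.sum_add_distrib]
        refine Finset.sum_congr rfl fun p _ => ?_
        have e : w0 p = a p / Real.sqrt (m p) + z p / Real.sqrt (m p) := by
          rw [← add_div, ← hazp p]; field_simp [hs p]
        rw [e, sub_div, mul_div_cancel_left₀ _ (hs p)]; ring
      change ∑ p, ω y p * ((Real.sqrt (m p) * w' p - z p) / Real.sqrt (m p)) = 0
      rw [this, h1, h2, h3]; ring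
    have h4 := (K.mem_orthogonal z).1 hz _ hK
    rw [PiLp.inner_apply] at h4
    simp only [RCLike.inner_apply, conj_trivial] at h4
    rw [← h4]
    refine Finset.sum_congr rfl fun p _ => ?_
    have e : m p = Real.sqrt (m p) * Real.sqrt (m p) := (hss p).symm
    have h5 := hs p
    rw [show m p * (z p / Real.sqrt (m p)) = Real.sqrt (m p) * z p by
      rw [mul_div_assoc', div_eq_iff h5]
      calc m p * z p = (Real.sqrt (m p) * Real.sqrt (m p)) * z p := by rw [hss p]
        _ = _ := by ring]
    rw [mul_sub, show Real.sqrt (m p) * z p * (z p / Real.sqrt (m p)) = z p * z p by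
      field_simp]
    ring

end Pool.H40.PL
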