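import Mathlib
import Pool.Agent.H40.PLFun
import Pool.Agent.H40.PLSoftMin

namespace Pool.H40.PL

open Finset

theorem sum_split {i E : Type} [Fintype i] [Fintype E] (x : i → Bool)
    (f : i × Bool × E → ℝ) :
    ∑ p, f p = ∑ j, ∑ e, (f (j, x j, e) + f (j, !x j, e)) := by
  rw [Fintype.sum_prod_type]
  refine Finset.sum_congr rfl fun j _ => ?_
  rw [Fintype.sum_prod_type, Fintype.sum_bool, ← Finset.sum_add_distrib]
  refine Finset.sum_congr rfl fun e _ => ?_
  cases x j
  · simp [add_comm]
  · simp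

/-- A kernel that is one on a nonempty rectangle costs at least one. -/
theorem KC.one_le {i : Type} [Fintype i] {A B : Set (i → Bool)} {c : ℝ}
    (hA : A.Nonempty) (hB : B.Nonempty) (h : KC A B (fun _ _ => 1) c) : 1 ≤ c := by
  obtain ⟨E, iE, u, v, hu, hv, h1⟩ := h
  obtain ⟨x, hx⟩ := hA
  obtain ⟨y, hy⟩ := hB
  have h2 : ∑ j, ∑ e, (if x j = y j then 0 else u x j e * v y j e)
      ≤ ∑ j, ∑ e, ((u x j e) ^ 2 / 2 + (v y j e) ^ 2 / 2) := by
    refine Finset.sum_le_sum fun j _ => Finset.sum_le_sum fun e _ => ?_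
    split_ifs
    · positivity
    · nlinarith [sq_nonneg (u x j e - v y j e)]
  have h3 : ∑ j, ∑ e, ((u x j e) ^ 2 / 2 + (v y j e) ^ 2 / 2)
      = (∑ j, ∑ e, (u x j e) ^ 2) / 2 + (∑ j, ∑ e, (v y j e) ^ 2) / 2 := by
    simp only [Finset.sum_add_distrib, Finset.sum_div]
  have h4 := h1 x hx y hy
  have h5 := hu x hx
  have h6 := hv y hy
  simp only at h4
  linarith

/-- Soft totalisation: a total function `T` separating `A` and `B` whose difference kernel
has cost at most `3c/4`. -/
theorem soft_total {i : Type} [Fintype i] {A B : Set (i → Bool)} {c : ℝ}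
    (hA : A.Nonempty) (hB : B.Nonempty) (h : KC A B (fun _ _ => 1) c) :
    ∃ T : (i → Bool) → ℝ, (∀ x, 0 ≤ T x) ∧ (∀ x, T x ≤ 1) ∧ (∀ x ∈ A, T x ≤ 1 / 4) ∧
      (∀ x ∈ B, 3 / 4 ≤ T x) ∧
      KC Set.univ Set.univ (fun x y => T x - T y) (3 / 4 * c) := by
  classical
  have hc : 1 ≤ c := h.one_le hA hB
  obtain ⟨E, iE, u, v, hu, hv, h1'⟩ := h
  have h1 : ∀ x ∈ A, ∀ y ∈ B,
      ∑ j, ∑ e, (if x j = y j then 0 else u x j e * v y j e) = (1 : ℝ) := h1'
  obtain ⟨x0, hx0⟩ := hA
  set ω : (i → Bool) → (i × Bool × E) → ℝ := fun y p => if p.2.1 = y p.1 then 0 else v y p.1 p.2.2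
    with hω
  set wA : (i → Bool) → (i × Bool × E) → ℝ := fun x p => if p.2.1 = x p.1 then u x p.1 p.2.2 else 0
    with hwA
  set m : (i → Bool) → (i × Bool × E) → ℝ := fun x p => if p.2.1 = x p.1 then 1 else 9 * c ^ 2
    with hm
  have hm0 : ∀ x p, 0 < m x p := by
    intro x p
    simp only [hm]
    split_ifs
    · norm_num
    · positivity
  have hwAadm : ∀ x ∈ A, ∀ y ∈ B, ∑ p, ω y p * wA x p = 1 := by
    intro x hx y hy
    rw [sum_split x, ← h1 x hx y hy]
    refine Finset.sum_congr rfl fun j _ => Finset.sum_congr rfl fun e _ => ?_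
    simp only [hω, hwA]
    by_cases hxy : x j = y j
    · simp [hxy]
    · simp [hxy, mul_comm]
  choose w hw hw' using fun x => soft_min ω B (wA x0) (hwAadm x0 hx0) (m x) (hm0 x)
  set En : (i → Bool) → ℝ := fun x => ∑ p, m x p * (w x p) ^ 2 with hEn
  have hE0 : ∀ x, 0 ≤ En x := fun x =>
    Finset.sum_nonneg fun p _ => mul_nonneg (hm0 x p).le (sq_nonneg _)
  -- pairing with any admissible vector
  have hpair : ∀ x (z : (i × Bool × E) → ℝ), (∀ y ∈ B, ∑ p, ω y p * z p = 1) →
      ∑ p, m x p * w x p * z p = En x := by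
    intro x z hz
    have := hw' x z hz
    have e : ∑ p, m x p * w x p * (z p - w x p)
        = ∑ p, m x p * w x p * z p - En x := by
      simp only [hEn]
      rw [← Finset.sum_sub_distrib]
      exact Finset.sum_congr rfl fun p _ => by ring
    linarith
  have hEsplit : ∀ x, En x = ∑ j, ∑ e, ((w x (j, x j, e)) ^ 2
      + 9 * c ^ 2 * (w x (j, !x j, e)) ^ 2) := by
    intro x
    simp only [hEn]
    rw [sum_split x]
    refine Finset.sum_congr rfl fun j _ => Finset.sum_congr rfl fun e _ => ?_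
    simp [hm]
  -- on A
  have hEA : ∀ x ∈ A, En x ≤ c := by
    intro x hx
    have h2 := hpair x (wA x) (hwAadm x hx)
    have h3 : 0 ≤ ∑ p, m x p * (w x p - wA x p) ^ 2 :=
      Finset.sum_nonneg fun p _ => mul_nonneg (hm0 x p).le (sq_nonneg _)
    have h4 : ∑ p, m x p * (w x p - wA x p) ^ 2
        = En x - 2 * ∑ p, m x p * w x p * wA x p + ∑ p, m x p * (wA x p) ^ 2 := by
      simp only [hEn]
      rw [Finset.mul_sum, ← Finset.sum_sub_distrib, ← Finset.sum_add_distrib]
      exact Finset.sum_congr rfl fun p _ => by ring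
    have h5 : ∑ p, m x p * (wA x p) ^ 2 = ∑ j, ∑ e, (u x j e) ^ 2 := by
      rw [sum_split x]
      refine Finset.sum_congr rfl fun j _ => Finset.sum_congr rfl fun e _ => ?_
      simp [hm, hwA]
    have h6 := hu x hx
    linarith
  -- on B
  have hEB : ∀ x ∈ B, 9 * c ≤ En x := by
    intro x hx
    have h2 := hw x x hx
    have h3 : ∑ p, ω x p * w x p = ∑ j, ∑ e, v x j e * w x (j, !x j, e) := by
      rw [sum_split x]
      refine Finset.sum_congr rfl fun j _ => Finset.sum_congr rfl fun e _ => ?_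
      simp [hω]
    have h4 : ∑ j, ∑ e, v x j e * w x (j, !x j, e)
        ≤ ∑ j, ∑ e, ((v x j e) ^ 2 / (2 * c) + c / 2 * (w x (j, !x j, e)) ^ 2) := by
      refine Finset.sum_le_sum fun j _ => Finset.sum_le_sum fun e _ => ?_
      have : (v x j e) ^ 2 / (2 * c) + c / 2 * (w x (j, !x j, e)) ^ 2
          - v x j e * w x (j, !x j, e) = (v x j e - c * w x (j, !x j, e)) ^ 2 / (2 * c) := by
        field_simp
        ring
      have h5 : 0 ≤ (v x j e - c * w x (j, !x j, e)) ^ 2 / (2 * c) := by positivity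
      linarith
    have h5 : ∑ j, ∑ e, ((v x j e) ^ 2 / (2 * c) + c / 2 * (w x (j, !x j, e)) ^ 2)
        = (∑ j, ∑ e, (v x j e) ^ 2) / (2 * c)
          + c / 2 * ∑ j, ∑ e, (w x (j, !x j, e)) ^ 2 := by
      simp only [Finset.sum_add_distrib, Finset.sum_div, Finset.mul_sum]
    have h6 : (∑ j, ∑ e, (v x j e) ^ 2) / (2 * c) ≤ 1 / 2 := by
      rw [div_le_iff₀ (by linarith)]
      have := hv x hx
      linarith
    have h7 : 1 / c ≤ ∑ j, ∑ e, (w x (j, !x j, e)) ^ 2 := by
      rw [div_le_iff₀ (by linarith)]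
      nlinarith
    have h8 : 9 * c ^ 2 * ∑ j, ∑ e, (w x (j, !x j, e)) ^ 2 ≤ En x := by
      rw [hEsplit, Finset.mul_sum]
      refine Finset.sum_le_sum fun j _ => ?_
      rw [Finset.mul_sum]
      refine Finset.sum_le_sum fun e _ => ?_
      nlinarith [sq_nonneg (w x (j, x j, e))]
    have h9 : 9 * c ^ 2 * (1 / c) = 9 * c := by field_simp
    nlinarith [mul_le_mul_of_nonneg_left h7 (show (0:ℝ) ≤ 9 * c ^ 2 by positivity)]
  -- difference
  have hdiff : ∀ x y, En x - En y = ∑ j, ∑ e, (if x j = y j then 0 else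
      (9 * c ^ 2 - 1) * (w x (j, !x j, e) * w y (j, y j, e)
        - w x (j, x j, e) * w y (j, !y j, e))) := by
    intro x y
    rw [← hpair x (w y) (hw y), ← hpair y (w x) (hw x), ← Finset.sum_sub_distrib,
      sum_split x]
    refine Finset.sum_congr rfl fun j _ => Finset.sum_congr rfl fun e _ => ?_
    simp only [hm]
    by_cases hxy : x j = y j
    · simp [hxy]
      ring
    · have h2 : (!x j) = y j := by
        revert hxy
        cases x j <;> cases y j <;> simp
      have h3 : (!y j) = x j := by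
        revert hxy
        cases x j <;> cases y j <;> simp
      have h4 : y j ≠ x j := fun h => hxy h.symm
      simp only [h2, h3, hxy, h4, if_false, if_true]
      ring
  have hpos : ∀ x, 0 < En x + 3 * c := fun x => by linarith [hE0 x]
  refine ⟨fun x => En x / (En x + 3 * c), fun x => div_nonneg (hE0 x) (hpos x).le, ?_, ?_, ?_, ?_⟩
  · intro x
    rw [div_le_one (hpos x)]
    linarith
  · intro x hx
    rw [div_le_iff₀ (hpos x)]
    linarith [hEA x hx]
  · intro x hx
    rw [le_div_iff₀ (hpos x)]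
    linarith [hEB x hx]
  · set σ : ℝ := Real.sqrt (9 * c ^ 2 - 1) with hσ
    have hσ2 : σ ^ 2 = 9 * c ^ 2 - 1 := Real.sq_sqrt (by nlinarith)
    have hkey : ∀ x, σ ^ 2 / (En x + 3 * c) ^ 2 * En x ≤ 3 / 4 * c := by
      intro x
      rw [hσ2, div_mul_eq_mul_div, div_le_iff₀ (by have := hpos x; positivity)]
      have h2 := hE0 x
      nlinarith [sq_nonneg (En x - 3 * c), mul_nonneg (show (0:ℝ) ≤ c by linarith)
        (sq_nonneg (En x - 3 * c))]
    refine ⟨E ⊕ E, inferInstance,
      fun x j => Sum.elim (fun e => σ / (En x + 3 * c) * w x (j, x j, e))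
        (fun e => 3 * c * σ / (En x + 3 * c) * w x (j, !x j, e)),
      fun y j => Sum.elim (fun e => - (3 * c * σ / (En y + 3 * c) * w y (j, !y j, e)))
        (fun e => σ / (En y + 3 * c) * w y (j, y j, e)), ?_, ?_, ?_⟩
    · intro x _
      have e : ∑ j, ∑ e : E ⊕ E, (Sum.elim (fun e => σ / (En x + 3 * c) * w x (j, x j, e))
          (fun e => 3 * c * σ / (En x + 3 * c) * w x (j, !x j, e)) e) ^ 2
          = σ ^ 2 / (En x + 3 * c) ^ 2 * En x := by
        rw [hEsplit x, Finset.mul_sum]
        refine Finset.sum_congr rfl fun j _ => ?_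
        rw [Fintype.sum_sum_type, Finset.mul_sum, ← Finset.sum_add_distrib]
        refine Finset.sum_congr rfl fun e _ => ?_
        rw [← hEsplit x]
        simp only [Sum.elim_inl, Sum.elim_inr]
        have := (hpos x).ne'
        field_simp
        ring
      rw [e]
      exact hkey x
    · intro x _
      have e : ∑ j, ∑ e : E ⊕ E, (Sum.elim
          (fun e => - (3 * c * σ / (En x + 3 * c) * w x (j, !x j, e)))
          (fun e => σ / (En x + 3 * c) * w x (j, x j, e)) e) ^ 2
          = σ ^ 2 / (En x + 3 * c) ^ 2 * En x := by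
        rw [hEsplit x, Finset.mul_sum]
        refine Finset.sum_congr rfl fun j _ => ?_
        rw [Fintype.sum_sum_type, Finset.mul_sum, ← Finset.sum_add_distrib]
        refine Finset.sum_congr rfl fun e _ => ?_
        rw [← hEsplit x]
        simp only [Sum.elim_inl, Sum.elim_inr]
        have := (hpos x).ne'
        field_simp
        ring
      rw [e]
      exact hkey x
    · intro x _ y _
      have hx := (hpos x).ne'
      have hy := (hpos y).ne'
      have e1 : En x / (En x + 3 * c) - En y / (En y + 3 * c)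
          = 3 * c / ((En x + 3 * c) * (En y + 3 * c)) * (En x - En y) := by
        field_simp
        ring
      change _ = En x / (En x + 3 * c) - En y / (En y + 3 * c)
      rw [e1, hdiff x y, Finset.mul_sum]
      refine Finset.sum_congr rfl fun j _ => ?_
      rw [Fintype.sum_sum_type, Finset.mul_sum, ← Finset.sum_add_distrib]
      refine Finset.sum_congr rfl fun e _ => ?_
      by_cases hxy : x j = y j
      · simp [hxy]
      · simp only [hxy, if_false, Sum.elim_inl, Sum.elim_inr]
        rw [← hσ2]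
        field_simp
        ring

end Pool.H40.PL
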