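import Pool.Agent.H40.Elem

set_option autoImplicit false
set_option linter.unusedSectionVars false

namespace H40

open Matrix

variable {ι : Type*} [Fintype ι] [DecidableEq ι] {S : Type*} [Ring S]

/-- a pivot decomposition: `q_l` -/
def qrow (v w : ι → S) (i : ι) (as τ z : S) (l : ι) : ι → S :=
  Pi.single l (τ * v i * z * w l) - Pi.single i (v i * z * w l * (v l * as))

theorem qrow_dot (v w : ι → S) (i : ι) {as τ : S} (z : S) (h1 : v i * as = τ)
    (hτ : ∀ s, τ * s = s * τ) (l : ι) :
    qrow v w i as τ z l ⬝ᵥ (fun k => v k * as) = 0 := by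
  unfold qrow
  rw [sub_dotProduct, single_dotProduct, single_dotProduct]
  show τ * v i * z * w l * (v l * as) - v i * z * w l * (v l * as) * (v i * as) = 0
  rw [h1, ← hτ (v i * z * w l * (v l * as))]
  noncomm_ring

theorem qrow_sum (v w : ι → S) (hwv : w ⬝ᵥ v = 0) (i : ι) {as τ : S} (z : S)
    (h1 : v i * as = τ) (hτ : ∀ s, τ * s = s * τ) :
    ∑ l ∈ Finset.univ.erase i, qrow v w i as τ z l = fun k => τ * v i * z * w k := by
  have hs : ∑ l ∈ Finset.univ.erase i, w l * v l = - (w i * v i) := by
    have := Finset.sum_erase_add (Finset.univ) (fun l => w l * v l) (Finset.mem_univ i)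
    rw [show ∑ x, w x * v x = 0 from hwv] at this
    exact eq_neg_of_add_eq_zero_left this
  funext k
  rw [Finset.sum_apply]
  unfold qrow
  simp only [Pi.sub_apply]
  rw [Finset.sum_sub_distrib]
  by_cases hk : k = i
  · subst hk
    have e1 : ∑ x ∈ Finset.univ.erase k, (Pi.single x (τ * v k * z * w x) : ι → S) k = 0 := by
      refine Finset.sum_eq_zero fun x hx => ?_
      rw [Pi.single_apply, if_neg (Ne.symm (Finset.ne_of_mem_erase hx))]
    have e2 : ∑ x ∈ Finset.univ.erase k,
        (Pi.single k (v k * z * w x * (v x * as)) : ι → S) k =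
        v k * z * (∑ x ∈ Finset.univ.erase k, w x * v x) * as := by
      rw [Finset.mul_sum, Finset.sum_mul]
      refine Finset.sum_congr rfl fun x _ => ?_
      simp only [Pi.single_eq_same, mul_assoc]
    rw [e1, e2, hs, zero_sub]
    calc -(v k * z * -(w k * v k) * as) = v k * z * w k * (v k * as) := by noncomm_ring
      _ = τ * (v k * z * w k) := by rw [h1, hτ]
      _ = _ := by noncomm_ring
  · have e1 : ∑ x ∈ Finset.univ.erase i, (Pi.single x (τ * v i * z * w x) : ι → S) k
        = τ * v i * z * w k := by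
      rw [Finset.sum_eq_single k]
      · simp
      · intro b _ hb
        rw [Pi.single_apply, if_neg (Ne.symm hb)]
      · intro hk'
        exact absurd (Finset.mem_erase.mpr ⟨hk, Finset.mem_univ k⟩) hk'
    have e2 : ∑ x ∈ Finset.univ.erase i,
        (Pi.single i (v i * z * w x * (v x * as)) : ι → S) k = 0 := by
      refine Finset.sum_eq_zero fun x _ => ?_
      rw [Pi.single_apply, if_neg hk]
    rw [e1, e2, sub_zero]

theorem vmv_pivot (v w : ι → S) (i : ι) {as τ : S} (z : S)
    (h2 : as * v i = τ) (hτ : ∀ s, τ * s = s * τ) :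
    vecMulVec (fun k => v k * (τ * τ * z)) w =
      vecMulVec (fun k => v k * as) (fun k => τ * v i * z * w k) := by
  ext k l
  simp only [vecMulVec_apply]
  calc v k * (τ * τ * z) * w l = v k * τ * (τ * (z * w l)) := by noncomm_ring
    _ = v k * τ * (as * v i * (z * w l)) := by rw [h2]
    _ = v k * (τ * as) * (v i * z * w l) := by noncomm_ring
    _ = v k * (as * τ) * (v i * z * w l) := by rw [hτ as]
    _ = _ := by noncomm_ring

theorem scaled_dot (v w : ι → S) (hwv : w ⬝ᵥ v = 0) (c : S) :
    w ⬝ᵥ (fun k => v k * c) = 0 := by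
  unfold dotProduct at *
  calc ∑ i, w i * (v i * c) = (∑ i, w i * v i) * c := by
        rw [Finset.sum_mul]; simp [mul_assoc]
    _ = 0 := by rw [hwv, zero_mul]

/-- the two parts of the column `v * as` -/
def pin (v : ι → S) (i : ι) (as : S) (l : ι) : ι → S :=
  Pi.single i (v i * as) + Pi.single l (v l * as)

def pout (v : ι → S) (i : ι) (as : S) (l : ι) : ι → S :=
  fun k => if k = i ∨ k = l then 0 else v k * as

theorem pout_add_pin (v : ι → S) {i : ι} (as : S) {l : ι} (hl : l ≠ i) :
    pout v i as l + pin v i as l = fun k => v k * as := by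
  funext k
  simp only [pout, pin, Pi.add_apply, Pi.single_apply]
  by_cases h1 : k = i
  · subst h1
    simp [Ne.symm hl]
  · by_cases h2 : k = l
    · subst h2
      simp [h1]
    · simp [h1, h2]

theorem qrow_zero (v w : ι → S) (i : ι) (as τ z : S) {l k : ι} (h1 : k ≠ i) (h2 : k ≠ l) :
    qrow v w i as τ z l k = 0 := by
  simp [qrow, Pi.single_apply, h1, h2]

theorem pin_zero (v : ι → S) (i : ι) (as : S) {l k : ι} (h1 : k ≠ i) (h2 : k ≠ l) :
    pin v i as l k = 0 := by
  simp [pin, Pi.single_apply, h1, h2]

theorem pout_disj (v w : ι → S) (i : ι) (as τ z : S) (l : ι) (k : ι) :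
    pout v i as l k = 0 ∨ qrow v w i as τ z l k = 0 := by
  by_cases h : k = i ∨ k = l
  · left; simp [pout, h]
  · right
    push Not at h
    exact qrow_zero v w i as τ z h.1 h.2

theorem qrow_pin (v w : ι → S) {i : ι} {as τ : S} (z : S) (h1 : v i * as = τ)
    (hτ : ∀ s, τ * s = s * τ) {l : ι} (hl : l ≠ i) :
    qrow v w i as τ z l ⬝ᵥ pin v i as l = 0 := by
  have h := qrow_dot v w i z h1 hτ l
  rw [← pout_add_pin v as hl, dotProduct_add, disj_dot (pout_disj v w i as τ z l), zero_add] at h
  exact h

/-- the piece for `l` splits -/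
theorem piece_split (v w : ι → S) {i : ι} {as τ : S} (z : S) (h1 : v i * as = τ)
    (hτ : ∀ s, τ * s = s * τ) {l : ι} (hl : l ≠ i)
    (h : qrow v w i as τ z l ⬝ᵥ (fun k => v k * as) = 0) :
    unip (fun k => v k * as) (qrow v w i as τ z l) h =
      unip (pout v i as l) (qrow v w i as τ z l) (disj_dot (pout_disj v w i as τ z l)) *
      unip (pin v i as l) (qrow v w i as τ z l) (qrow_pin v w z h1 hτ hl) := by
  rw [← unip_add_left (disj_dot (pout_disj v w i as τ z l)) (qrow_pin v w z h1 hτ hl)
    (by rw [pout_add_pin v as hl]; exact h)]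
  apply unip_ext
  rw [pout_add_pin v as hl]

/-- (R1): conjugates of transvections with entries in `τ² I²` lie in `E(I)`. -/
theorem pivot_mem (h3 : ∀ i l : ι, ∃ h : ι, h ≠ i ∧ h ≠ l) (I : AddSubgroup S)
    (hIl : ∀ s x : S, x ∈ I → s * x ∈ I) (hIr : ∀ s x : S, x ∈ I → x * s ∈ I)
    (v w : ι → S) (hwv : w ⬝ᵥ v = 0) (i : ι) {as τ : S}
    (h1 : v i * as = τ) (h2 : as * v i = τ) (hτ : ∀ s, τ * s = s * τ)
    {z1 z2 : S} (hz1 : z1 ∈ I) (hz2 : z2 ∈ I) :
    unip (fun k => v k * (τ * τ * (z1 * z2))) w (scaled_dot v w hwv _) ∈ EA ι I := by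
  have hQ := qrow_sum v w hwv i (z1 * z2) h1 hτ
  have hdot : ∀ l ∈ Finset.univ.erase i,
      qrow v w i as τ (z1 * z2) l ⬝ᵥ (fun k => v k * as) = 0 :=
    fun l _ => qrow_dot v w i (z1 * z2) h1 hτ l
  have hsum : (∑ l ∈ Finset.univ.erase i, qrow v w i as τ (z1 * z2) l) ⬝ᵥ
      (fun k => v k * as) = 0 := by
    rw [sum_dotProduct]; exact Finset.sum_eq_zero hdot
  have key : unip (fun k => v k * as)
      (∑ l ∈ Finset.univ.erase i, qrow v w i as τ (z1 * z2) l) hsum ∈ EA ι I := by
    refine unip_sum_right_mem (EA ι I) _ _ _ hdot ?_ hsum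
    intro l hl
    have hli : l ≠ i := Finset.ne_of_mem_erase hl
    rw [piece_split v w (z1 * z2) h1 hτ hli]
    refine Subgroup.mul_mem _ ?_ ?_
    · apply unip_disj_mem I (pout_disj v w i as τ (z1 * z2) l)
      intro a b
      apply hIl
      unfold qrow
      simp only [Pi.sub_apply, Pi.single_apply]
      apply I.sub_mem
      · split_ifs
        · apply hIr
          apply hIl
          exact hIr _ _ hz1
        · exact I.zero_mem
      · split_ifs
        · apply hIr
          apply hIr
          apply hIl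
          exact hIr _ _ hz1
        · exact I.zero_mem
    · obtain ⟨h, hhi, hhl⟩ := h3 i l
      have hli' : i ≠ l := Ne.symm hli
      refine unip_mem_of_vanish I (p' := fun k => pin v i as l k * (v i * z1))
        (q' := Pi.single l (z2 * w l * τ) - Pi.single i (z2 * w l * (v l * as))) (h := h)
        _ ?_ ?_ ?_ ?_ ?_ ?_
      · ext a b
        simp only [vecMulVec_apply, qrow, Pi.sub_apply, Pi.single_apply]
        by_cases hb : b = l
        · subst hb
          simp only [if_true, if_neg hli, sub_zero]
          rw [show τ * v i * (z1 * z2) * w b = τ * (v i * (z1 * z2) * w b) by noncomm_ring, hτ]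
          noncomm_ring
        · simp only [if_neg hb, zero_sub]
          by_cases hb2 : b = i
          · simp only [if_pos hb2]; noncomm_ring
          · simp only [if_neg hb2]; simp
      · rw [sub_dotProduct, single_dotProduct, single_dotProduct]
        simp only [pin, Pi.add_apply, Pi.single_apply, if_true, if_neg hli, if_neg hli', zero_add,
          add_zero]
        rw [h1]
        calc z2 * w l * τ * (v l * as * (v i * z1)) - z2 * w l * (v l * as) * (τ * (v i * z1))
            = z2 * w l * (τ * (v l * as)) * (v i * z1) - z2 * w l * (v l * as) * τ * (v i * z1) := by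
              noncomm_ring
          _ = z2 * w l * ((v l * as) * τ) * (v i * z1) - z2 * w l * (v l * as) * τ * (v i * z1) := by
              rw [hτ (v l * as)]
          _ = 0 := by noncomm_ring
      · show pin v i as l h * (v i * z1) = 0
        rw [pin_zero v i as hhi hhl, zero_mul]
      · simp [Pi.single_apply, hhi, hhl]
      · intro k
        exact hIl _ _ (hIl _ _ hz1)
      · intro k
        simp only [Pi.sub_apply, Pi.single_apply]
        apply I.sub_mem
        · split_ifs
          · exact hIr _ _ (hIr _ _ hz2)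
          · exact I.zero_mem
        · split_ifs
          · exact hIr _ _ (hIr _ _ hz2)
          · exact I.zero_mem
  have e : unip (fun k => v k * (τ * τ * (z1 * z2))) w (scaled_dot v w hwv _) =
      unip (fun k => v k * as)
      (∑ l ∈ Finset.univ.erase i, qrow v w i as τ (z1 * z2) l) hsum := by
    apply unip_ext
    rw [vmv_pivot v w i (z1 * z2) h2 hτ, hQ]
  rw [e]; exact key

end H40
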