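import Pool.Agent.H40.Pivot

set_option autoImplicit false
set_option linter.unusedSectionVars false
set_option linter.unusedSimpArgs false

namespace H40

open Matrix

variable {ι : Type*} [Fintype ι] [DecidableEq ι] {S : Type*} [Ring S]

theorem single_dot_single {i j : ι} (hij : i ≠ j) (a b : S) :
    (Pi.single j b : ι → S) ⬝ᵥ (Pi.single i a : ι → S) = 0 := by
  rw [single_dotProduct, Pi.single_apply, if_neg (Ne.symm hij), mul_zero]

/-- elementary transvection as a unit -/
def te (i j : ι) (hij : i ≠ j) (r : S) : (Matrix ι ι S)ˣ :=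
  unip (Pi.single i 1) (Pi.single j r) (single_dot_single hij 1 r)

theorem te_val (i j : ι) (hij : i ≠ j) (r : S) :
    ((te i j hij r : (Matrix ι ι S)ˣ) : Matrix ι ι S) = 1 + single i j r := by
  rw [te, unip_val, vmv_single, one_mul]

/-- (R2): congruence modulo a normal subgroup. -/
theorem pivot_congr (h3 : ∀ i l : ι, ∃ h : ι, h ≠ i ∧ h ≠ l) (J : AddSubgroup S)
    (hJl : ∀ s x : S, x ∈ J → s * x ∈ J) (hJr : ∀ s x : S, x ∈ J → x * s ∈ J)
    (N : Subgroup (Matrix ι ι S)ˣ) [hN : N.Normal] (hEN : EA ι J ≤ N)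
    (v w : ι → S) (hwv : w ⬝ᵥ v = 0) {i j : ι} (hij : i ≠ j) {as τ : S}
    (h1 : v i * as = τ) (h2 : as * v i = τ) (hτ : ∀ s, τ * s = s * τ)
    (hv : ∀ k, k ≠ i → v k ∈ J) (hvi : v i - 1 ∈ J) (hw : ∀ k, k ≠ i → k ≠ j → w k ∈ J)
    (hwj : w j - 1 ∈ J) (r : S) :
    unip (fun k => v k * (τ * τ * r)) w (scaled_dot v w hwv _) *
      (te i j hij (τ * τ * r))⁻¹ ∈ N := by
  have hji : j ≠ i := Ne.symm hij
  have hQ := qrow_sum v w hwv i r h1 hτ
  have hdot : ∀ l, qrow v w i as τ r l ⬝ᵥ (fun k => v k * as) = 0 :=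
    fun l => qrow_dot v w i r h1 hτ l
  -- split off `j`
  set s : Finset ι := (Finset.univ.erase i).erase j with hs
  have hsplit : ∑ l ∈ Finset.univ.erase i, qrow v w i as τ r l =
      qrow v w i as τ r j + ∑ l ∈ s, qrow v w i as τ r l := by
    rw [hs, Finset.add_sum_erase _ _ (Finset.mem_erase.mpr ⟨hji, Finset.mem_univ j⟩)]
  have hsdot : (∑ l ∈ s, qrow v w i as τ r l) ⬝ᵥ (fun k => v k * as) = 0 := by
    rw [sum_dotProduct]; exact Finset.sum_eq_zero fun l _ => hdot l
  have hsum : (qrow v w i as τ r j + ∑ l ∈ s, qrow v w i as τ r l) ⬝ᵥ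
      (fun k => v k * as) = 0 := by
    rw [add_dotProduct, hdot j, hsdot, add_zero]
  have e : unip (fun k => v k * (τ * τ * r)) w (scaled_dot v w hwv _) =
      unip (fun k => v k * as) (qrow v w i as τ r j) (hdot j) *
      unip (fun k => v k * as) (∑ l ∈ s, qrow v w i as τ r l) hsdot := by
    rw [← unip_add_right (hdot j) hsdot hsum]
    apply unip_ext
    rw [vmv_pivot v w i r h2 hτ, ← hQ, hsplit]
  have hmulN : ∀ x ∈ N, (QuotientGroup.mk' N) x = 1 := fun x hx => by
    rw [QuotientGroup.mk'_apply, QuotientGroup.eq_one_iff]; exact hx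
  -- the part away from `j` is in `N`
  have hrest : unip (fun k => v k * as) (∑ l ∈ s, qrow v w i as τ r l) hsdot ∈ N := by
    refine unip_sum_right_mem N _ s _ (fun l _ => hdot l) ?_ hsdot
    intro l hl
    have hlj : l ≠ j := Finset.ne_of_mem_erase hl
    have hli : l ≠ i := Finset.ne_of_mem_erase (Finset.mem_of_mem_erase hl)
    have hqJ : ∀ b, qrow v w i as τ r l b ∈ J := by
      intro b
      unfold qrow
      simp only [Pi.sub_apply, Pi.single_apply]
      apply J.sub_mem
      · split_ifs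
        · exact hJl _ _ (hw l hli hlj)
        · exact J.zero_mem
      · split_ifs
        · exact hJr _ _ (hJl _ _ (hw l hli hlj))
        · exact J.zero_mem
    rw [piece_split v w r h1 hτ hli]
    refine N.mul_mem ?_ ?_
    · apply hEN
      apply unip_disj_mem J (pout_disj v w i as τ r l)
      intro a b
      exact hJl _ _ (hqJ b)
    · obtain ⟨h, hhi, hhl⟩ := h3 i l
      have hp0 : pin v i as l h = 0 := pin_zero v i as hhi hhl
      have hq0 : qrow v w i as τ r l h = 0 := qrow_zero v w i as τ r hhi hhl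
      have d1 : (Pi.single h 1 : ι → S) ⬝ᵥ pin v i as l = 0 := by
        rw [single_dotProduct, hp0, mul_zero]
      have d2 : qrow v w i as τ r l ⬝ᵥ (Pi.single h 1 : ι → S) = 0 := by
        rw [dotProduct_single, hq0, zero_mul]
      rw [unip_comm (qrow_pin v w r h1 hτ hli) hp0 hq0 d1 d2]
      have hy : unip (Pi.single h 1) (qrow v w i as τ r l) d2 ∈ N := by
        apply hEN
        apply unip_disj_mem J
        · intro k
          by_cases hk : k = h
          · right; rw [hk]; exact hq0
          · left; rw [Pi.single_apply, if_neg hk]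
        · intro a b
          exact hJl _ _ (hqJ b)
      exact N.mul_mem (hN.conj_mem _ hy _) (N.inv_mem hy)
  -- the `j` part
  obtain ⟨h, hhi, hhj⟩ := h3 i j
  have hp0 : pin v i as j h = 0 := pin_zero v i as hhi hhj
  have hq0 : qrow v w i as τ r j h = 0 := qrow_zero v w i as τ r hhi hhj
  have d1 : (Pi.single h 1 : ι → S) ⬝ᵥ pin v i as j = 0 := by
    rw [single_dotProduct, hp0, mul_zero]
  have d2 : qrow v w i as τ r j ⬝ᵥ (Pi.single h 1 : ι → S) = 0 := by
    rw [dotProduct_single, hq0, zero_mul]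
  have hvj : v j ∈ J := hv j hji
  have hout : unip (pout v i as j) (qrow v w i as τ r j)
      (disj_dot (pout_disj v w i as τ r j)) ∈ N := by
    apply hEN
    apply unip_disj_mem J (pout_disj v w i as τ r j)
    intro a b
    unfold pout
    split_ifs with hab
    · rw [zero_mul]; exact J.zero_mem
    · push Not at hab
      exact hJr _ _ (hJr _ _ (hv a hab.1))
  -- x
  have dx0 : (Pi.single h 1 : ι → S) ⬝ᵥ (Pi.single i τ : ι → S) = 0 :=
    single_dot_single (Ne.symm hhi) _ _
  have dx1 : (Pi.single h 1 : ι → S) ⬝ᵥ (Pi.single j (v j * as) : ι → S) = 0 :=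
    single_dot_single (Ne.symm hhj) _ _
  have hx : (QuotientGroup.mk' N) (unip (pin v i as j) (Pi.single h 1) d1) =
      (QuotientGroup.mk' N) (unip (Pi.single i τ) (Pi.single h 1) dx0) := by
    have e1 : unip (pin v i as j) (Pi.single h 1) d1 =
        unip (Pi.single i τ) (Pi.single h 1) dx0 *
        unip (Pi.single j (v j * as)) (Pi.single h 1) dx1 := by
      rw [← unip_add_left dx0 dx1 (by rw [dotProduct_add, dx0, dx1, add_zero])]
      apply unip_ext
      rw [pin, h1]
    rw [e1, map_mul]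
    have : unip (Pi.single j (v j * as)) (Pi.single h 1) dx1 ∈ N := by
      apply hEN
      apply gen_mem_EA J (Ne.symm hhj)
      rw [mul_one]
      exact hJr _ _ hvj
    rw [hmulN _ this, mul_one]
  -- y
  have dy0 : (Pi.single j (τ * r) : ι → S) ⬝ᵥ (Pi.single h 1 : ι → S) = 0 :=
    single_dot_single hhj _ _
  have dy1 : (Pi.single j (τ * v i * r * w j - τ * r) : ι → S) ⬝ᵥ (Pi.single h 1 : ι → S) = 0 :=
    single_dot_single hhj _ _
  have dy2 : (Pi.single i (-(v i * r * w j * (v j * as))) : ι → S) ⬝ᵥ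
      (Pi.single h 1 : ι → S) = 0 :=
    single_dot_single hhi _ _
  have hy : (QuotientGroup.mk' N) (unip (Pi.single h 1) (qrow v w i as τ r j) d2) =
      (QuotientGroup.mk' N) (unip (Pi.single h 1) (Pi.single j (τ * r)) dy0) := by
    have e1 : unip (Pi.single h 1) (qrow v w i as τ r j) d2 =
        unip (Pi.single h 1) (Pi.single j (τ * r)) dy0 *
        (unip (Pi.single h 1) (Pi.single j (τ * v i * r * w j - τ * r)) dy1 *
        unip (Pi.single h 1) (Pi.single i (-(v i * r * w j * (v j * as)))) dy2) := by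
      rw [← unip_add_right dy1 dy2 (by rw [add_dotProduct, dy1, dy2, add_zero]),
        ← unip_add_right dy0 (by rw [add_dotProduct, dy1, dy2, add_zero])
          (by rw [add_dotProduct, add_dotProduct, dy0, dy1, dy2, add_zero, add_zero])]
      apply unip_ext
      congr 1
      funext b
      simp only [qrow, Pi.sub_apply, Pi.add_apply, Pi.single_apply]
      by_cases hb : b = j
      · subst hb; simp [hji]
      · by_cases hb2 : b = i
        · subst hb2; simp [hij]
        · simp [hb, hb2]
    rw [e1, map_mul, map_mul]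
    have m1 : unip (Pi.single h 1) (Pi.single j (τ * v i * r * w j - τ * r)) dy1 ∈ N := by
      apply hEN
      apply gen_mem_EA J hhj
      rw [one_mul]
      have : τ * v i * r * w j - τ * r = τ * ((v i - 1) * (r * w j)) + τ * r * (w j - 1) := by
        noncomm_ring
      rw [this]
      exact J.add_mem (hJl _ _ (hJr _ _ hvi)) (hJl _ _ hwj)
    have m2 : unip (Pi.single h 1) (Pi.single i (-(v i * r * w j * (v j * as)))) dy2 ∈ N := by
      apply hEN
      apply gen_mem_EA J hhi
      rw [one_mul]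
      exact J.neg_mem (hJl _ _ (hJr _ _ hvj))
    rw [hmulN _ m1, hmulN _ m2, mul_one, mul_one]
  have dd : (Pi.single j (τ * r) : ι → S) ⬝ᵥ (Pi.single i τ : ι → S) = 0 :=
    single_dot_single hij _ _
  have hte : te i j hij (τ * τ * r) = unip (Pi.single i τ) (Pi.single h 1) dx0 *
      unip (Pi.single h 1) (Pi.single j (τ * r)) dy0 *
      (unip (Pi.single i τ) (Pi.single h 1) dx0)⁻¹ *
      (unip (Pi.single h 1) (Pi.single j (τ * r)) dy0)⁻¹ := by
    rw [← unip_comm dd (by rw [Pi.single_apply, if_neg hhi]) (by rw [Pi.single_apply, if_neg hhj])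
      dx0 dy0]
    apply unip_ext
    rw [vmv_single, vmv_single, one_mul, mul_assoc]
  have hjj : (QuotientGroup.mk' N) (unip (fun k => v k * as) (qrow v w i as τ r j) (hdot j)) =
      (QuotientGroup.mk' N) (te i j hij (τ * τ * r)) := by
    rw [piece_split v w r h1 hτ hji, map_mul, hmulN _ hout, one_mul,
      unip_comm (qrow_pin v w r h1 hτ hji) hp0 hq0 d1 d2, hte]
    simp only [map_mul, map_inv]
    rw [hx, hy]
  rw [← QuotientGroup.eq_one_iff, ← QuotientGroup.mk'_apply, e, map_mul, map_mul, hmulN _ hrest,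
    mul_one, hjj, map_inv, mul_inv_cancel]

end H40
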