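import Pool.Agent.H40.WGroup
import Pool.Agent.H40.Local2

set_option autoImplicit false
set_option linter.unusedSectionVars false
set_option linter.unusedSimpArgs false

namespace H40

open Matrix

variable {ι : Type*} [Fintype ι] [DecidableEq ι] {S : Type*} [Ring S]

/-- the row used for elementary modification -/
def toff (t : ι → S) (i : ι) : ι → S := fun k => if k = i then 0 else t k

theorem toff_dot (t v : ι → S) (i : ι) :
    toff t i ⬝ᵥ v = ∑ k ∈ Finset.univ.erase i, t k * v k := by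
  unfold toff dotProduct
  rw [← Finset.add_sum_erase _ _ (Finset.mem_univ i)]
  simp only [if_true, zero_mul, zero_add]
  refine Finset.sum_congr rfl fun k hk => ?_
  rw [if_neg (Finset.ne_of_mem_erase hk)]

theorem toff_single (t : ι → S) (i : ι) (a : S) : toff t i ⬝ᵥ (Pi.single i a : ι → S) = 0 := by
  rw [dotProduct_single]; simp [toff]

/-- modification matrix -/
def em (t : ι → S) (i : ι) : (Matrix ι ι S)ˣ := unip (Pi.single i 1) (toff t i) (toff_single t i 1)

theorem em_mem (t : ι → S) (i : ι) : em t i ∈ EA ι (⊤ : AddSubgroup S) := by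
  apply unip_disj_mem
  · intro k
    by_cases hk : k = i
    · right; simp [toff, hk]
    · left; rw [Pi.single_apply, if_neg hk]
  · intro k l; trivial

theorem em_mulVec (t : ι → S) (i : ι) (v : ι → S) (k : ι) :
    (((em t i : (Matrix ι ι S)ˣ) : Matrix ι ι S) *ᵥ v) k =
      if k = i then v i + ∑ l ∈ Finset.univ.erase i, t l * v l else v k := by
  rw [em, unip_val, add_mulVec, one_mulVec]
  have : (vecMulVec (Pi.single i 1) (toff t i) *ᵥ v) k = if k = i then toff t i ⬝ᵥ v else 0 := by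
    simp only [mulVec, vecMulVec_apply, dotProduct, Pi.single_apply]
    split_ifs with h
    · simp
    · simp
  rw [Pi.add_apply, this, toff_dot]
  split_ifs with h
  · rw [h]
  · rw [add_zero]

theorem vecMul_em_inv (t : ι → S) (i : ι) (w : ι → S) (k : ι) :
    (w ᵥ* (((em t i)⁻¹ : (Matrix ι ι S)ˣ) : Matrix ι ι S)) k = w k - w i * toff t i k := by
  rw [em, unip_inv_val, vecMul_sub, vecMul_one, Pi.sub_apply]
  congr 1
  simp only [vecMul, vecMulVec_apply, dotProduct, Pi.single_apply]
  simp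

theorem mulVec_scaled (g : Matrix ι ι S) (v : ι → S) (c : S) :
    g *ᵥ (fun k => v k * c) = fun k => (g *ᵥ v) k * c := by
  funext k
  simp only [mulVec, dotProduct, Finset.sum_mul, mul_assoc]

theorem conj_te (g : (Matrix ι ι S)ˣ) {i j : ι} (hij : i ≠ j) (z : S)
    (h : ((Pi.single j 1 : ι → S) ᵥ* ((g⁻¹ : (Matrix ι ι S)ˣ) : Matrix ι ι S)) ⬝ᵥ
      (fun k => ((g : Matrix ι ι S) *ᵥ (Pi.single i 1 : ι → S)) k * z) = 0) :
    g * te i j hij z * g⁻¹ =
      unip (fun k => ((g : Matrix ι ι S) *ᵥ (Pi.single i 1 : ι → S)) k * z)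
        ((Pi.single j 1 : ι → S) ᵥ* ((g⁻¹ : (Matrix ι ι S)ˣ) : Matrix ι ι S)) h := by
  have h0 : (Pi.single j 1 : ι → S) ⬝ᵥ (fun k => (Pi.single i 1 : ι → S) k * z) = 0 :=
    scaled_dot _ _ (single_dot_single hij 1 1) z
  have e : te i j hij z = unip (fun k => (Pi.single i 1 : ι → S) k * z) (Pi.single j 1) h0 := by
    apply unip_ext
    ext a b
    simp only [vecMulVec_apply, Pi.single_apply]
    split_ifs <;> simp
  rw [e, conj_unip]
  apply unip_ext
  rw [mulVec_scaled]

section

variable {T : Type*} [CommRing T] [Algebra T S]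

theorem R1 (h3 : ∀ i l : ι, ∃ h : ι, h ≠ i ∧ h ≠ l)
    {d : ℕ} (hd : 0 < d) {c : Equiv.Perm (Fin d) → ℤ} (hc : c 1 = 1)
    (hS : MulId S d c) {M : ℕ} (hInt : IntBdd T S M) {I : AddSubgroup S}
    (hIl : ∀ s x : S, x ∈ I → s * x ∈ I) (hIr : ∀ s x : S, x ∈ I → x * s ∈ I)
    (g : (Matrix ι ι S)ˣ) {i j : ι} (hij : i ≠ j) {z : S} (hz : z ∈ JJ I) :
    g * te i j hij z * g⁻¹ ∈ WG ι I := by
  set v : ι → S := (g : Matrix ι ι S) *ᵥ (Pi.single i 1 : ι → S) with hv
  set w : ι → S := (Pi.single j 1 : ι → S) ᵥ* ((g⁻¹ : (Matrix ι ι S)ˣ) : Matrix ι ι S) with hw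
  set u : ι → S := (Pi.single i 1 : ι → S) ᵥ* ((g⁻¹ : (Matrix ι ι S)ˣ) : Matrix ι ι S) with hu
  have hwv : w ⬝ᵥ v = 0 := by
    rw [hw, hv]; exact conj_dot g (single_dot_single hij 1 1)
  have huv : ∑ k, u k * v k = 1 := by
    have : u ⬝ᵥ v = 1 := by
      rw [hu, hv, ← dotProduct_mulVec, mulVec_mulVec, Units.inv_mul, one_mulVec]
      simp
    exact this
  let 𝔞 : Ideal T :=
    { carrier := {τ | ∀ z1 ∈ I, ∀ z2 ∈ I,
        unip (fun k => v k * (algebraMap T S τ * (z1 * z2))) w (scaled_dot v w hwv _) ∈ WG ι I}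
      add_mem' := by
        intro a b ha hb z1 hz1 z2 hz2
        have := Subgroup.mul_mem _ (ha z1 hz1 z2 hz2) (hb z1 hz1 z2 hz2)
        rw [← unip_add_left (scaled_dot v w hwv _) (scaled_dot v w hwv _)
          (by rw [dotProduct_add, scaled_dot v w hwv, scaled_dot v w hwv, add_zero])] at this
        convert this using 1
        apply unip_ext
        congr 1
        funext k
        simp only [Pi.add_apply, map_add]
        noncomm_ring
      zero_mem' := by
        intro z1 hz1 z2 hz2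
        have : unip (fun k => v k * (algebraMap T S 0 * (z1 * z2))) w (scaled_dot v w hwv _) = 1 := by
          ext1; rw [unip_val]; ext a b
          simp [vecMulVec_apply]
        rw [this]; exact Subgroup.one_mem _
      smul_mem' := by
        intro ρ τ hτ z1 hz1 z2 hz2
        have := hτ (algebraMap T S ρ * z1) (hIl _ _ hz1) z2 hz2
        convert this using 1
        apply unip_ext
        congr 1
        funext k
        rw [smul_eq_mul, map_mul, (Algebra.commutes ρ (algebraMap T S τ))]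
        simp only [mul_assoc] }
  have htop : 𝔞 = ⊤ := by
    by_contra hne
    obtain ⟨m, hm, ham⟩ := Ideal.exists_le_maximal 𝔞 hne
    obtain ⟨t, as, τ, hτ, h1, h2⟩ := exists_pivot hd hc hS hInt m v u huv i
    apply hτ
    have : τ * τ ∈ 𝔞 := by
      intro z1 hz1 z2 hz2
      set e := em t i with he
      set v' : ι → S := (e : Matrix ι ι S) *ᵥ v with hv'
      set w' : ι → S := w ᵥ* ((e⁻¹ : (Matrix ι ι S)ˣ) : Matrix ι ι S) with hw'
      have hwv' : w' ⬝ᵥ v' = 0 := conj_dot e hwv
      have hvi : v' i = v i + ∑ l ∈ Finset.univ.erase i, t l * v l := by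
        rw [hv', he, em_mulVec, if_pos rfl]
      have key := pivot_mem_WG h3 I hIl hIr v' w' hwv' i (as := as) (τ := algebraMap T S τ)
        (by rw [hvi]; exact h1) (by rw [hvi]; exact h2) (fun s => Algebra.commutes τ s) hz1 hz2
      have key2 := EA_conj_WG h3 hIl hIr (Subgroup.inv_mem _ (em_mem t i)) _ key
      convert key2 using 1
      have hc1 := conj_unip e (scaled_dot v w hwv (algebraMap T S (τ * τ) * (z1 * z2)))
      have : unip (fun k => v k * (algebraMap T S (τ * τ) * (z1 * z2))) w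
          (scaled_dot v w hwv _) = e⁻¹ * (e * unip (fun k => v k * (algebraMap T S (τ * τ) * (z1 * z2))) w
          (scaled_dot v w hwv _) * e⁻¹) * e⁻¹⁻¹ := by group
      rw [this, hc1]
      congr 2
      apply unip_ext
      rw [mulVec_scaled, map_mul]
    rcases hm.isPrime.mem_or_mem (ham this) with h | h <;> exact h
  have h1mem : (1 : T) ∈ 𝔞 := by rw [htop]; trivial
  refine AddSubgroup.closure_induction (p := fun z _ => g * te i j hij z * g⁻¹ ∈ WG ι I)
    ?_ ?_ ?_ ?_ hz
  · rintro z ⟨z1, hz1, z2, hz2, rfl⟩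
    rw [conj_te g hij _ (scaled_dot v w hwv _)]
    have := h1mem z1 hz1 z2 hz2
    simp only [map_one, one_mul] at this
    exact this
  · rw [te_zero, mul_one, mul_inv_cancel]; exact Subgroup.one_mem _
  · intro x y _ _ hx hy
    rw [te_add]
    have : g * (te i j hij x * te i j hij y) * g⁻¹ =
        (g * te i j hij x * g⁻¹) * (g * te i j hij y * g⁻¹) := by group
    rw [this]; exact Subgroup.mul_mem _ hx hy
  · intro x _ hx
    rw [te_neg]
    have : g * (te i j hij x)⁻¹ * g⁻¹ = (g * te i j hij x * g⁻¹)⁻¹ := by group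
    rw [this]; exact Subgroup.inv_mem _ hx

/-- the relative normal subgroup -/
def NG (ι : Type*) [Fintype ι] [DecidableEq ι] {S : Type*} [Ring S] (J : AddSubgroup S) :
    Subgroup (Matrix ι ι S)ˣ :=
  Subgroup.normalClosure (EA ι J : Set (Matrix ι ι S)ˣ)

instance (J : AddSubgroup S) : (NG ι J).Normal := Subgroup.normalClosure_normal

theorem EA_le_NG (J : AddSubgroup S) : EA ι J ≤ NG ι J := Subgroup.subset_normalClosure

theorem NG_le_EA (h3 : ∀ i l : ι, ∃ h : ι, h ≠ i ∧ h ≠ l)
    {d : ℕ} (hd : 0 < d) {c : Equiv.Perm (Fin d) → ℤ} (hc : c 1 = 1)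
    (hS : MulId S d c) {M : ℕ} (hInt : IntBdd T S M) {I : AddSubgroup S}
    (hIl : ∀ s x : S, x ∈ I → s * x ∈ I) (hIr : ∀ s x : S, x ∈ I → x * s ∈ I) :
    NG ι (JJ I) ≤ EA ι I := by
  refine le_trans ?_ (WG_le_EA hIl hIr)
  unfold NG Subgroup.normalClosure
  rw [Subgroup.closure_le]
  intro x hx
  obtain ⟨y, hy, hyx⟩ := Group.mem_conjugatesOfSet_iff.mp hx
  obtain ⟨g, rfl⟩ := isConj_iff.mp hyx
  have hy' : y ∈ EA ι (JJ I) := hy
  show g * y * g⁻¹ ∈ WG ι I
  unfold EA at hy'
  refine Subgroup.closure_induction (p := fun y _ => g * y * g⁻¹ ∈ WG ι I) ?_ ?_ ?_ ?_ hy'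
  · rintro x ⟨i, j, hij, r, hr, hx⟩
    have : x = te i j hij r := by ext1; rw [hx, te_val]
    rw [this]
    exact R1 h3 hd hc hS hInt hIl hIr g hij hr
  · rw [mul_one, mul_inv_cancel]; exact Subgroup.one_mem _
  · intro x y _ _ hx hy
    have : g * (x * y) * g⁻¹ = (g * x * g⁻¹) * (g * y * g⁻¹) := by group
    rw [this]; exact Subgroup.mul_mem _ hx hy
  · intro x _ hx
    have : g * x⁻¹ * g⁻¹ = (g * x * g⁻¹)⁻¹ := by group
    rw [this]; exact Subgroup.inv_mem _ hx

/-- congruent to one modulo `J` -/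
def CongOne (J : AddSubgroup S) (k : (Matrix ι ι S)ˣ) : Prop :=
  (∀ a b, ((k : Matrix ι ι S) - 1) a b ∈ J) ∧
    ∀ a b, (((k⁻¹ : (Matrix ι ι S)ˣ) : Matrix ι ι S) - 1) a b ∈ J

theorem te_em_comm (t : ι → S) {i j : ι} (hij : i ≠ j) (r : S) :
    em t i * te i j hij r = te i j hij r * em t i := by
  ext1
  simp only [Units.val_mul, em, te, unip_val]
  have h1 : vecMulVec (Pi.single i 1 : ι → S) (toff t i) *
      vecMulVec (Pi.single i 1) (Pi.single j r) = 0 := by
    rw [vecMulVec_mul_vecMulVec, toff_single]; simp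
  have h2 : vecMulVec (Pi.single i 1) (Pi.single j r) *
      vecMulVec (Pi.single i 1 : ι → S) (toff t i) = 0 := by
    rw [vecMulVec_mul_vecMulVec, single_dot_single hij]; simp
  rw [show ∀ A B : Matrix ι ι S, (1 + A) * (1 + B) = 1 + A + B + A * B from
    fun A B => by noncomm_ring, h1, show ∀ A B : Matrix ι ι S, (1 + A) * (1 + B) =
    1 + A + B + A * B from fun A B => by noncomm_ring, h2]
  abel

theorem R2 (h3 : ∀ i l : ι, ∃ h : ι, h ≠ i ∧ h ≠ l)
    {d : ℕ} (hd : 0 < d) {c : Equiv.Perm (Fin d) → ℤ} (hc : c 1 = 1)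
    (hS : MulId S d c) {M : ℕ} (hInt : IntBdd T S M) {J : AddSubgroup S}
    (hJl : ∀ s x : S, x ∈ J → s * x ∈ J) (hJr : ∀ s x : S, x ∈ J → x * s ∈ J)
    (N : Subgroup (Matrix ι ι S)ˣ) [hN : N.Normal] (hEN : EA ι J ≤ N)
    (k : (Matrix ι ι S)ˣ) (hk : CongOne J k) {i j : ι} (hij : i ≠ j) (r : S) :
    k * te i j hij r * k⁻¹ * (te i j hij r)⁻¹ ∈ N := by
  set v : ι → S := (k : Matrix ι ι S) *ᵥ (Pi.single i 1 : ι → S) with hv
  set w : ι → S := (Pi.single j 1 : ι → S) ᵥ* ((k⁻¹ : (Matrix ι ι S)ˣ) : Matrix ι ι S) with hw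
  set u : ι → S := (Pi.single i 1 : ι → S) ᵥ* ((k⁻¹ : (Matrix ι ι S)ˣ) : Matrix ι ι S) with hu
  have hwv : w ⬝ᵥ v = 0 := by
    rw [hw, hv]; exact conj_dot k (single_dot_single hij 1 1)
  have huv : ∑ k, u k * v k = 1 := by
    have : u ⬝ᵥ v = 1 := by
      rw [hu, hv, ← dotProduct_mulVec, mulVec_mulVec, Units.inv_mul, one_mulVec]
      simp
    exact this
  have hvv : ∀ a, v a = (k : Matrix ι ι S) a i := by
    intro a; rw [hv]; simp
  have hww : ∀ a, w a = ((k⁻¹ : (Matrix ι ι S)ˣ) : Matrix ι ι S) j a := by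
    intro a; rw [hw]; simp
  have hv1 : ∀ a, a ≠ i → v a ∈ J := by
    intro a ha
    have := hk.1 a i
    rw [Matrix.sub_apply, one_apply_ne ha, sub_zero] at this
    rw [hvv]; exact this
  have hvi : v i - 1 ∈ J := by
    have := hk.1 i i
    rw [Matrix.sub_apply, one_apply_eq] at this
    rw [hvv]; exact this
  have hw1 : ∀ a, a ≠ j → w a ∈ J := by
    intro a ha
    have := hk.2 j a
    rw [Matrix.sub_apply, one_apply_ne (Ne.symm ha), sub_zero] at this
    rw [hww]; exact this
  have hwj : w j - 1 ∈ J := by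
    have := hk.2 j j
    rw [Matrix.sub_apply, one_apply_eq] at this
    rw [hww]; exact this
  let 𝔞 : Ideal T :=
    { carrier := {τ | ∀ r : S, k * te i j hij (algebraMap T S τ * r) * k⁻¹ *
        (te i j hij (algebraMap T S τ * r))⁻¹ ∈ N}
      add_mem' := by
        intro a b ha hb r
        have h1 := ha r
        have h2 := hN.conj_mem _ (hb r) (te i j hij (algebraMap T S a * r))
        have := N.mul_mem h1 h2
        convert this using 1
        rw [map_add, add_mul, te_add]
        group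
      zero_mem' := by
        intro r
        rw [map_zero, zero_mul, te_zero]
        simp
      smul_mem' := by
        intro ρ τ hτ r
        have := hτ (algebraMap T S ρ * r)
        rw [smul_eq_mul, mul_comm ρ τ, map_mul, mul_assoc (algebraMap T S τ)]
        exact this }
  have htop : 𝔞 = ⊤ := by
    by_contra hne
    obtain ⟨m, hm, ham⟩ := Ideal.exists_le_maximal 𝔞 hne
    obtain ⟨t, as, τ, hτ, h1, h2⟩ := exists_pivot hd hc hS hInt m v u huv i
    apply hτ
    have : τ * τ ∈ 𝔞 := by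
      intro r
      set e := em t i with he
      set v' : ι → S := (e : Matrix ι ι S) *ᵥ v with hv'
      set w' : ι → S := w ᵥ* ((e⁻¹ : (Matrix ι ι S)ˣ) : Matrix ι ι S) with hw'
      have hwv' : w' ⬝ᵥ v' = 0 := conj_dot e hwv
      have hvi' : v' i = v i + ∑ l ∈ Finset.univ.erase i, t l * v l := by
        rw [hv', he, em_mulVec, if_pos rfl]
      have hvk' : ∀ a, a ≠ i → v' a = v a := by
        intro a ha
        rw [hv', he, em_mulVec, if_neg ha]
      have hwk' : ∀ a, w' a = w a - w i * toff t i a := by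
        intro a
        rw [hw', he, vecMul_em_inv]
      have key := pivot_congr h3 J hJl hJr N hEN v' w' hwv' hij (as := as) (τ := algebraMap T S τ)
        (by rw [hvi']; exact h1) (by rw [hvi']; exact h2) (fun s => Algebra.commutes τ s)
        (by intro a ha; rw [hvk' a ha]; exact hv1 a ha)
        (by
          rw [hvi', add_sub_right_comm]
          refine J.add_mem hvi (J.sum_mem fun a ha => hJl _ _ (hv1 a (Finset.ne_of_mem_erase ha))))
        (by
          intro a _ haj
          rw [hwk']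
          exact J.sub_mem (hw1 a haj) (hJr _ _ (hw1 i hij)))
        (by
          rw [hwk', sub_right_comm]
          exact J.sub_mem hwj (hJr _ _ (hw1 i hij))) r
      have hcj := conj_te k hij (algebraMap T S (τ * τ) * r) (scaled_dot v w hwv _)
      have hc1 := conj_unip e (scaled_dot v w hwv (algebraMap T S (τ * τ) * r))
      have e1 : unip (fun k => v' k * (algebraMap T S τ * algebraMap T S τ * r)) w'
          (scaled_dot v' w' hwv' _) =
          e * (k * te i j hij (algebraMap T S (τ * τ) * r) * k⁻¹) * e⁻¹ := by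
        rw [hcj, hc1]
        apply unip_ext
        rw [mulVec_scaled, map_mul]
      rw [e1] at key
      have key2 := hN.conj_mem _ key e⁻¹
      convert key2 using 1
      have hcomm : e * te i j hij (algebraMap T S (τ * τ) * r) =
          te i j hij (algebraMap T S (τ * τ) * r) * e := te_em_comm t hij _
      have hcomm2 : e⁻¹ * (te i j hij (algebraMap T S (τ * τ) * r))⁻¹ * e =
          (te i j hij (algebraMap T S (τ * τ) * r))⁻¹ := by
        rw [← _root_.mul_inv_rev, ← hcomm]
        group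
      rw [← map_mul]
      calc k * te i j hij (algebraMap T S (τ * τ) * r) * k⁻¹ *
            (te i j hij (algebraMap T S (τ * τ) * r))⁻¹ =
            k * te i j hij (algebraMap T S (τ * τ) * r) * k⁻¹ *
            (e⁻¹ * (te i j hij (algebraMap T S (τ * τ) * r))⁻¹ * e) := by rw [hcomm2]
        _ = _ := by group
    rcases hm.isPrime.mem_or_mem (ham this) with h | h <;> exact h
  have h1mem : (1 : T) ∈ 𝔞 := by rw [htop]; trivial
  have := h1mem r
  simpa using this

theorem R2' (h3 : ∀ i l : ι, ∃ h : ι, h ≠ i ∧ h ≠ l)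
    {d : ℕ} (hd : 0 < d) {c : Equiv.Perm (Fin d) → ℤ} (hc : c 1 = 1)
    (hS : MulId S d c) {M : ℕ} (hInt : IntBdd T S M) {J : AddSubgroup S}
    (hJl : ∀ s x : S, x ∈ J → s * x ∈ J) (hJr : ∀ s x : S, x ∈ J → x * s ∈ J)
    (k : (Matrix ι ι S)ˣ) (hk : CongOne J k) {x : (Matrix ι ι S)ˣ}
    (hx : x ∈ EA ι (⊤ : AddSubgroup S)) :
    k * x * k⁻¹ * x⁻¹ ∈ NG ι J := by
  have hN : (NG ι J).Normal := inferInstance
  unfold EA at hx
  refine Subgroup.closure_induction (p := fun x _ => k * x * k⁻¹ * x⁻¹ ∈ NG ι J) ?_ ?_ ?_ ?_ hx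
  · rintro x ⟨i, j, hij, r, hr, hx⟩
    have : x = te i j hij r := by ext1; rw [hx, te_val]
    rw [this]
    exact R2 h3 hd hc hS hInt hJl hJr (NG ι J) (EA_le_NG J) k hk hij r
  · simp
  · intro x y _ _ hx hy
    have := (NG ι J).mul_mem hx (hN.conj_mem _ hy x)
    convert this using 1
    group
  · intro x _ hx
    have := hN.conj_mem _ ((NG ι J).inv_mem hx) x⁻¹
    convert this using 1
    group

end

end H40
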