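import Pool.Agent.H40.Rel
import Pool.Agent.H40.CapInt
import Pool.Agent.H40.Glue

set_option autoImplicit false
set_option linter.unusedSectionVars false
set_option linter.unusedSimpArgs false

namespace H40

open Matrix

/-- the additive span of the values of the Capelli polynomial -/
def IRg (M : ℕ) (R : Type*) [Ring R] : AddSubgroup R :=
  AddSubgroup.closure {z | ∃ (x : Fin M → R) (y : Fin (M + 1) → R), z = cap x y}

theorem IRg_left {M : ℕ} {R : Type*} [Ring R] (s x : R) (hx : x ∈ IRg M R) : s * x ∈ IRg M R := by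
  refine AddSubgroup.closure_induction (p := fun x _ => s * x ∈ IRg M R) ?_ ?_ ?_ ?_ hx
  · rintro _ ⟨x, y, rfl⟩
    rw [mul_cap]
    exact AddSubgroup.subset_closure ⟨_, _, rfl⟩
  · rw [mul_zero]; exact AddSubgroup.zero_mem _
  · intro a b _ _ ha hb
    rw [mul_add]; exact AddSubgroup.add_mem _ ha hb
  · intro a _ ha
    rw [mul_neg]; exact AddSubgroup.neg_mem _ ha

theorem IRg_right {M : ℕ} {R : Type*} [Ring R] (s x : R) (hx : x ∈ IRg M R) : x * s ∈ IRg M R := by
  refine AddSubgroup.closure_induction (p := fun x _ => x * s ∈ IRg M R) ?_ ?_ ?_ ?_ hx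
  · rintro _ ⟨x, y, rfl⟩
    rw [cap_mul]
    exact AddSubgroup.subset_closure ⟨_, _, rfl⟩
  · rw [zero_mul]; exact AddSubgroup.zero_mem _
  · intro a b _ _ ha hb
    rw [add_mul]; exact AddSubgroup.add_mem _ ha hb
  · intro a _ ha
    rw [neg_mul]; exact AddSubgroup.neg_mem _ ha

/-- two-sided ideal from an additive subgroup -/
def toId {R : Type*} [Ring R] (I : AddSubgroup R) (hl : ∀ s x : R, x ∈ I → s * x ∈ I) : Ideal R where
  carrier := I
  add_mem' := I.add_mem
  zero_mem' := I.zero_mem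
  smul_mem' := fun s x hx => hl s x hx

theorem toId_two {R : Type*} [Ring R] (I : AddSubgroup R) (hl : ∀ s x : R, x ∈ I → s * x ∈ I)
    (hr : ∀ s x : R, x ∈ I → x * s ∈ I) : (toId I hl).IsTwoSided :=
  ⟨fun b ha => hr b _ ha⟩

variable {ι : Type*} [Fintype ι] [DecidableEq ι]

theorem congOne_of_ker {R : Type*} [Ring R] (I : AddSubgroup R)
    (hl : ∀ s x : R, x ∈ I → s * x ∈ I) [(toId I hl).IsTwoSided] (k : (Matrix ι ι R)ˣ) :
    FM ι (Ideal.Quotient.mk (toId I hl)) k = 1 ↔ CongOne I k := by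
  have h0 : ∀ k : (Matrix ι ι R)ˣ, FM ι (Ideal.Quotient.mk (toId I hl)) k = 1 →
      ∀ a b, ((k : Matrix ι ι R) - 1) a b ∈ I := by
    intro k hk a b
    have h1 : (Ideal.Quotient.mk (toId I hl)) ((k : Matrix ι ι R) a b) =
        (1 : Matrix ι ι (R ⧸ toId I hl)) a b := by
      rw [← FM_apply, hk]; rfl
    have h2 : (Ideal.Quotient.mk (toId I hl)) (((k : Matrix ι ι R) - 1) a b) = 0 := by
      rw [Matrix.sub_apply, map_sub, h1, Matrix.one_apply, Matrix.one_apply]
      split_ifs <;> simp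
    exact Ideal.Quotient.eq_zero_iff_mem.mp h2
  constructor
  · intro hk
    refine ⟨h0 k hk, h0 k⁻¹ ?_⟩
    rw [map_inv, hk, inv_one]
  · intro hk
    ext a b
    rw [FM_apply]
    have h2 : (Ideal.Quotient.mk (toId I hl)) (((k : Matrix ι ι R) - 1) a b) = 0 :=
      Ideal.Quotient.eq_zero_iff_mem.mpr (hk.1 a b)
    rw [Matrix.sub_apply, map_sub, sub_eq_zero] at h2
    rw [h2, Units.val_one, Matrix.one_apply, Matrix.one_apply]
    split_ifs <;> simp

theorem map_JJ {R S : Type*} [Ring R] [Ring S] (f : R →+* S) {I : AddSubgroup R}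
    {I' : AddSubgroup S} (h : ∀ x ∈ I, f x ∈ I') : ∀ x ∈ JJ I, f x ∈ JJ I' := by
  intro x hx
  refine AddSubgroup.closure_induction (p := fun x _ => f x ∈ JJ I') ?_ ?_ ?_ ?_ hx
  · rintro _ ⟨a, ha, b, hb, rfl⟩
    rw [map_mul]
    exact mul_mem_JJ (h a ha) (h b hb)
  · rw [map_zero]; exact AddSubgroup.zero_mem _
  · intro a b _ _ ha hb
    rw [map_add]; exact AddSubgroup.add_mem _ ha hb
  · intro a _ ha
    rw [map_neg]; exact AddSubgroup.neg_mem _ ha

theorem JJ_le {R : Type*} [Ring R] {I : AddSubgroup R} (hl : ∀ s x : R, x ∈ I → s * x ∈ I) :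
    JJ I ≤ I := by
  unfold JJ
  rw [AddSubgroup.closure_le]
  rintro _ ⟨a, ha, b, hb, rfl⟩
  exact hl a b hb

theorem mulId_matrix_sub {m : ℕ} {B T : Type*} [CommRing B] [CommRing T] [Algebra T B]
    (S : Subalgebra T (Matrix (Fin m) (Fin m) B)) :
    MulId S (m * m + 1) (fun σ => (Equiv.Perm.sign σ : ℤ)) := by
  intro x
  apply Subtype.val_injective
  have h1 : cap (fun i => (x i : Matrix (Fin m) (Fin m) B)) (fun _ => 1) = 0 :=
    cap_eq_zero_of_basis (mbasis m B) (by simp) _ _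
  refine Eq.trans ?_ h1
  show S.val _ = _
  rw [map_sum]
  unfold cap
  refine Finset.sum_congr rfl fun σ _ => ?_
  rw [map_mul, map_list_prod, List.map_ofFn, map_intCast]
  unfold mono
  simp only [mul_one, one_mul]
  rw [Units.smul_def, zsmul_eq_mul]
  rfl

theorem rel_main (h3 : ∀ i l : ι, ∃ h : ι, h ≠ i ∧ h ≠ l) {m : ℕ} {R B : Type*} [Ring R]
    [CommRing B] (φ : R →+* Matrix (Fin m) (Fin m) B)
    (hinj : ∀ z ∈ IRg (m * m) R, φ z = 0 → z = 0) :
    ∃ Es : Subgroup (Matrix ι ι R)ˣ, Es.Normal ∧ Es ≤ EA ι (⊤ : AddSubgroup R) ∧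
      ∀ e ∈ EA ι (⊤ : AddSubgroup R), ∀ k : (Matrix ι ι R)ˣ, CongOne (JJ (IRg (m * m) R)) k →
        k * e * k⁻¹ * e⁻¹ ∈ Es := by
  set IR := IRg (m * m) R with hIR
  have hIRl : ∀ s x : R, x ∈ IR → s * x ∈ IR := IRg_left
  have hIRr : ∀ s x : R, x ∈ IR → x * s ∈ IR := IRg_right
  let I : AddSubgroup (Matrix (Fin m) (Fin m) B) := IR.map φ.toAddMonoidHom
  have hφI : ∀ z ∈ IR, φ z ∈ I := fun z hz => ⟨z, hz, rfl⟩
  let T : Subring B :=
    { carrier := {b | ∀ x ∈ I, b • x ∈ I}
      mul_mem' := fun {a b} ha hb x hx => by rw [mul_smul]; exact ha _ (hb x hx)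
      one_mem' := fun x hx => by rw [one_smul]; exact hx
      add_mem' := fun {a b} ha hb x hx => by rw [add_smul]; exact I.add_mem (ha x hx) (hb x hx)
      zero_mem' := fun x hx => by rw [zero_smul]; exact I.zero_mem
      neg_mem' := fun {a} ha x hx => by rw [neg_smul]; exact I.neg_mem (ha x hx) }
  let S : Subalgebra T (Matrix (Fin m) (Fin m) B) := Algebra.adjoin T (Set.range φ)
  have hφS : ∀ r, φ r ∈ S := fun r => Algebra.subset_adjoin ⟨r, rfl⟩
  have hspan : ∀ z ∈ S, z ∈ Submodule.span T (Set.range φ) := by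
    intro z hz
    have h1 : Subalgebra.toSubmodule S = Submodule.span T (Set.range φ) := by
      apply Algebra.adjoin_eq_span_of_subset
      refine subset_trans ?_ Submodule.subset_span
      have : Submonoid.closure (Set.range φ) ≤ MonoidHom.mrange (φ : R →* Matrix (Fin m) (Fin m) B) := by
        rw [Submonoid.closure_le]
        rintro _ ⟨r, rfl⟩
        exact ⟨r, rfl⟩
      intro w hw
      obtain ⟨r, hr⟩ := this hw
      exact ⟨r, hr⟩
    have h2 : z ∈ Subalgebra.toSubmodule S := hz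
    rwa [h1] at h2
  let IT : Submodule T (Matrix (Fin m) (Fin m) B) :=
    { carrier := I
      add_mem' := I.add_mem
      zero_mem' := I.zero_mem
      smul_mem' := fun t x hx => t.2 x hx }
  have hcapS : ∀ (x : Fin (m * m) → Matrix (Fin m) (Fin m) B)
      (y : Fin (m * m + 1) → Matrix (Fin m) (Fin m) B), (∀ i, x i ∈ S) → (∀ i, y i ∈ S) →
      cap x y ∈ I := by
    intro x y hx hy
    have := cap_mem_of_span (K := T) IT (Set.range φ) ?_ x y (fun i => hspan _ (hx i))
      (fun i => hspan _ (hy i))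
    · exact this
    · intro x' y' hx' hy'
      choose a ha using hx'
      choose b hb using hy'
      have e1 : x' = fun i => φ (a i) := funext fun i => (ha i).symm
      have e2 : y' = fun i => φ (b i) := funext fun i => (hb i).symm
      rw [e1, e2, ← map_cap]
      exact hφI _ (AddSubgroup.subset_closure ⟨a, b, rfl⟩)
  have hT : ∀ b : B, (∀ (x : Fin (m * m) → Matrix (Fin m) (Fin m) B)
      (y : Fin (m * m + 1) → Matrix (Fin m) (Fin m) B), (∀ i, x i ∈ S) → (∀ i, y i ∈ S) →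
      b • cap x y ∈ I) → b ∈ T := by
    intro b hb x hx
    obtain ⟨z, hz, rfl⟩ := hx
    refine AddSubgroup.closure_induction (p := fun z _ => b • (φ.toAddMonoidHom z) ∈ I)
      ?_ ?_ ?_ ?_ hz
    · rintro _ ⟨x, y, rfl⟩
      have := hb (fun i => φ (x i)) (fun i => φ (y i)) (fun i => hφS _) (fun i => hφS _)
      rw [← map_cap] at this
      exact this
    · rw [map_zero, smul_zero]; exact I.zero_mem
    · intro x y _ _ hx hy
      rw [map_add, smul_add]; exact I.add_mem hx hy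
    · intro x _ hx
      rw [map_neg, smul_neg]; exact I.neg_mem hx
  have hInt : IntBdd T S (m * m) := intBdd_of T S I hcapS hT
  have hMul : MulId S (m * m + 1) (fun σ => (Equiv.Perm.sign σ : ℤ)) := mulId_matrix_sub S
  have hd : 0 < m * m + 1 := Nat.succ_pos _
  have hc : (fun σ : Equiv.Perm (Fin (m * m + 1)) => (Equiv.Perm.sign σ : ℤ)) 1 = 1 := by simp
  -- the ideal in `S`
  let IS : AddSubgroup S := I.comap S.val.toRingHom.toAddMonoidHom
  have hISl : ∀ s x : S, x ∈ IS → s * x ∈ IS := by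
    intro s x hx
    show (s : Matrix (Fin m) (Fin m) B) * x ∈ I
    have hx' : (x : Matrix (Fin m) (Fin m) B) ∈ I := hx
    obtain ⟨z, hz, hzx⟩ := hx'
    refine Submodule.span_induction (p := fun s _ => s * (x : Matrix (Fin m) (Fin m) B) ∈ I)
      ?_ ?_ ?_ ?_ (hspan _ s.2)
    · rintro _ ⟨r, rfl⟩
      rw [← hzx]
      show φ r * φ z ∈ I
      rw [← map_mul]
      exact hφI _ (hIRl _ _ hz)
    · rw [zero_mul]; exact I.zero_mem
    · intro a b _ _ ha hb
      rw [add_mul]; exact I.add_mem ha hb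
    · intro t a _ ha
      rw [smul_mul_assoc]
      exact t.2 _ ha
  have hISr : ∀ s x : S, x ∈ IS → x * s ∈ IS := by
    intro s x hx
    show (x : Matrix (Fin m) (Fin m) B) * s ∈ I
    have hx' : (x : Matrix (Fin m) (Fin m) B) ∈ I := hx
    obtain ⟨z, hz, hzx⟩ := hx'
    refine Submodule.span_induction (p := fun s _ => (x : Matrix (Fin m) (Fin m) B) * s ∈ I)
      ?_ ?_ ?_ ?_ (hspan _ s.2)
    · rintro _ ⟨r, rfl⟩
      rw [← hzx]
      show φ z * φ r ∈ I
      rw [← map_mul]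
      exact hφI _ (hIRr _ _ hz)
    · rw [mul_zero]; exact I.zero_mem
    · intro a b _ _ ha hb
      rw [mul_add]; exact I.add_mem ha hb
    · intro t a _ ha
      rw [mul_smul_comm]
      exact t.2 _ ha
  let φS : R →+* S := φ.codRestrict S hφS
  have hφSI : ∀ z ∈ IR, φS z ∈ IS := fun z hz => hφI z hz
  have hφS_surj : ∀ b ∈ IS, ∃ a ∈ IR, φS a = b := by
    intro b hb
    have hb' : (b : Matrix (Fin m) (Fin m) B) ∈ I := hb
    obtain ⟨z, hz, hzb⟩ := hb'
    exact ⟨z, hz, Subtype.ext hzb⟩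
  have hNG := NG_le_EA h3 hd hc hMul hInt hISl hISr
  have htwo : (toId IR hIRl).IsTwoSided := toId_two IR hIRl hIRr
  let q := Ideal.Quotient.mk (toId IR hIRl)
  let Es : Subgroup (Matrix ι ι R)ˣ := (FM ι q).ker ⊓ (NG ι (JJ IS)).comap (FM ι φS)
  refine ⟨Es, inferInstance, ?_, ?_⟩
  · rintro x ⟨hx1, hx2⟩
    have hx1' : FM ι q x = 1 := hx1
    have hx2' : FM ι φS x ∈ NG ι (JJ IS) := hx2
    obtain ⟨y, hy, hyx⟩ := exists_FM_EA φS hφS_surj (hNG hx2')
    have hy1 : FM ι q y ∈ EA ι (⊥ : AddSubgroup (R ⧸ toId IR hIRl)) := by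
      apply FM_EA q _ hy
      intro a ha
      exact Ideal.Quotient.eq_zero_iff_mem.mpr ha
    have hEbot : EA ι (⊥ : AddSubgroup (R ⧸ toId IR hIRl)) = ⊥ := by
      rw [eq_bot_iff]
      unfold EA
      rw [Subgroup.closure_le]
      rintro g ⟨i, j, hij, r, hr, hg⟩
      have hr' : r = 0 := hr
      have : g = 1 := by ext1; rw [hg, hr']; simp
      rw [this]
      exact Subgroup.one_mem _
    rw [hEbot, Subgroup.mem_bot] at hy1
    have hxy : FM ι q (x * y⁻¹) = 1 := by rw [map_mul, map_inv, hx1', hy1]; simp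
    have hxy2 : FM ι φS (x * y⁻¹) = 1 := by rw [map_mul, map_inv, hyx, mul_inv_cancel]
    have hcong := (congOne_of_ker IR hIRl (x * y⁻¹)).mp hxy
    have : x * y⁻¹ = 1 := by
      ext a b
      have h1 := hcong.1 a b
      have h2 : φ ((((x * y⁻¹ : (Matrix ι ι R)ˣ) : Matrix ι ι R) - 1) a b) = 0 := by
        rw [Matrix.sub_apply, map_sub]
        have h4 : φS (((x * y⁻¹ : (Matrix ι ι R)ˣ) : Matrix ι ι R) a b) =
            (1 : Matrix ι ι S) a b := by
          rw [← FM_apply, hxy2]; rfl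
        have h5 : φ (((x * y⁻¹ : (Matrix ι ι R)ˣ) : Matrix ι ι R) a b) =
            (((1 : Matrix ι ι S) a b : S) : Matrix (Fin m) (Fin m) B) :=
          congrArg Subtype.val h4
        rw [h5, Matrix.one_apply, Matrix.one_apply]
        split_ifs <;> simp
      have h3' := hinj _ h1 h2
      rw [Matrix.sub_apply, sub_eq_zero] at h3'
      exact h3'
    rw [mul_inv_eq_one] at this
    rw [this]
    exact EA_mono le_top hy
  · intro e he k hk
    refine ⟨?_, ?_⟩
    · show FM ι q (k * e * k⁻¹ * e⁻¹) = 1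
      have hk1 : FM ι q k = 1 := by
        apply (congOne_of_ker IR hIRl k).mpr
        exact ⟨fun a b => JJ_le hIRl (hk.1 a b), fun a b => JJ_le hIRl (hk.2 a b)⟩
      simp only [map_mul, map_inv, hk1]
      simp
    · show FM ι φS (k * e * k⁻¹ * e⁻¹) ∈ NG ι (JJ IS)
      simp only [map_mul, map_inv]
      have hconv : ∀ (g : (Matrix ι ι R)ˣ), (∀ a b, ((g : Matrix ι ι R) - 1) a b ∈ JJ IR) →
          ∀ a b, (((FM ι φS g : (Matrix ι ι S)ˣ) : Matrix ι ι S) - 1) a b ∈ JJ IS := by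
        intro g hg a b
        have h1 := map_JJ φS hφSI _ (hg a b)
        rw [Matrix.sub_apply, map_sub] at h1
        rw [Matrix.sub_apply, FM_apply]
        convert h1 using 2
        rw [Matrix.one_apply, Matrix.one_apply]
        split_ifs <;> simp
      have hck : CongOne (JJ IS) (FM ι φS k) := by
        refine ⟨hconv k hk.1, ?_⟩
        rw [← map_inv]
        exact hconv k⁻¹ hk.2
      exact R2' h3 hd hc hMul hInt (JJ_mul_left hISl) (JJ_mul_right hISr) _ hck
        (FM_EA φS (fun _ _ => AddSubgroup.mem_top _) he)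

end H40
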