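import Pool.Agent.H40.Pivot2

set_option autoImplicit false
set_option linter.unusedSectionVars false
set_option linter.unusedSimpArgs false

namespace H40

open Matrix

variable {ι : Type*} [Fintype ι] [DecidableEq ι] {S : Type*} [Ring S]

theorem conj_dot (g : (Matrix ι ι S)ˣ) {p q : ι → S} (h : q ⬝ᵥ p = 0) :
    (q ᵥ* ((g⁻¹ : (Matrix ι ι S)ˣ) : Matrix ι ι S)) ⬝ᵥ ((g : Matrix ι ι S) *ᵥ p) = 0 := by
  rw [← dotProduct_mulVec, mulVec_mulVec, Units.inv_mul, one_mulVec, h]

theorem conj_unip (g : (Matrix ι ι S)ˣ) {p q : ι → S} (h : q ⬝ᵥ p = 0) :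
    g * unip p q h * g⁻¹ =
      unip ((g : Matrix ι ι S) *ᵥ p) (q ᵥ* ((g⁻¹ : (Matrix ι ι S)ˣ) : Matrix ι ι S))
        (conj_dot g h) := by
  ext1
  simp only [Units.val_mul, unip_val]
  rw [mul_add, mul_one, add_mul, Units.mul_inv, mul_vecMulVec, vecMulVec_mul]

/-- the product ideal (as additive subgroup) -/
def JJ (I : AddSubgroup S) : AddSubgroup S :=
  AddSubgroup.closure {x | ∃ a ∈ I, ∃ b ∈ I, x = a * b}

theorem JJ_mul_left {I : AddSubgroup S} (hIl : ∀ s x : S, x ∈ I → s * x ∈ I) (s x : S)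
    (hx : x ∈ JJ I) : s * x ∈ JJ I := by
  refine AddSubgroup.closure_induction (p := fun x _ => s * x ∈ JJ I) ?_ ?_ ?_ ?_ hx
  · rintro x ⟨a, ha, b, hb, rfl⟩
    exact AddSubgroup.subset_closure ⟨s * a, hIl _ _ ha, b, hb, by rw [mul_assoc]⟩
  · rw [mul_zero]; exact AddSubgroup.zero_mem _
  · intro x y _ _ hx hy
    rw [mul_add]; exact AddSubgroup.add_mem _ hx hy
  · intro x _ hx
    rw [mul_neg]; exact AddSubgroup.neg_mem _ hx

theorem JJ_mul_right {I : AddSubgroup S} (hIr : ∀ s x : S, x ∈ I → x * s ∈ I) (s x : S)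
    (hx : x ∈ JJ I) : x * s ∈ JJ I := by
  refine AddSubgroup.closure_induction (p := fun x _ => x * s ∈ JJ I) ?_ ?_ ?_ ?_ hx
  · rintro x ⟨a, ha, b, hb, rfl⟩
    exact AddSubgroup.subset_closure ⟨a, ha, b * s, hIr _ _ hb, by rw [mul_assoc]⟩
  · rw [zero_mul]; exact AddSubgroup.zero_mem _
  · intro x y _ _ hx hy
    rw [add_mul]; exact AddSubgroup.add_mem _ hx hy
  · intro x _ hx
    rw [neg_mul]; exact AddSubgroup.neg_mem _ hx

theorem mul_mem_JJ {I : AddSubgroup S} {a b : S} (ha : a ∈ I) (hb : b ∈ I) : a * b ∈ JJ I :=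
  AddSubgroup.subset_closure ⟨a, ha, b, hb, rfl⟩

/-- the group `W` -/
def WG (ι : Type*) [Fintype ι] [DecidableEq ι] {S : Type*} [Ring S] (I : AddSubgroup S) :
    Subgroup (Matrix ι ι S)ˣ :=
  Subgroup.closure {g | ∃ p q : ι → S, ∃ z1 ∈ I, ∃ z2 ∈ I, ∃ h : ι, q ⬝ᵥ p = 0 ∧ p h = 0 ∧ q h = 0 ∧
    (g : Matrix ι ι S) = 1 + vecMulVec (fun k => p k * z1) (fun k => z2 * q k)}

theorem dot_scaled {p q : ι → S} (h : q ⬝ᵥ p = 0) (z1 z2 : S) :
    (fun k => z2 * q k) ⬝ᵥ (fun k => p k * z1) = 0 := by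
  unfold dotProduct at *
  calc ∑ i, z2 * q i * (p i * z1) = z2 * (∑ i, q i * p i) * z1 := by
        rw [Finset.mul_sum, Finset.sum_mul]
        exact Finset.sum_congr rfl fun i _ => by noncomm_ring
    _ = 0 := by rw [h, mul_zero, zero_mul]

theorem unip_mem_WG {I : AddSubgroup S} {p q : ι → S} (h : q ⬝ᵥ p = 0) {z1 z2 : S} (hz1 : z1 ∈ I)
    (hz2 : z2 ∈ I) {k : ι} (hp : p k = 0) (hq : q k = 0)
    (h' : (fun k => z2 * q k) ⬝ᵥ (fun k => p k * z1) = 0) :
    unip (fun k => p k * z1) (fun k => z2 * q k) h' ∈ WG ι I :=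
  Subgroup.subset_closure ⟨p, q, z1, hz1, z2, hz2, k, h, hp, hq, rfl⟩

theorem WG_le_EA {I : AddSubgroup S}
    (hIl : ∀ s x : S, x ∈ I → s * x ∈ I) (hIr : ∀ s x : S, x ∈ I → x * s ∈ I) :
    WG ι I ≤ EA ι I := by
  unfold WG
  rw [Subgroup.closure_le]
  rintro g ⟨p, q, z1, hz1, z2, hz2, h, hqp, hp, hq, hg⟩
  have hd := dot_scaled hqp z1 z2
  have : g = unip (fun k => p k * z1) (fun k => z2 * q k) hd := by ext1; rw [hg, unip_val]
  rw [this]
  exact unip_mem_of_vanish I hd rfl hd (h := h) (by rw [hp, zero_mul]) (by rw [hq, mul_zero])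
    (fun k => hIl _ _ hz1) (fun k => hIr _ _ hz2)

theorem te_add {i j : ι} (hij : i ≠ j) (r s : S) :
    te i j hij (r + s) = te i j hij r * te i j hij s := by
  unfold te
  rw [← unip_add_right _ _ (by
    rw [add_dotProduct, single_dot_single hij, single_dot_single hij, add_zero])]
  apply unip_ext
  congr 1
  rw [← Pi.single_add]

theorem te_zero {i j : ι} (hij : i ≠ j) : te i j hij (0 : S) = 1 := by
  ext1; rw [te_val]; simp

theorem te_neg {i j : ι} (hij : i ≠ j) (r : S) : te i j hij (-r) = (te i j hij r)⁻¹ := by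
  rw [eq_inv_iff_mul_eq_one, ← te_add, neg_add_cancel, te_zero]

theorem EA_JJ_le_WG (h3 : ∀ i l : ι, ∃ h : ι, h ≠ i ∧ h ≠ l) {I : AddSubgroup S} :
    EA ι (JJ I) ≤ WG ι I := by
  unfold EA
  rw [Subgroup.closure_le]
  rintro g ⟨i, j, hij, r, hr, hg⟩
  have : g = te i j hij r := by ext1; rw [hg, te_val]
  rw [this]
  show te i j hij r ∈ WG ι I
  refine AddSubgroup.closure_induction (p := fun r _ => te i j hij r ∈ WG ι I) ?_ ?_ ?_ ?_ hr
  · rintro x ⟨a, ha, b, hb, rfl⟩
    obtain ⟨h, hhi, hhj⟩ := h3 i j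
    refine Subgroup.subset_closure ⟨Pi.single i 1, Pi.single j 1, a, ha, b, hb, h,
      single_dot_single hij 1 1, by simp [Pi.single_apply, hhi], by simp [Pi.single_apply, hhj], ?_⟩
    rw [te_val, ← vmv_single]
    congr 1
    ext k l
    simp only [vecMulVec_apply, Pi.single_apply]
    split_ifs <;> simp
  · rw [te_zero]; exact Subgroup.one_mem _
  · intro x y _ _ hx hy
    rw [te_add]; exact Subgroup.mul_mem _ hx hy
  · intro x _ hx
    rw [te_neg]; exact Subgroup.inv_mem _ hx

theorem te_mulVec {k l : ι} (hkl : k ≠ l) (b : S) (p : ι → S) :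
    ((te k l hkl b : (Matrix ι ι S)ˣ) : Matrix ι ι S) *ᵥ p = p + Pi.single k (b * p l) := by
  rw [te_val, add_mulVec, one_mulVec, single_mulVec]
  congr 1

theorem vecMul_te {k l : ι} (hkl : k ≠ l) (b : S) (q : ι → S) :
    q ᵥ* ((te k l hkl b : (Matrix ι ι S)ˣ) : Matrix ι ι S) = q + Pi.single l (q k * b) := by
  rw [te_val, vecMul_add, vecMul_one]
  congr 1
  ext x
  simp only [vecMul, dotProduct, single_apply, Pi.single_apply, mul_ite, mul_zero]
  by_cases hx : x = l
  · subst hx
    simp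
  · simp [hx, Ne.symm hx]

/-- conjugation by an elementary transvection preserves `W` -/
theorem te_conj_WG (h3 : ∀ i l : ι, ∃ h : ι, h ≠ i ∧ h ≠ l) {I : AddSubgroup S}
    (hIl : ∀ s x : S, x ∈ I → s * x ∈ I) (hIr : ∀ s x : S, x ∈ I → x * s ∈ I)
    {k l : ι} (hkl : k ≠ l) (b : S) {x : (Matrix ι ι S)ˣ} (hx : x ∈ WG ι I) :
    te k l hkl b * x * (te k l hkl b)⁻¹ ∈ WG ι I := by
  set e := te k l hkl b with he
  have einv : e⁻¹ = te k l hkl (-b) := by rw [te_neg]
  unfold WG at hx
  refine Subgroup.closure_induction (p := fun x _ => e * x * e⁻¹ ∈ WG ι I) ?_ ?_ ?_ ?_ hx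
  · rintro x ⟨p, q, z1, hz1, z2, hz2, h, hqp, hp, hq, hg⟩
    have hd := dot_scaled hqp z1 z2
    have hxx : x = unip (fun k => p k * z1) (fun k => z2 * q k) hd := by
      ext1; rw [hg, unip_val]
    have hp' : ((e : (Matrix ι ι S)ˣ) : Matrix ι ι S) *ᵥ (fun k => p k * z1) =
        fun a => (p + (Pi.single k (b * p l) : ι → S)) a * z1 := by
      rw [he, te_mulVec]
      funext a
      simp only [Pi.add_apply, Pi.single_apply]
      split_ifs <;> noncomm_ring
    have hq' : (fun k => z2 * q k) ᵥ* ((e⁻¹ : (Matrix ι ι S)ˣ) : Matrix ι ι S) =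
        fun a => z2 * (q + (Pi.single l (-(q k * b)) : ι → S)) a := by
      rw [einv, vecMul_te]
      funext a
      simp only [Pi.add_apply, Pi.single_apply]
      split_ifs <;> noncomm_ring
    rw [hxx, conj_unip]
    have hnew : (q + (Pi.single l (-(q k * b)) : ι → S)) ⬝ᵥ (p + (Pi.single k (b * p l) : ι → S)) = 0 := by
      rw [add_dotProduct, dotProduct_add, dotProduct_add, hqp, dotProduct_single,
        single_dotProduct, single_dot_single hkl]
      noncomm_ring
    by_cases hkh : k = h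
    · -- q' = q
      have hqk : q k = 0 := by rw [hkh]; exact hq
      have d1 : (fun a => z2 * q a) ⬝ᵥ (Pi.single k (b * p l * z1) : ι → S) = 0 := by
        rw [dotProduct_single, hqk]; simp
      have key : unip (fun k => p k * z1) (fun k => z2 * q k) hd *
          unip (Pi.single k (b * p l * z1)) (fun k => z2 * q k) d1 ∈ WG ι I := by
        refine Subgroup.mul_mem _ (unip_mem_WG hqp hz1 hz2 hp hq _) ?_
        apply EA_JJ_le_WG h3
        apply unip_disj_mem
        · intro a
          by_cases ha : a = k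
          · right; rw [ha, hqk, mul_zero]
          · left; rw [Pi.single_apply, if_neg ha]
        · intro a c
          rw [Pi.single_apply]
          split_ifs
          · have : b * p l * z1 * (z2 * q c) = (b * p l * z1) * (z2 * q c) := rfl
            exact mul_mem_JJ (hIl _ _ hz1) (hIr _ _ hz2)
          · rw [zero_mul]; exact AddSubgroup.zero_mem _
      rw [← unip_add_left hd d1 (by rw [dotProduct_add, hd, d1, add_zero])] at key
      convert key using 1
      apply unip_ext
      rw [hp', hq']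
      congr 1
      · funext a
        simp only [Pi.add_apply, Pi.single_apply]
        split_ifs <;> noncomm_ring
      · funext a
        simp [hqk]
    · by_cases hlh : l = h
      · have hpl : p l = 0 := by rw [hlh]; exact hp
        have d1 : (Pi.single l (z2 * -(q k * b)) : ι → S) ⬝ᵥ (fun a => p a * z1) = 0 := by
          rw [single_dotProduct, hpl]; simp
        have key : unip (fun k => p k * z1) (fun k => z2 * q k) hd *
            unip (fun k => p k * z1) (Pi.single l (z2 * -(q k * b))) d1 ∈ WG ι I := by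
          refine Subgroup.mul_mem _ (unip_mem_WG hqp hz1 hz2 hp hq _) ?_
          apply EA_JJ_le_WG h3
          apply unip_disj_mem
          · intro a
            by_cases ha : a = l
            · left; rw [ha, hpl, zero_mul]
            · right; rw [Pi.single_apply, if_neg ha]
          · intro a c
            rw [Pi.single_apply]
            split_ifs
            · exact mul_mem_JJ (hIl _ _ hz1) (hIr _ _ hz2)
            · rw [mul_zero]; exact AddSubgroup.zero_mem _
        rw [← unip_add_right hd d1 (by rw [add_dotProduct, hd, d1, add_zero])] at key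
        convert key using 1
        apply unip_ext
        rw [hp', hq']
        congr 1
        · funext a
          simp [hpl]
        · funext a
          simp only [Pi.add_apply, Pi.single_apply]
          split_ifs <;> noncomm_ring
      · have key := unip_mem_WG hnew hz1 hz2 (k := h)
          (by simp [Pi.single_apply, hp, Ne.symm hkh]) (by simp [Pi.single_apply, hq, Ne.symm hlh])
          (dot_scaled hnew z1 z2)
        convert key using 1
        apply unip_ext
        rw [hp', hq']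
  · rw [mul_one, mul_inv_cancel]; exact Subgroup.one_mem _
  · intro x y _ _ hx hy
    have : e * (x * y) * e⁻¹ = (e * x * e⁻¹) * (e * y * e⁻¹) := by group
    rw [this]; exact Subgroup.mul_mem _ hx hy
  · intro x _ hx
    have : e * x⁻¹ * e⁻¹ = (e * x * e⁻¹)⁻¹ := by group
    rw [this]; exact Subgroup.inv_mem _ hx

theorem EA_conj_WG (h3 : ∀ i l : ι, ∃ h : ι, h ≠ i ∧ h ≠ l) {I : AddSubgroup S}
    (hIl : ∀ s x : S, x ∈ I → s * x ∈ I) (hIr : ∀ s x : S, x ∈ I → x * s ∈ I)
    {e : (Matrix ι ι S)ˣ} (he : e ∈ EA ι (⊤ : AddSubgroup S)) :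
    ∀ x ∈ WG ι I, e * x * e⁻¹ ∈ WG ι I := by
  have key : (∀ x ∈ WG ι I, e * x * e⁻¹ ∈ WG ι I) ∧ (∀ x ∈ WG ι I, e⁻¹ * x * e ∈ WG ι I) := by
    unfold EA at he
    refine Subgroup.closure_induction (p := fun e _ =>
      (∀ x ∈ WG ι I, e * x * e⁻¹ ∈ WG ι I) ∧ (∀ x ∈ WG ι I, e⁻¹ * x * e ∈ WG ι I)) ?_ ?_ ?_ ?_ he
    · rintro g ⟨i, j, hij, r, hr, hg⟩
      have : g = te i j hij r := by ext1; rw [hg, te_val]
      rw [this]
      refine ⟨fun x hx => te_conj_WG h3 hIl hIr hij r hx, fun x hx => ?_⟩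
      have := te_conj_WG h3 hIl hIr hij (-r) hx
      rwa [te_neg, inv_inv] at this
    · simp
    · rintro a b _ _ ⟨ha1, ha2⟩ ⟨hb1, hb2⟩
      refine ⟨fun x hx => ?_, fun x hx => ?_⟩
      · have : a * b * x * (a * b)⁻¹ = a * (b * x * b⁻¹) * a⁻¹ := by group
        rw [this]; exact ha1 _ (hb1 _ hx)
      · have : (a * b)⁻¹ * x * (a * b) = b⁻¹ * (a⁻¹ * x * a) * b := by group
        rw [this]; exact hb2 _ (ha2 _ hx)
    · rintro a _ ⟨ha1, ha2⟩
      exact ⟨fun x hx => by simpa using ha2 x hx, fun x hx => by simpa using ha1 x hx⟩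
  exact key.1

/-- (R1) with the group `W` -/
theorem pivot_mem_WG (h3 : ∀ i l : ι, ∃ h : ι, h ≠ i ∧ h ≠ l) (I : AddSubgroup S)
    (hIl : ∀ s x : S, x ∈ I → s * x ∈ I) (hIr : ∀ s x : S, x ∈ I → x * s ∈ I)
    (v w : ι → S) (hwv : w ⬝ᵥ v = 0) (i : ι) {as τ : S}
    (h1 : v i * as = τ) (h2 : as * v i = τ) (hτ : ∀ s, τ * s = s * τ)
    {z1 z2 : S} (hz1 : z1 ∈ I) (hz2 : z2 ∈ I) :
    unip (fun k => v k * (τ * τ * (z1 * z2))) w (scaled_dot v w hwv _) ∈ WG ι I := by
  have hQ := qrow_sum v w hwv i (z1 * z2) h1 hτ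
  have hdot : ∀ l ∈ Finset.univ.erase i,
      qrow v w i as τ (z1 * z2) l ⬝ᵥ (fun k => v k * as) = 0 :=
    fun l _ => qrow_dot v w i (z1 * z2) h1 hτ l
  have hsum : (∑ l ∈ Finset.univ.erase i, qrow v w i as τ (z1 * z2) l) ⬝ᵥ
      (fun k => v k * as) = 0 := by
    rw [sum_dotProduct]; exact Finset.sum_eq_zero hdot
  have hJl := JJ_mul_left (I := I) hIl
  have hJr := JJ_mul_right (I := I) hIr
  have key : unip (fun k => v k * as)
      (∑ l ∈ Finset.univ.erase i, qrow v w i as τ (z1 * z2) l) hsum ∈ WG ι I := by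
    refine unip_sum_right_mem (WG ι I) _ _ _ hdot ?_ hsum
    intro l hl
    have hli : l ≠ i := Finset.ne_of_mem_erase hl
    rw [piece_split v w (z1 * z2) h1 hτ hli]
    refine Subgroup.mul_mem _ ?_ ?_
    · apply EA_JJ_le_WG h3
      apply unip_disj_mem (JJ I) (pout_disj v w i as τ (z1 * z2) l)
      intro a b
      apply hJl
      unfold qrow
      simp only [Pi.sub_apply, Pi.single_apply]
      apply (JJ I).sub_mem
      · split_ifs
        · exact hJr _ _ (hJl _ _ (mul_mem_JJ hz1 hz2))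
        · exact (JJ I).zero_mem
      · split_ifs
        · exact hJr _ _ (hJr _ _ (hJl _ _ (mul_mem_JJ hz1 hz2)))
        · exact (JJ I).zero_mem
    · obtain ⟨h, hhi, hhl⟩ := h3 i l
      have hli' : i ≠ l := Ne.symm hli
      have hd : (Pi.single l (w l * τ) - Pi.single i (w l * (v l * as)) : ι → S) ⬝ᵥ
          (fun k => pin v i as l k * v i) = 0 := by
        rw [sub_dotProduct, single_dotProduct, single_dotProduct]
        simp only [pin, Pi.add_apply, Pi.single_apply, if_true, if_neg hli, if_neg hli', zero_add,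
          add_zero]
        rw [h1]
        calc w l * τ * (v l * as * v i) - w l * (v l * as) * (τ * v i)
            = w l * (τ * (v l * as)) * v i - w l * (v l * as) * τ * v i := by
              noncomm_ring
          _ = w l * ((v l * as) * τ) * v i - w l * (v l * as) * τ * v i := by
              rw [hτ (v l * as)]
          _ = 0 := by noncomm_ring
      have key := unip_mem_WG (I := I) hd hz1 hz2 (k := h)
        (by show pin v i as l h * v i = 0
            rw [pin_zero v i as hhi hhl, zero_mul])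
        (by simp [Pi.single_apply, hhi, hhl]) (dot_scaled hd z1 z2)
      convert key using 1
      apply unip_ext
      ext a b
      simp only [vecMulVec_apply, qrow, Pi.sub_apply, Pi.single_apply]
      by_cases hb : b = l
      · subst hb
        simp only [if_true, if_neg hli, sub_zero]
        rw [show τ * v i * (z1 * z2) * w b = τ * (v i * (z1 * z2) * w b) by noncomm_ring, hτ]
        noncomm_ring
      · simp only [if_neg hb, zero_sub]
        by_cases hb2 : b = i
        · simp only [if_pos hb2]; noncomm_ring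
        · simp only [if_neg hb2]; simp
  have e : unip (fun k => v k * (τ * τ * (z1 * z2))) w (scaled_dot v w hwv _) =
      unip (fun k => v k * as)
      (∑ l ∈ Finset.univ.erase i, qrow v w i as τ (z1 * z2) l) hsum := by
    apply unip_ext
    rw [vmv_pivot v w i (z1 * z2) h2 hτ, hQ]
  rw [e]; exact key

end H40
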